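import Pool.Agent.KTab.Defs
import Pool.Agent.KBT.Dec

/-!
Extensions of index sets.

amal: take the filter comap fst 𝒥₁ ⊓ comap snd 𝒥₂ ⊓ 𝓟 {k | φ₁ k.1 = φ₂ k.2}; it is NeBot, because
for P₁ ∈ 𝒥₁, P₂ ∈ 𝒥₂ the images φ₁ '' P₁ and φ₂ '' P₂ are both in 𝒜 (otherwise the complement is,
and MP gives a contradiction), so they meet; 𝒦 := Ultrafilter.of.  MP follows from the ultrafilter
property (an event or its complement).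
D1_pull, D2_pull: unfold and use MP for both variables.  Everything else is unfolding.
-/

set_option autoImplicit false

namespace KTab

open Filter KBT

variable {I J K W : Type*}

theorem mp_id (𝒲 : Ultrafilter I) : MP 𝒲 𝒲 id := by
  exact fun P => Iff.rfl

theorem mp_comp {𝒦 : Ultrafilter K} {𝒥 : Ultrafilter J} {𝒲 : Ultrafilter I} {ψ : K → J}
    {φ : J → I} (h : MP 𝒦 𝒥 ψ) (h' : MP 𝒥 𝒲 φ) : MP 𝒦 𝒲 (φ ∘ ψ) := by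
  exact fun P => (h (fun j => P (φ j))).trans (h' P)

theorem mp_congr {𝒥 : Ultrafilter J} {𝒲 : Ultrafilter I} {φ φ' : J → I} (h : MP 𝒥 𝒲 φ)
    (he : φ =ᶠ[(𝒥 : Filter J)] φ') : MP 𝒥 𝒲 φ' := by
  intro P
  rw [← h P]
  apply Filter.eventually_congr
  filter_upwards [he] with j hj
  rw [hj]

private theorem Amal_mp_of {𝒥 : Ultrafilter J} {𝒲 : Ultrafilter I} {φ : J → I}
    (h : ∀ P : I → Prop, (∀ᶠ i in (𝒲 : Filter I), P i) → ∀ᶠ j in (𝒥 : Filter J), P (φ j)) :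
    MP 𝒥 𝒲 φ := by
  intro P
  refine ⟨fun h1 => ?_, h P⟩
  by_contra h2
  rw [ev_not] at h2
  have h3 := h _ h2
  obtain ⟨j, hj1, hj2⟩ := (h1.and h3).exists
  exact hj2 hj1

theorem amal {J₁ J₂ A : Type*} (𝒥₁ : Ultrafilter J₁) (𝒥₂ : Ultrafilter J₂) (𝒜 : Ultrafilter A)
    (φ₁ : J₁ → A) (φ₂ : J₂ → A) (h₁ : MP 𝒥₁ 𝒜 φ₁) (h₂ : MP 𝒥₂ 𝒜 φ₂) :
    ∃ 𝒦 : Ultrafilter (J₁ × J₂), MP 𝒦 𝒥₁ Prod.fst ∧ MP 𝒦 𝒥₂ Prod.snd ∧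
      ∀ᶠ k in (𝒦 : Filter (J₁ × J₂)), φ₁ k.1 = φ₂ k.2 := by
  have hne : ((𝒥₁ : Filter J₁) ×ˢ (𝒥₂ : Filter J₂) ⊓
      Filter.principal {k : J₁ × J₂ | φ₁ k.1 = φ₂ k.2}).NeBot := by
    rw [Filter.inf_principal_neBot_iff]
    intro s hs
    rw [Filter.mem_prod_iff] at hs
    obtain ⟨P₁, hP₁, P₂, hP₂, hP⟩ := hs
    have e₁ : ∀ᶠ a in (𝒜 : Filter A), a ∈ φ₁ '' P₁ := by
      rw [← h₁ (fun a => a ∈ φ₁ '' P₁)]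
      filter_upwards [hP₁] with j hj
      exact ⟨j, hj, rfl⟩
    have e₂ : ∀ᶠ a in (𝒜 : Filter A), a ∈ φ₂ '' P₂ := by
      rw [← h₂ (fun a => a ∈ φ₂ '' P₂)]
      filter_upwards [hP₂] with j hj
      exact ⟨j, hj, rfl⟩
    obtain ⟨a, ⟨j₁, hj₁, ha₁⟩, ⟨j₂, hj₂, ha₂⟩⟩ := (e₁.and e₂).exists
    exact ⟨(j₁, j₂), hP ⟨hj₁, hj₂⟩, ha₁.trans ha₂.symm⟩
  refine ⟨@Ultrafilter.of _ _ hne, ?_, ?_, ?_⟩
  · apply Amal_mp_of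
    intro P hP
    have h3 : ∀ᶠ k in ((𝒥₁ : Filter J₁) ×ˢ (𝒥₂ : Filter J₂)), P k.1 := hP.prod_inl _
    have h4 := @Ultrafilter.of_le _ _ hne
    exact h4 (Filter.mem_inf_of_left h3)
  · apply Amal_mp_of
    intro P hP
    have h3 : ∀ᶠ k in ((𝒥₁ : Filter J₁) ×ˢ (𝒥₂ : Filter J₂)), P k.2 := hP.prod_inr _
    have h4 := @Ultrafilter.of_le _ _ hne
    exact h4 (Filter.mem_inf_of_left h3)
  · have h4 := @Ultrafilter.of_le _ _ hne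
    exact h4 (Filter.mem_inf_of_right (Filter.mem_principal_self _))

theorem Rs_pull {𝒥 : Ultrafilter J} {𝒲 : Ultrafilter I} {φ : J → I} (h : MP 𝒥 𝒲 φ)
    (R : W → W → Prop) (f g : I → W) : Rs 𝒥 R (f ∘ φ) (g ∘ φ) ↔ Rs 𝒲 R f g := by
  exact h (fun i => R (f i) (g i))

theorem D1_pull {𝒥 : Ultrafilter J} {𝒲 : Ultrafilter I} {φ ψ : J → I} (h : MP 𝒥 𝒲 φ)
    (h' : MP 𝒥 𝒲 ψ) (R : W → W → Prop) (f g : I → W) :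
    D1 𝒥 R (f ∘ φ) (g ∘ ψ) ↔ D1 𝒲 R f g := by
  unfold D1
  rw [← h (fun i => ∀ᶠ j in (𝒲 : Filter I), R (f i) (g j))]
  apply Filter.eventually_congr
  exact Filter.Eventually.of_forall fun i => h' (fun j => R (f (φ i)) (g j))

theorem D2_pull {𝒥 : Ultrafilter J} {𝒲 : Ultrafilter I} {φ ψ : J → I} (h : MP 𝒥 𝒲 φ)
    (h' : MP 𝒥 𝒲 ψ) (R : W → W → Prop) (f g : I → W) :
    D2 𝒥 R (f ∘ φ) (g ∘ ψ) ↔ D2 𝒲 R f g := by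
  unfold D2
  rw [← h' (fun j => ∀ᶠ i in (𝒲 : Filter I), R (f i) (g j))]
  apply Filter.eventually_congr
  exact Filter.Eventually.of_forall fun j => h (fun i => R (f i) (g (ψ j)))

theorem NN_pull {𝒥 : Ultrafilter J} {𝒲 : Ultrafilter I} {φ : J → I} (h : MP 𝒥 𝒲 φ)
    (R : W → W → Prop) (f g : I → W) : NN 𝒥 R (f ∘ φ) (g ∘ φ) ↔ NN 𝒲 R f g := by
  unfold NN
  rw [Rs_pull h, D1_pull h h, D2_pull h h]

theorem eq_pull {𝒥 : Ultrafilter J} {𝒲 : Ultrafilter I} {φ : J → I} (h : MP 𝒥 𝒲 φ)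
    (f g : I → W) : (f ∘ φ) =ᶠ[(𝒥 : Filter J)] (g ∘ φ) ↔ f =ᶠ[(𝒲 : Filter I)] g := by
  exact h (fun i => f i = g i)

theorem Dp_pull {𝒥 : Ultrafilter J} {𝒲 : Ultrafilter I} {φ : J → I} (h : MP 𝒥 𝒲 φ)
    (C : ℕ → Set W) (f : I → W) : Dp C 𝒥 (f ∘ φ) ↔ Dp C 𝒲 f := by
  unfold Dp
  exact forall_congr' fun i => h (fun a => f a ∈ C i)

theorem Dp_congr {𝒲 : Ultrafilter I} (C : ℕ → Set W) {f g : I → W}
    (h : f =ᶠ[(𝒲 : Filter I)] g) (hf : Dp C 𝒲 f) : Dp C 𝒲 g := by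
  intro i
  filter_upwards [h, hf i] with a h1 h2
  rwa [← h1]

/-- Pull back of a path (D and D' arbitrary properties). -/
theorem RT_pull {𝒥 : Ultrafilter J} {𝒲 : Ultrafilter I} {φ : J → I} (h : MP 𝒥 𝒲 φ)
    {R : W → W → Prop} {D : (I → W) → Prop} {D' : (J → W) → Prop}
    (hD : ∀ f, D f → D' (f ∘ φ)) {f g : I → W} (hfg : RT 𝒲 R D f g) :
    RT 𝒥 R D' (f ∘ φ) (g ∘ φ) := by
  unfold RT at *
  refine Relation.ReflTransGen.lift (p := St 𝒥 R D') (fun f : I → W => f ∘ φ) ?_ _ _ hfg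
  rintro a b ⟨ha, hb, hab⟩
  refine ⟨hD a ha, hD b hb, ?_⟩
  rcases hab with hab | hab
  · exact Or.inl ((NN_pull h R a b).mpr hab)
  · exact Or.inr ((eq_pull h a b).mpr hab)

/-- The end points may be changed on null sets. -/
theorem RT_congr {𝒲 : Ultrafilter I} {R : W → W → Prop} {C : ℕ → Set W} {f f' g g' : I → W}
    (hf : f =ᶠ[(𝒲 : Filter I)] f') (hg : g =ᶠ[(𝒲 : Filter I)] g') (hf' : Dp C 𝒲 f)
    (hg' : Dp C 𝒲 g) (h : RT 𝒲 R (Dp C 𝒲) f g) : RT 𝒲 R (Dp C 𝒲) f' g' := by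
  have h1 : RT 𝒲 R (Dp C 𝒲) f' f :=
    Relation.ReflTransGen.single ⟨Dp_congr C hf hf', hf', Or.inr hf.symm⟩
  have h2 : RT 𝒲 R (Dp C 𝒲) g g' :=
    Relation.ReflTransGen.single ⟨hg', Dp_congr C hg hg', Or.inr hg⟩
  exact (Relation.ReflTransGen.trans h1 h).trans h2

theorem RX_of_RT {M I : Type} {C : ℕ → Set M} {𝒲 : Ultrafilter I} {R : M → M → Prop}
    {f g : I → M} (h : RT 𝒲 R (Dp C 𝒲) f g) : RX C 𝒲 R f g := by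
  exact ⟨I, 𝒲, id, mp_id 𝒲, h⟩

private theorem Amal_common {M I : Type} {C : ℕ → Set M} {𝒲 : Ultrafilter I} {R : M → M → Prop}
    {f g f' g' : I → M} (hf' : Dp C 𝒲 f') (hg' : Dp C 𝒲 g')
    (h : RX C 𝒲 R f g) (h' : RX C 𝒲 R f' g') :
    ∃ (J : Type) (𝒥 : Ultrafilter J) (φ : J → I), MP 𝒥 𝒲 φ ∧
      RT 𝒥 R (Dp C 𝒥) (f ∘ φ) (g ∘ φ) ∧ RT 𝒥 R (Dp C 𝒥) (f' ∘ φ) (g' ∘ φ) := by
  obtain ⟨J₁, 𝒥₁, φ₁, hφ₁, h₁⟩ := h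
  obtain ⟨J₂, 𝒥₂, φ₂, hφ₂, h₂⟩ := h'
  obtain ⟨𝒦, hK₁, hK₂, hK⟩ := amal 𝒥₁ 𝒥₂ 𝒲 φ₁ φ₂ hφ₁ hφ₂
  refine ⟨J₁ × J₂, 𝒦, φ₁ ∘ Prod.fst, mp_comp hK₁ hφ₁, ?_, ?_⟩
  · exact RT_pull hK₁ (D' := Dp C 𝒦) (fun u hu => (Dp_pull hK₁ C u).mpr hu) h₁
  · have h₃ : RT 𝒦 R (Dp C 𝒦) ((f' ∘ φ₂) ∘ Prod.snd) ((g' ∘ φ₂) ∘ Prod.snd) :=
      RT_pull hK₂ (D' := Dp C 𝒦) (fun u hu => (Dp_pull hK₂ C u).mpr hu) h₂
    refine RT_congr (C := C) ?_ ?_ ?_ ?_ h₃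
    · filter_upwards [hK] with k hk
      change f' (φ₂ k.2) = f' (φ₁ k.1)
      rw [hk]
    · filter_upwards [hK] with k hk
      change g' (φ₂ k.2) = g' (φ₁ k.1)
      rw [hk]
    · exact (Dp_pull hK₂ C _).mpr ((Dp_pull hφ₂ C _).mpr hf')
    · exact (Dp_pull hK₂ C _).mpr ((Dp_pull hφ₂ C _).mpr hg')

/-- RX is transitive (amalgamate the two extensions over the index set I). -/
theorem RX_trans {M I : Type} {C : ℕ → Set M} {𝒲 : Ultrafilter I} {R : M → M → Prop}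
    {f g k : I → M} (hf : Dp C 𝒲 f) (hg : Dp C 𝒲 g) (hk : Dp C 𝒲 k) (h : RX C 𝒲 R f g)
    (h' : RX C 𝒲 R g k) : RX C 𝒲 R f k := by
  obtain ⟨J, 𝒥, φ, hφ, h₁, h₂⟩ := Amal_common hg hk h h'
  exact ⟨J, 𝒥, φ, hφ, Relation.ReflTransGen.trans h₁ h₂⟩

/-- Two reachabilities on a common extension. -/
theorem RX_common {M I : Type} {C : ℕ → Set M} {𝒲 : Ultrafilter I} {R : M → M → Prop}
    {f g f' g' : I → M} (hf : Dp C 𝒲 f) (hg : Dp C 𝒲 g) (hf' : Dp C 𝒲 f') (hg' : Dp C 𝒲 g')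
    (h : RX C 𝒲 R f g) (h' : RX C 𝒲 R f' g') :
    ∃ (J : Type) (𝒥 : Ultrafilter J) (φ : J → I), MP 𝒥 𝒲 φ ∧
      RT 𝒥 R (Dp C 𝒥) (f ∘ φ) (g ∘ φ) ∧ RT 𝒥 R (Dp C 𝒥) (f' ∘ φ) (g' ∘ φ) := by
  exact Amal_common hf' hg' h h'

/-- Reachability on an extension of an extension. -/
theorem RX_down {M I J : Type} {C : ℕ → Set M} {𝒲 : Ultrafilter I} {𝒥 : Ultrafilter J}
    {φ : J → I} (hφ : MP 𝒥 𝒲 φ) {R : M → M → Prop} {f g : I → M}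
    (h : RX C 𝒥 R (f ∘ φ) (g ∘ φ)) : RX C 𝒲 R f g := by
  obtain ⟨J', 𝒥', ψ, hψ, h₁⟩ := h
  exact ⟨J', 𝒥', φ ∘ ψ, mp_comp hψ hφ, h₁⟩

theorem JL_fst {A : Type*} {𝒥 : Ultrafilter J} {𝒜 : Ultrafilter A} {π₁ π₂ : J → A}
    (h : JL 𝒥 𝒜 π₁ π₂) : MP 𝒥 𝒜 π₁ := by
  intro P
  have h1 := h (fun a _ => P a)
  simpa using h1

theorem JL_snd {A : Type*} {𝒥 : Ultrafilter J} {𝒜 : Ultrafilter A} {π₁ π₂ : J → A}
    (h : JL 𝒥 𝒜 π₁ π₂) : MP 𝒥 𝒜 π₂ := by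
  intro P
  have h1 := h (fun _ b => P b)
  simpa using h1

end KTab
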