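import Pool.Agent.KTab.NoCopy

/-!
Terminal functions and ultralimits.  In this file f is a terminal function on (I, 𝒲), and no
point is in all sets C i.

noCopyRT: f (first copy) never reaches f (second copy).  rt_cases: if the two are equal almost
everywhere, then by JL ∀ᶠ a, ∀ᶠ b, f a = f b, so f is constant (= w) almost everywhere, and w ∈ C i
for all i since f is deep; otherwise noCopy.

matching: for q reachable and q' deep D1 ↔ D2.  Suppose not; then NN 𝒥 R q q' (by definition of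
NN), so RT (f ∘ φ) q', so RX C 𝒥 R q' (f ∘ φ) (Term): on an extension ψ : J' → J q' ∘ ψ reaches
f ∘ φ ∘ ψ, which reaches q ∘ ψ (RT_pull).  fp_of_cycle: D1 (q ∘ ψ) (q' ∘ ψ) ↔ D2; D1_pull, D2_pull.
-/

set_option autoImplicit false

namespace KTab

open Filter KBT

variable {M I : Type} {R : M → M → Prop} {m : ℕ} {C : ℕ → Set M} {𝒲 : Ultrafilter I} {f : I → M}

theorem noCopyRT (hG : Good R m) (hC : ∀ x, ∃ i, x ∉ C i) (hf : Dp C 𝒲 f) {J : Type}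
    (𝒥 : Ultrafilter J) (φ₁ φ₂ : J → I) (hJL : JL 𝒥 𝒲 φ₁ φ₂)
    (h : RT 𝒥 R (Dp C 𝒥) (f ∘ φ₁) (f ∘ φ₂)) : False := by
  rcases rt_cases 𝒥 hG h with heq | ⟨n, q, hn, -, h0, hq, -, hN, -⟩
  · have h1 : ∀ᶠ a in (𝒲 : Filter I), ∀ᶠ b in (𝒲 : Filter I), f a = f b :=
      (hJL fun a b => f a = f b).1 heq
    obtain ⟨a, ha⟩ := h1.exists
    obtain ⟨i, hi⟩ := hC (f a)
    obtain ⟨b, hb1, hb2⟩ := (ha.and (hf i)).exists
    rw [← hb1] at hb2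
    exact hi hb2
  · exact noCopy 𝒲 𝒥 φ₁ φ₂ hJL hG f n hn q (by rw [h0]) (by rw [hq]) hN

theorem matching (hG : Good R m) (hf : Term C 𝒲 R f) {J : Type} (𝒥 : Ultrafilter J)
    (φ : J → I) (hφ : MP 𝒥 𝒲 φ) (q q' : J → M) (hq : RT 𝒥 R (Dp C 𝒥) (f ∘ φ) q)
    (hq1 : Dp C 𝒥 q) (hq' : Dp C 𝒥 q') : (D1 𝒥 R q q' ↔ D2 𝒥 R q q') := by
  by_contra hne
  have hNN : NN 𝒥 R q q' := fun h => hne (h.1.symm.trans h.2)
  have hst : St 𝒥 R (Dp C 𝒥) q q' := ⟨hq1, hq', Or.inl hNN⟩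
  have hRT : RT 𝒥 R (Dp C 𝒥) (f ∘ φ) q' := Relation.ReflTransGen.tail hq hst
  obtain ⟨J', 𝒥', ψ, hψ, h1⟩ := hf.2 J 𝒥 φ q' hφ hRT
  have h2 : RT 𝒥' R (Dp C 𝒥') ((f ∘ φ) ∘ ψ) (q ∘ ψ) :=
    RT_pull hψ (fun g hg => (Dp_pull hψ C g).2 hg) hq
  have h3 : RT 𝒥' R (Dp C 𝒥') (q' ∘ ψ) (q ∘ ψ) := Relation.ReflTransGen.trans h1 h2
  have h4 := fp_of_cycle 𝒥' hG h3
  rw [D1_pull hψ hψ, D2_pull hψ hψ] at h4
  exact hne h4

end KTab
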