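import Pool.Agent.KTab.Types
import Pool.Agent.KTab.Lim1

/-!
Bad pairs: no flip over S keeps the set of functions reachable from f closed.

PROOF.  𝒥 := prodU 𝒲 𝒲, JL 𝒥 𝒲 fst snd (ev_prodU), MP fst, MP snd.  Z y := RX C 𝒥 R (f ∘ fst) y.
Put Φ τ τ' := ∃ y x : I × I → M, Dp y ∧ Dp x ∧ Z y ∧ ¬ Z x ∧ ltp 𝒥 R S y = τ ∧ ltp 𝒥 R S x = τ' ∧
Rs 𝒥 R y x.  Let i0 be from hc Φ and bd from plgS.  For q = (a, b) let K q be the least k with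
f a ∉ C k ∨ f b ∉ C k (hC).  For every i: ∀ᶠ q, i ≤ K q (f is deep, hmono).  If K q ≥ i0 + 2 then
f a, f b ∈ C (K q - 1), and there is a path of length n ≤ bd inside C (K q - 2) from f a to f b
(hc, plgS).  P σ q := the min σ n -th point of this path (choose; arbitrary = f a if
K q < i0 + 2), σ ≤ bd.  Then P 0 = f ∘ fst, P bd = f ∘ snd almost everywhere, all P σ are deep
(for every i almost all K q are ≥ i + 2 and C is decreasing; note that if the path has length 0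
then the only point is f a, which is in C (K q - 1)), and for each σ < bd almost everywhere
P σ q = P (σ+1) q or EF2 R S Φ (P σ q) (P (σ+1) q); by the ultrafilter property one of the two
holds almost everywhere.
Z (P 0) holds; ¬ Z (P bd): otherwise f ∘ fst reaches f ∘ snd on some extension ψ, and the pair
(fst ∘ ψ, snd ∘ ψ) has the law JL, against noCopyRT.  So there is σ < bd with Z (P σ) and
¬ Z (P (σ+1)).  They are not equal almost everywhere (Z is invariant, RT_congr), so EF2 holds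
almost everywhere and by tp2_lim ¬ (Rs 𝒥 R (P σ) (P (σ+1)) ↔ Φ (ltp (P σ)) (ltp (P (σ+1)))).
If Rs held, then Φ would hold by definition (witness P σ, P (σ+1)).  So ¬ Rs and Φ holds:
y' := P σ, x' := P (σ+1) and (y, x) the witness of Φ.
-/

set_option autoImplicit false

namespace KTab

open Filter KBT

theorem badPairs {M I : Type} {R : M → M → Prop} {m : ℕ} (hG : Good R m) {C : ℕ → Set M}
    (hmono : ∀ i, C (i+1) ⊆ C i) (hC : ∀ x, ∃ i, x ∉ C i) {𝒲 : Ultrafilter I} {f : I → M}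
    (hf : Dp C 𝒲 f) (S : Finset M)
    (hc : ∀ Φ : Set M × Set M → Set M × Set M → Prop, ∃ i0 : ℕ, ∀ i, i0 ≤ i →
      ∀ x ∈ C (i+1), ∀ y ∈ C (i+1), RC (C i) (EF2 R S Φ) x y) :
    ∃ y x y' x' : I × I → M,
      (Dp C (prodU 𝒲 𝒲) y ∧ Dp C (prodU 𝒲 𝒲) x ∧ Dp C (prodU 𝒲 𝒲) y' ∧ Dp C (prodU 𝒲 𝒲) x') ∧
      RX C (prodU 𝒲 𝒲) R (f ∘ Prod.fst) y ∧ ¬ RX C (prodU 𝒲 𝒲) R (f ∘ Prod.fst) x ∧
      RX C (prodU 𝒲 𝒲) R (f ∘ Prod.fst) y' ∧ ¬ RX C (prodU 𝒲 𝒲) R (f ∘ Prod.fst) x' ∧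
      ltp (prodU 𝒲 𝒲) R S y = ltp (prodU 𝒲 𝒲) R S y' ∧
      ltp (prodU 𝒲 𝒲) R S x = ltp (prodU 𝒲 𝒲) R S x' ∧
      Rs (prodU 𝒲 𝒲) R y x ∧ ¬ Rs (prodU 𝒲 𝒲) R y' x' := by
  classical
  -- the product ultrafilter
  have hanti : ∀ i j, i ≤ j → C j ⊆ C i := by
    intro i j hij
    induction j, hij using Nat.le_induction with
    | base => exact fun _ h => h
    | succ j _ ih => exact fun _ h => ih (hmono j h)
  have hJL : JL (prodU 𝒲 𝒲) 𝒲 (Prod.fst : I × I → I) (Prod.snd : I × I → I) := fun P =>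
    ev_prodU 𝒲 𝒲 (fun p => P p.1 p.2)
  have hfst : Dp C (prodU 𝒲 𝒲) (f ∘ Prod.fst) := (Dp_pull (JL_fst hJL) C f).2 hf
  have hsnd : Dp C (prodU 𝒲 𝒲) (f ∘ Prod.snd) := (Dp_pull (JL_snd hJL) C f).2 hf
  obtain ⟨i0, hi0⟩ := hc (fun τ τ' => ∃ y x : I × I → M, Dp C (prodU 𝒲 𝒲) y ∧
    Dp C (prodU 𝒲 𝒲) x ∧ RX C (prodU 𝒲 𝒲) R (f ∘ Prod.fst) y ∧
    ¬ RX C (prodU 𝒲 𝒲) R (f ∘ Prod.fst) x ∧ ltp (prodU 𝒲 𝒲) R S y = τ ∧
    ltp (prodU 𝒲 𝒲) R S x = τ' ∧ Rs (prodU 𝒲 𝒲) R y x)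
  generalize hΦ : (fun τ τ' : Set M × Set M => ∃ y x : I × I → M, Dp C (prodU 𝒲 𝒲) y ∧
    Dp C (prodU 𝒲 𝒲) x ∧ RX C (prodU 𝒲 𝒲) R (f ∘ Prod.fst) y ∧
    ¬ RX C (prodU 𝒲 𝒲) R (f ∘ Prod.fst) x ∧ ltp (prodU 𝒲 𝒲) R S y = τ ∧
    ltp (prodU 𝒲 𝒲) R S x = τ' ∧ Rs (prodU 𝒲 𝒲) R y x) = Φ at hi0
  obtain ⟨bd, hbd⟩ := plgS hG S
  -- the level of a pair
  have hex : ∀ q : I × I, ∃ k, f q.1 ∉ C k ∨ f q.2 ∉ C k := by
    intro q
    obtain ⟨i, hi⟩ := hC (f q.1)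
    exact ⟨i, Or.inl hi⟩
  let K : I × I → ℕ := fun q => Nat.find (hex q)
  have hK1 : ∀ i, ∀ᶠ q in (prodU 𝒲 𝒲 : Filter (I × I)), i ≤ K q := by
    intro i
    filter_upwards [hfst i, hsnd i] with q h1 h2
    by_contra h3
    rw [not_le] at h3
    rcases Nat.find_spec (hex q) with h4 | h4
    · exact h4 (hanti _ _ h3.le h1)
    · exact h4 (hanti _ _ h3.le h2)
  have hK2 : ∀ q k, k < K q → f q.1 ∈ C k ∧ f q.2 ∈ C k := by
    intro q k hk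
    have h1 := Nat.find_min (hex q) hk
    push Not at h1
    exact h1
  -- the paths
  have hpath : ∀ q : I × I, ∃ (n : ℕ) (p : ℕ → M), n ≤ bd ∧ (i0 + 2 ≤ K q →
      p 0 = f q.1 ∧ p n = f q.2 ∧ ∀ i < n, p i ∈ C (K q - 2) ∧ p (i+1) ∈ C (K q - 2) ∧
        EF2 R S Φ (p i) (p (i+1))) := by
    intro q
    by_cases hq : i0 + 2 ≤ K q
    · have h1 := hK2 q (K q - 2 + 1) (by omega)
      have h2 := hi0 (K q - 2) (by omega) _ h1.1 _ h1.2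
      obtain ⟨n, hn, p, hp0, hpn, hp⟩ := hbd Φ _ _ _ h2
      exact ⟨n, p, hn, fun _ => ⟨hp0, hpn, hp⟩⟩
    · exact ⟨0, fun _ => f q.1, Nat.zero_le _, fun h => absurd h hq⟩
  choose n p hn hp using hpath
  let P : ℕ → I × I → M := fun σ q => p q (min σ (n q))
  have hP0 : P 0 =ᶠ[(prodU 𝒲 𝒲 : Filter (I × I))] (f ∘ Prod.fst) := by
    filter_upwards [hK1 (i0 + 2)] with q hq
    change p q (min 0 (n q)) = f q.1
    rw [Nat.zero_min]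
    exact (hp q hq).1
  have hPb : P bd =ᶠ[(prodU 𝒲 𝒲 : Filter (I × I))] (f ∘ Prod.snd) := by
    filter_upwards [hK1 (i0 + 2)] with q hq
    change p q (min bd (n q)) = f q.2
    rw [min_eq_right (hn q)]
    exact (hp q hq).2.1
  have hPC : ∀ q, i0 + 2 ≤ K q → ∀ k ≤ n q, p q k ∈ C (K q - 2) := by
    intro q hq k hk
    obtain ⟨h1, -, h3⟩ := hp q hq
    rcases Nat.lt_or_ge k (n q) with h4 | h4
    · exact (h3 k h4).1
    · rcases Nat.eq_zero_or_pos k with h5 | h5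
      · subst h5
        rw [h1]
        exact (hK2 q (K q - 2) (by omega)).1
      · have h6 := (h3 (k - 1) (by omega)).2.1
        rwa [show k - 1 + 1 = k by omega] at h6
  have hPD : ∀ σ, Dp C (prodU 𝒲 𝒲) (P σ) := by
    intro σ i
    filter_upwards [hK1 (i0 + 2), hK1 (i + 2)] with q h1 h2
    exact hanti i (K q - 2) (by omega) (hPC q h1 _ (min_le_right _ _))
  have hstep : ∀ σ, ∀ᶠ q in (prodU 𝒲 𝒲 : Filter (I × I)),
      P σ q = P (σ+1) q ∨ EF2 R S Φ (P σ q) (P (σ+1) q) := by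
    intro σ
    filter_upwards [hK1 (i0 + 2)] with q hq
    rcases Nat.lt_or_ge σ (n q) with h1 | h1
    · right
      change EF2 R S Φ (p q (min σ (n q))) (p q (min (σ+1) (n q)))
      rw [min_eq_left h1.le, min_eq_left (by omega : σ + 1 ≤ n q)]
      exact ((hp q hq).2.2 σ h1).2.2
    · left
      change p q (min σ (n q)) = p q (min (σ+1) (n q))
      rw [min_eq_right h1, min_eq_right (by omega : n q ≤ σ + 1)]
  -- the two ends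
  have hZ0 : RX C (prodU 𝒲 𝒲) R (f ∘ Prod.fst) (P 0) :=
    RX_of_RT (Relation.ReflTransGen.single ⟨hfst, hPD 0, Or.inr hP0.symm⟩)
  have hZb : ¬ RX C (prodU 𝒲 𝒲) R (f ∘ Prod.fst) (P bd) := by
    rintro ⟨J, 𝒥, φ, hφ, h1⟩
    have h2 : (P bd ∘ φ) =ᶠ[(𝒥 : Filter J)] ((f ∘ Prod.snd) ∘ φ) := (eq_pull hφ _ _).2 hPb
    have h3 : RT 𝒥 R (Dp C 𝒥) ((f ∘ Prod.fst) ∘ φ) ((f ∘ Prod.snd) ∘ φ) :=
      RT_congr (EventuallyEq.refl _ _) h2 ((Dp_pull hφ C _).2 hfst) ((Dp_pull hφ C _).2 (hPD bd))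
        h1
    refine noCopyRT hG hC hf 𝒥 (Prod.fst ∘ φ) (Prod.snd ∘ φ) ?_ h3
    intro Q
    exact (hφ (fun q => Q q.1 q.2)).trans (hJL Q)
  have hσ : ∃ σ, RX C (prodU 𝒲 𝒲) R (f ∘ Prod.fst) (P σ) ∧
      ¬ RX C (prodU 𝒲 𝒲) R (f ∘ Prod.fst) (P (σ+1)) := by
    by_contra hcon
    push Not at hcon
    exact hZb (Nat.rec hZ0 (fun σ ih => hcon σ ih) bd)
  obtain ⟨σ, hσ1, hσ2⟩ := hσ
  have hne : ¬ (P σ =ᶠ[(prodU 𝒲 𝒲 : Filter (I × I))] P (σ+1)) := by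
    intro h
    apply hσ2
    obtain ⟨J, 𝒥, φ, hφ, h1⟩ := hσ1
    exact ⟨J, 𝒥, φ, hφ, RT_congr (EventuallyEq.refl _ _) ((eq_pull hφ _ _).2 h)
      ((Dp_pull hφ C _).2 hfst) ((Dp_pull hφ C _).2 (hPD σ)) h1⟩
  have hE : ∀ᶠ q in (prodU 𝒲 𝒲 : Filter (I × I)), EF2 R S Φ (P σ q) (P (σ+1) q) := by
    rcases Ultrafilter.eventually_or.1 (hstep σ) with h | h
    · exact absurd h hne
    · exact h
  have hE2 : ∀ᶠ q in (prodU 𝒲 𝒲 : Filter (I × I)), ¬ (R (P σ q) (P (σ+1) q) ↔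
      Φ (ltp (prodU 𝒲 𝒲) R S (P σ)) (ltp (prodU 𝒲 𝒲) R S (P (σ+1)))) := by
    filter_upwards [hE, tp2_lim (prodU 𝒲 𝒲) R S (P σ), tp2_lim (prodU 𝒲 𝒲) R S (P (σ+1))]
      with q h1 h2 h3
    unfold EF2 at h1
    rwa [h2, h3] at h1
  have hnR : ¬ Rs (prodU 𝒲 𝒲) R (P σ) (P (σ+1)) := by
    intro h
    have h1 : Φ (ltp (prodU 𝒲 𝒲) R S (P σ)) (ltp (prodU 𝒲 𝒲) R S (P (σ+1))) := by
      rw [← hΦ]
      exact ⟨P σ, P (σ+1), hPD σ, hPD (σ+1), hσ1, hσ2, rfl, rfl, h⟩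
    obtain ⟨q, h2, h3⟩ := (h.and hE2).exists
    exact h3 ⟨fun _ => h1, fun _ => h2⟩
  have hyes : Φ (ltp (prodU 𝒲 𝒲) R S (P σ)) (ltp (prodU 𝒲 𝒲) R S (P (σ+1))) := by
    by_contra h1
    have h2 := Ultrafilter.eventually_not.2 hnR
    obtain ⟨q, h3, h4⟩ := (h2.and hE2).exists
    exact h4 ⟨fun h => absurd h h3, fun h => absurd h h1⟩
  rw [← hΦ] at hyes
  obtain ⟨y, x, hy, hx, hzy, hzx, hty, htx, hR⟩ := hyes
  exact ⟨y, x, P σ, P (σ+1), ⟨hy, hx, hPD σ, hPD (σ+1)⟩, hzy, hzx, hσ1, hσ2, hty, htx, hR, hnR⟩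

end KTab
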