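import Pool.Agent.KTab.Defs
import Pool.Agent.KBT.Chl

/-!
Long paths through blocks with finitely many types give XP.  PROOF.  Put L := 2 * m + 2,
r₀ := n ^ (m+1) (number of words), K := L * (r₀ + 1) + m + 1.  Take a chordless path z 0, ..., z N
(KBT.chordless) for the relation E; by the far condition a step of E changes the block number
(z i).1 by at most 1 upwards.  For r ≤ r₀ let t r be the first i with (z i).1 ≥ L * r (it exists
since (z N).1 = K ≥ L * r); then (z (t r)).1 = L * r, and t r + m ≤ N since the block numbers grow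
by at most 1 per step; the blocks of z (t r), ..., z (t r + m) are within m of L * r (upwards by
the steps; for the lower bound one needs that a step also changes the number by at most 1
downwards: the far condition excludes (z i).1 + 2 ≤ (z (i+1)).1 and (z (i+1)).1 + 2 ≤ (z i).1).
The words (type of z (t r + c))_{c ≤ m} are r₀ + 1 words over an alphabet of size n, so two of
them are equal, r < r'.  x false a := P of z (t r + m - a), x true a := P of z (t r' + m - a).
Check XP R m: the row x false (a+1) over the column x false a: not ↔ M of the types (a step); over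
x true a: ↔ M of the types (far blocks); the two types of columns are equal, so not constant.
Same for the row x true (a+1).  For b ≥ a + 2 (rows x e b): over the column of its own run ↔ M by
chordlessness, over the column of the other run ↔ M because far.
-/

set_option autoImplicit false

namespace KTab

open Filter KBT

private theorem xp_blocks_core (m n K : ℕ) (hK : K = (2 * m + 2) * (n ^ (m+1) + 1) + m + 1)
    {V : Type*} (R : V → V → Prop)
    (P : ℕ → Fin n → V) (M : Fin n → Fin n → Prop) (σ₀ τ₀ : Fin n)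
    (hfar : ∀ k l, k ≤ K → l ≤ K → (k + 2 ≤ l ∨ l + 2 ≤ k) → ∀ σ τ, (R (P k σ) (P l τ) ↔ M σ τ))
    (hpath : Relation.ReflTransGen (fun z z' : Fin (K+1) × Fin n =>
      ¬ (R (P z.1.1 z.2) (P z'.1.1 z'.2) ↔ M z.2 z'.2)) (0, σ₀) (Fin.last K, τ₀)) :
    XP R m := by
  classical
  obtain ⟨N, z, h0, hN, hst, hch⟩ := chordless hpath
  have hBK : ∀ i, (z i).1.1 ≤ K := fun i => by have := (z i).1.2; omega
  have hB0 : (z 0).1.1 = 0 := by rw [h0]; rfl
  have hBN : (z N).1.1 = K := by rw [hN]; rfl
  have hstep : ∀ i < N, (z (i+1)).1.1 ≤ (z i).1.1 + 1 ∧ (z i).1.1 ≤ (z (i+1)).1.1 + 1 := by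
    intro i hi
    have h1 := hst i hi
    by_contra hc
    apply h1
    apply hfar _ _ (hBK i) (hBK (i+1))
    omega
  have hstep2 : ∀ c i, i + c ≤ N →
      (z (i+c)).1.1 ≤ (z i).1.1 + c ∧ (z i).1.1 ≤ (z (i+c)).1.1 + c := by
    intro c
    induction c with
    | zero => intro i _; simp
    | succ c ih =>
      intro i hi
      have h1 := ih i (by omega)
      have h2 := hstep (i+c) (by omega)
      rw [show i + (c+1) = i + c + 1 by omega]
      omega
  have hLmul : ∀ r, r ≤ n^(m+1) → (2*m+2) * r + (2 * m + 2) + m + 1 ≤ K := by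
    intro r hr
    have h1 := Nat.mul_le_mul_left (2*m+2) (Nat.succ_le_succ hr)
    have e : (2*m+2) * (Nat.succ r) = (2*m+2)*r + (2*m+2) := by
      rw [Nat.succ_eq_add_one]; ring
    rw [e, Nat.succ_eq_add_one] at h1
    rw [hK]
    omega
  have hhit : ∀ r, r ≤ n^(m+1) → ∃ t, t + m ≤ N ∧ (z t).1.1 = (2*m+2)*r := by
    intro r hr
    have hr2 := hLmul r hr
    have hex : ∃ i, i ≤ N ∧ (2*m+2)*r ≤ (z i).1.1 := ⟨N, le_rfl, by rw [hBN]; omega⟩
    obtain ⟨t, hsp, hmin⟩ : ∃ t, (t ≤ N ∧ (2*m+2)*r ≤ (z t).1.1) ∧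
        ∀ k < t, ¬ (k ≤ N ∧ (2*m+2)*r ≤ (z k).1.1) :=
      ⟨Nat.find hex, Nat.find_spec hex, fun k hk => Nat.find_min hex hk⟩
    have hteq : (z t).1.1 = (2*m+2)*r := by
      rcases Nat.eq_zero_or_pos t with h | h
      · subst h
        have h1 := hsp.2
        rw [hB0] at h1 ⊢
        omega
      · have h1 := hmin (t-1) (by omega)
        have h2 := hstep (t-1) (by omega)
        rw [show t - 1 + 1 = t by omega] at h2
        have h3 : ¬ (2*m+2)*r ≤ (z (t-1)).1.1 := fun h4 => h1 ⟨by omega, h4⟩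
        have h4 := hsp.2
        omega
    refine ⟨t, ?_, hteq⟩
    by_contra hc
    have h5 := hsp.1
    have h1 := hstep2 (N - t) t (by omega)
    rw [show t + (N - t) = N by omega, hBN, hteq] at h1
    omega
  choose! t ht using hhit
  obtain ⟨r, r', hne, hw⟩ := Fintype.exists_ne_map_eq_of_card_lt
    (fun (r : Fin (n^(m+1) + 1)) (c : Fin (m+1)) => (z (t r.1 + c.1)).2) (by simp)
  have hrne : r.1 ≠ r'.1 := fun h => hne (Fin.ext h)
  have htr := ht r.1 (by have := r.2; omega)
  have htr' := ht r'.1 (by have := r'.2; omega)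
  obtain ⟨u, hu0, hu1⟩ : ∃ u : Bool → ℕ, u false = t r.1 ∧ u true = t r'.1 :=
    ⟨fun e => cond e (t r'.1) (t r.1), rfl, rfl⟩
  have huN : ∀ e, u e + m ≤ N := by
    intro e
    cases e
    · rw [hu0]; exact htr.1
    · rw [hu1]; exact htr'.1
  have hty0 : ∀ c, c ≤ m → (z (u false + c)).2 = (z (u true + c)).2 := by
    intro c hc
    have := congrFun hw ⟨c, by omega⟩
    rw [hu0, hu1]
    exact this
  have hty : ∀ e c, c ≤ m → (z (u (!e) + c)).2 = (z (u e + c)).2 := by
    intro e c hc
    cases e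
    · exact (hty0 c hc).symm
    · exact hty0 c hc
  have hgap : (2*m+2) * r.1 + (2*m+2) ≤ (2*m+2) * r'.1 ∨
      (2*m+2) * r'.1 + (2*m+2) ≤ (2*m+2) * r.1 := by
    rcases Nat.lt_or_gt_of_ne hrne with h | h
    · left
      have h1 := Nat.mul_le_mul_left (2*m+2) (Nat.succ_le_of_lt h)
      have e : (2*m+2) * (Nat.succ r.1) = (2*m+2)*r.1 + (2*m+2) := by
        rw [Nat.succ_eq_add_one]; ring
      rw [e] at h1
      exact h1
    · right
      have h1 := Nat.mul_le_mul_left (2*m+2) (Nat.succ_le_of_lt h)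
      have e : (2*m+2) * (Nat.succ r'.1) = (2*m+2)*r'.1 + (2*m+2) := by
        rw [Nat.succ_eq_add_one]; ring
      rw [e] at h1
      exact h1
  have hfb : ∀ c c', c ≤ m → c' ≤ m →
      ((z (u false + c)).1.1 + 2 ≤ (z (u true + c')).1.1 ∨
        (z (u true + c')).1.1 + 2 ≤ (z (u false + c)).1.1) := by
    intro c c' hc hc'
    have h1 := hstep2 c (u false) (by have := huN false; omega)
    have h2 := hstep2 c' (u true) (by have := huN true; omega)
    have e1 : (z (u false)).1.1 = (2*m+2) * r.1 := by rw [hu0]; exact htr.2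
    have e2 : (z (u true)).1.1 = (2*m+2) * r'.1 := by rw [hu1]; exact htr'.2
    rw [e1] at h1
    rw [e2] at h2
    omega
  have hfb2 : ∀ e c c', c ≤ m → c' ≤ m →
      ((z (u e + c)).1.1 + 2 ≤ (z (u (!e) + c')).1.1 ∨
        (z (u (!e) + c')).1.1 + 2 ≤ (z (u e + c)).1.1) := by
    intro e c c' hc hc'
    cases e
    · exact hfb c c' hc hc'
    · exact (hfb c' c hc' hc).symm
  have hoth : ∀ e a b, (R (P (z (u e + (m - b))).1.1 (z (u e + (m - b))).2)
      (P (z (u (!e) + (m - a))).1.1 (z (u (!e) + (m - a))).2) ↔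
        M (z (u e + (m - b))).2 (z (u e + (m - a))).2) := by
    intro e a b
    have h1 := hfar _ _ (hBK (u e + (m-b))) (hBK (u (!e) + (m - a)))
      (hfb2 e (m-b) (m-a) (by omega) (by omega)) (z (u e + (m - b))).2 (z (u (!e) + (m - a))).2
    rw [h1, hty e (m-a) (by omega)]
  refine ⟨fun e a => P (z (u e + (m - a))).1.1 (z (u e + (m - a))).2, ?_, ?_⟩
  · intro a ha e
    have h1 := hst (u e + (m - (a+1))) (by have := huN e; omega)
    rw [show u e + (m - (a+1)) + 1 = u e + (m - a) by omega] at h1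
    have h2 := hoth e a (a+1)
    cases e
    · simp only [Bool.not_false] at h2
      show ¬ (R _ (P (z (u false + (m - a))).1.1 (z (u false + (m - a))).2) ↔
        R _ (P (z (u true + (m - a))).1.1 (z (u true + (m - a))).2))
      intro h3
      exact h1 (h3.trans h2)
    · simp only [Bool.not_true] at h2
      show ¬ (R _ (P (z (u false + (m - a))).1.1 (z (u false + (m - a))).2) ↔
        R _ (P (z (u true + (m - a))).1.1 (z (u true + (m - a))).2))
      intro h3
      exact h1 (h3.symm.trans h2)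
  · intro a b hab hb e
    have h1 := hch (u e + (m - b)) (u e + (m - a)) (by omega) (by have := huN e; omega)
    have h1' := not_not.mp h1
    have h2 := hoth e a b
    cases e
    · simp only [Bool.not_false] at h2
      exact h1'.trans h2.symm
    · simp only [Bool.not_true] at h2
      exact h2.trans h1'.symm

theorem xp_of_blocks (m n : ℕ) : ∃ K : ℕ, ∀ {V : Type*} (R : V → V → Prop)
    (P : ℕ → Fin n → V) (M : Fin n → Fin n → Prop) (σ₀ τ₀ : Fin n),
    (∀ k l, k ≤ K → l ≤ K → (k + 2 ≤ l ∨ l + 2 ≤ k) → ∀ σ τ, (R (P k σ) (P l τ) ↔ M σ τ)) →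
    Relation.ReflTransGen (fun z z' : Fin (K+1) × Fin n =>
      ¬ (R (P z.1.1 z.2) (P z'.1.1 z'.2) ↔ M z.2 z'.2)) (0, σ₀) (Fin.last K, τ₀) →
    XP R m := by
  refine ⟨(2 * m + 2) * (n ^ (m+1) + 1) + m + 1, ?_⟩
  intro V R P M σ₀ τ₀ hfar hpath
  exact xp_blocks_core m n _ rfl R P M σ₀ τ₀ hfar hpath

end KTab
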