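import Pool.Agent.KBT.Defs

/-!
# Definitions for the directed case (k-tabularity implies local tabularity)

R x y is read: the row x sees the column y.  XP and FP are the two killed patterns.  For functions
f, g : I → W on an index set with an ultrafilter, Rs is the relation in the ultrapower, D1 (row
first) and D2 (column first) are the relations of two independent copies.
-/

set_option autoImplicit false

namespace KTab

open Filter KBT

/-- One pair of parallel runs of length m: the rows of level a+1 are not constant on the pair of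
columns of level a, all later rows are constant on it. -/
def XP {W : Type*} (R : W → W → Prop) (m : ℕ) : Prop :=
  ∃ x : Bool → ℕ → W,
    (∀ a < m, ∀ e, ¬ (R (x e (a+1)) (x false a) ↔ R (x e (a+1)) (x true a))) ∧
    (∀ a b, a + 2 ≤ b → b ≤ m → ∀ e, (R (x e b) (x false a) ↔ R (x e b) (x true a)))

/-- t rounds of pairs of parallel runs x e r 0, ..., x e r s.  Rows of later rounds are constant on
the pairs; the top rows of later rounds see the bottom of earlier rounds, the top rows of earlier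
rounds do not see the bottom of later rounds. -/
def FP {W : Type*} (R : W → W → Prop) (t : ℕ) : Prop :=
  ∃ (s : ℕ) (x : Bool → ℕ → ℕ → W), 1 ≤ s ∧
    (∀ r < t, ∀ a < s, ∀ e,
      ¬ (R (x e r (a+1)) (x false r a) ↔ R (x e r (a+1)) (x true r a))) ∧
    (∀ r < t, ∀ a b, a + 2 ≤ b → b ≤ s → ∀ e,
      (R (x e r b) (x false r a) ↔ R (x e r b) (x true r a))) ∧
    (∀ r r', r < r' → r' < t → ∀ a < s, ∀ b ≤ s, ∀ e,
      (R (x e r' b) (x false r a) ↔ R (x e r' b) (x true r a))) ∧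
    (∀ r r', r < r' → r' < t → ∀ e e', R (x e r' 0) (x e' r s) ∧ ¬ R (x e r 0) (x e' r' s))

/-- Structures without long patterns. -/
def Good {W : Type*} (R : W → W → Prop) (m : ℕ) : Prop := ¬ XP R m ∧ ¬ FP R m

/-- Independent copies, the row first. -/
def D1 {I W : Type*} (𝒲 : Ultrafilter I) (R : W → W → Prop) (f g : I → W) : Prop :=
  ∀ᶠ i in (𝒲 : Filter I), ∀ᶠ j in (𝒲 : Filter I), R (f i) (g j)

/-- Independent copies, the column first. -/
def D2 {I W : Type*} (𝒲 : Ultrafilter I) (R : W → W → Prop) (f g : I → W) : Prop :=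
  ∀ᶠ j in (𝒲 : Filter I), ∀ᶠ i in (𝒲 : Filter I), R (f i) (g j)

/-- The row f depends on the column g. -/
def NN {I W : Type*} (𝒲 : Ultrafilter I) (R : W → W → Prop) (f g : I → W) : Prop :=
  ¬ ((Rs 𝒲 R f g ↔ D1 𝒲 R f g) ∧ (Rs 𝒲 R f g ↔ D2 𝒲 R f g))

/-- The structure of all functions at all rational times. -/
def Tw {I W : Type*} (𝒲 : Ultrafilter I) (R : W → W → Prop) (p q : (I → W) × ℚ) : Prop :=
  (p.2 = q.2 ∧ Rs 𝒲 R p.1 q.1) ∨ (p.2 < q.2 ∧ D1 𝒲 R p.1 q.1) ∨ (q.2 < p.2 ∧ D2 𝒲 R p.1 q.1)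

/-- One step (through functions with the property D). -/
def St {I W : Type*} (𝒲 : Ultrafilter I) (R : W → W → Prop) (D : (I → W) → Prop)
    (f g : I → W) : Prop :=
  D f ∧ D g ∧ (NN 𝒲 R f g ∨ f =ᶠ[(𝒲 : Filter I)] g)

/-- Reachability (through functions with the property D). -/
def RT {I W : Type*} (𝒲 : Ultrafilter I) (R : W → W → Prop) (D : (I → W) → Prop)
    (f g : I → W) : Prop :=
  Relation.ReflTransGen (St 𝒲 R D) f g

/-- Measure preserving maps of index sets. -/
def MP {J I : Type*} (𝒥 : Ultrafilter J) (𝒲 : Ultrafilter I) (φ : J → I) : Prop :=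
  ∀ P : I → Prop, (∀ᶠ j in (𝒥 : Filter J), P (φ j)) ↔ ∀ᶠ i in (𝒲 : Filter I), P i

/-- The pair of maps has the law of two independent copies. -/
def JL {J A : Type*} (𝒥 : Ultrafilter J) (𝒜 : Ultrafilter A) (π₁ π₂ : J → A) : Prop :=
  ∀ P : A → A → Prop, (∀ᶠ j in (𝒥 : Filter J), P (π₁ j) (π₂ j)) ↔
    ∀ᶠ a in (𝒜 : Filter A), ∀ᶠ b in (𝒜 : Filter A), P a b

/-- Deep functions for a decreasing sequence of sets. -/
def Dp {I M : Type*} (C : ℕ → Set M) (𝒲 : Ultrafilter I) (f : I → M) : Prop :=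
  ∀ i, ∀ᶠ a in (𝒲 : Filter I), f a ∈ C i

/-- Reachability through deep functions on some extension of the index set. -/
def RX {M I : Type} (C : ℕ → Set M) (𝒲 : Ultrafilter I) (R : M → M → Prop) (f g : I → M) :
    Prop :=
  ∃ (J : Type) (𝒥 : Ultrafilter J) (φ : J → I), MP 𝒥 𝒲 φ ∧ RT 𝒥 R (Dp C 𝒥) (f ∘ φ) (g ∘ φ)

/-- Terminal functions: everything reachable from f on some extension reaches f. -/
def Term {M I : Type} (C : ℕ → Set M) (𝒲 : Ultrafilter I) (R : M → M → Prop) (f : I → M) :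
    Prop :=
  Dp C 𝒲 f ∧ ∀ (J : Type) (𝒥 : Ultrafilter J) (φ : J → I) (g : J → M), MP 𝒥 𝒲 φ →
    RT 𝒥 R (Dp C 𝒥) (f ∘ φ) g → RX C 𝒥 R g (f ∘ φ)

/-- The ultrafilter on a disjoint union: first the number n, then the point of J n. -/
noncomputable def sigU {J : ℕ → Type} (𝒥 : ∀ n, Ultrafilter (J n)) : Ultrafilter (Σ n, J n) :=
  (hyperfilter ℕ).bind (fun n => (𝒥 n).map (Sigma.mk n))

theorem ev_sigU {J : ℕ → Type} (𝒥 : ∀ n, Ultrafilter (J n)) (P : (Σ n, J n) → Prop) :
    (∀ᶠ p in (sigU 𝒥 : Filter (Σ n, J n)), P p) ↔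
      ∀ᶠ n in (hyperfilter ℕ : Filter ℕ), ∀ᶠ j in (𝒥 n : Filter (J n)), P ⟨n, j⟩ := by
  rfl

/-- Row type and column type over a finite set. -/
def tp2 {V : Type*} (R : V → V → Prop) (S : Finset V) (x : V) : Set V × Set V :=
  ({s | s ∈ S ∧ R x s}, {s | s ∈ S ∧ R s x})

/-- R flipped by a relation on the types over S. -/
def EF2 {V : Type*} (R : V → V → Prop) (S : Finset V)
    (Φ : Set V × Set V → Set V × Set V → Prop) (x y : V) : Prop :=
  ¬ (R x y ↔ Φ (tp2 R S x) (tp2 R S y))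

/-- The limit type over a finite set of points. -/
def ltp {I M : Type*} (𝒲 : Ultrafilter I) (R : M → M → Prop) (S : Finset M) (y : I → M) :
    Set M × Set M :=
  ({s | s ∈ S ∧ ∀ᶠ i in (𝒲 : Filter I), R (y i) s},
    {s | s ∈ S ∧ ∀ᶠ i in (𝒲 : Filter I), R s (y i)})

/-- Reachability inside a set C for a relation E. -/
def RC {V : Type*} (C : Set V) (E : V → V → Prop) (x y : V) : Prop :=
  Relation.ReflTransGen (fun a b => a ∈ C ∧ b ∈ C ∧ E a b) x y

/-- R flipped by a relation on the colours κ. -/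
def EK {V : Type*} {k : ℕ} (R : V → V → Prop) (κ : V → Fin k) (Φ : Fin k → Fin k → Prop)
    (x y : V) : Prop :=
  ¬ (R x y ↔ Φ (κ x) (κ y))

end KTab
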