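import Pool.Agent.KTab.Facts

/-!
Chordless paths of a flip with finitely many colours are bounded.

noInfPath: PROOF.  𝒰 := hyperfilter ℕ.  P σ := fun n => q (n + σ); for every σ let c σ be the
limit colour: ∀ᶠ n, κ (q (n + σ)) = c σ (KBT.ev_pigeon or Ultrafilter argument, Fin k is finite).
D1 𝒰 R (P σ) (P τ) ↔ Φ (c σ) (c τ) (for fixed n and n' large, n' + τ ≥ n + σ + 2, use hch), and
Rs 𝒰 R (P σ) (P (σ+1)) ↔ ¬ Φ (c σ) (c (σ+1)) (hlink), so NN 𝒰 R (P σ) (P (σ+1)).  Hence for
τ ≤ σ: RT 𝒰 R (fun _ => True) (P τ) (P σ), and fp_of_cycle gives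
D2 𝒰 R (P σ) (P τ) ↔ Φ (c σ) (c τ).  Pigeonhole: the words (c (r * (m+1) + i))_{i ≤ m} for
r ≤ k ^ (m+1) are not all different: r < r', x := r * (m+1), y := r' * (m+1), so
c (x + i) = c (y + i) for i ≤ m and y ≥ x + m + 1.  Choose n generic and then n' generic after n
(n' ≥ n + y + m + 2): κ (q (n + σ)) = c σ, κ (q (n' + σ)) = c σ for σ ≤ y + m, and
(R (q (n' + σ)) (q (n + τ)) ↔ Φ (c σ) (c τ)) for τ ≤ σ ≤ y + m (this is D2: column first).
x false a := q (n + x + m - a), x true a := q (n' + y + m - a) is a pattern XP R m: rows of the run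
false over columns of the run false: hlink for b = a+1, hch for b ≥ a+2; over columns of the run
true: hch (n' large), value Φ; rows of the run true over columns of the run true: hlink, hch; over
columns of the run false: the D2-condition with σ = y + m - b ≥ y > x + m - a = τ, value Φ; the
colours of the two columns are equal, the rows too.

plgD: PROOF.  Suppose that for every bd there are κ, Φ, n > bd and a chordless path q.  Choose
κ N, Φ N, q N for bd = N.  On W* := ℕ → W with Rs (hyperfilter ℕ) R (good by good_Rs) put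
qs i := fun N => q N i, κs x := the colour c with ∀ᶠ N, κ N (x N) = c (choose), Φs a b :=
∀ᶠ N, Φ N a b.  Then noInfPath applies (for fixed i, j almost all N are > j).
-/

set_option autoImplicit false

namespace KTab

open Filter KBT

private theorem limcol {α : Type*} (𝒰 : Ultrafilter α) {k : ℕ} (f : α → Fin k) :
    ∃ c, ∀ᶠ n in (𝒰 : Filter α), f n = c := by
  by_contra h
  have h1 : ∀ c, ∀ᶠ n in (𝒰 : Filter α), ¬ f n = c :=
    fun c => Ultrafilter.eventually_not.2 (not_exists.1 h c)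
  obtain ⟨n, hn⟩ := (eventually_all.2 h1).exists
  exact hn _ rfl

theorem noInfPath {W : Type*} {R : W → W → Prop} {m : ℕ} (hG : Good R m) {k : ℕ}
    (κ : W → Fin k) (Φ : Fin k → Fin k → Prop) (q : ℕ → W)
    (hlink : ∀ i, EK R κ Φ (q i) (q (i+1))) (hch : ∀ i j, i + 2 ≤ j → ¬ EK R κ Φ (q i) (q j)) :
    False := by
  classical
  have hlc : ∀ σ, ∃ c, ∀ᶠ n in (hyperfilter ℕ : Filter ℕ), κ (q (n + σ)) = c :=
    fun σ => limcol _ _
  choose c hc using hlc
  have fr : ∀ i j s t, κ (q i) = c s → κ (q j) = c t → i + 2 ≤ j →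
      (R (q i) (q j) ↔ Φ (c s) (c t)) := by
    intro i j s t h1 h2 h3
    have h4 := hch i j h3
    unfold EK at h4
    rw [not_not, h1, h2] at h4
    exact h4
  have lk : ∀ N σ, κ (q (N + σ)) = c σ → κ (q (N + (σ + 1))) = c (σ + 1) →
      ¬ (R (q (N + σ)) (q (N + (σ + 1))) ↔ Φ (c σ) (c (σ + 1))) := by
    intro N σ h1 h2
    have h3 := hlink (N + σ)
    unfold EK at h3
    rw [add_assoc, h1, h2] at h3
    exact h3
  have hD1 : ∀ σ τ, (D1 (hyperfilter ℕ) R (fun n => q (n + σ)) (fun n => q (n + τ)) ↔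
      Φ (c σ) (c τ)) := by
    intro σ τ
    have h1 : ∀ᶠ n in (hyperfilter ℕ : Filter ℕ), ∀ᶠ n' in (hyperfilter ℕ : Filter ℕ),
        (R (q (n + σ)) (q (n' + τ)) ↔ Φ (c σ) (c τ)) := by
      filter_upwards [hc σ] with n hn
      have h2 : ∀ᶠ n' in (hyperfilter ℕ : Filter ℕ), n + σ + 2 ≤ n' :=
        (eventually_ge_atTop (n + σ + 2)).filter_mono Nat.hyperfilter_le_atTop
      filter_upwards [hc τ, h2] with n' hn' hle
      exact fr _ _ _ _ hn hn' (by omega)
    unfold D1
    constructor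
    · intro h
      obtain ⟨n, hn, hn'⟩ := (h.and h1).exists
      obtain ⟨n', hn1, hn2⟩ := (hn.and hn').exists
      exact hn2.1 hn1
    · intro h
      filter_upwards [h1] with n hn
      filter_upwards [hn] with n' hn'
      exact hn'.2 h
  have hNN : ∀ σ, NN (hyperfilter ℕ) R (fun n => q (n + σ)) (fun n => q (n + (σ + 1))) := by
    intro σ h
    have h1 : Rs (hyperfilter ℕ) R (fun n => q (n + σ)) (fun n => q (n + (σ + 1))) ↔
        ¬ Φ (c σ) (c (σ + 1)) := by
      have h2 : ∀ᶠ n in (hyperfilter ℕ : Filter ℕ),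
          ¬ (R (q (n + σ)) (q (n + (σ + 1))) ↔ Φ (c σ) (c (σ + 1))) := by
        filter_upwards [hc σ, hc (σ + 1)] with n h3 h4
        exact lk n σ h3 h4
      unfold Rs
      constructor
      · intro h3
        obtain ⟨n, h4, h5⟩ := (h3.and h2).exists
        intro h6
        exact h5 ⟨fun _ => h6, fun _ => h4⟩
      · intro h3
        filter_upwards [h2] with n h4
        by_contra h5
        exact h4 ⟨fun h6 => absurd h6 h5, fun h6 => absurd h6 h3⟩
    have h2 := h.1.trans (hD1 σ (σ + 1))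
    have h3 := h1.symm.trans h2
    by_cases h4 : Φ (c σ) (c (σ + 1))
    · exact h3.2 h4 h4
    · exact h4 (h3.1 h4)
  have hRT : ∀ τ d, RT (hyperfilter ℕ) R (fun _ => True) (fun n => q (n + τ))
      (fun n => q (n + (τ + d))) := by
    intro τ d
    induction d with
    | zero => exact Relation.ReflTransGen.refl
    | succ d ih => exact ih.tail ⟨trivial, trivial, Or.inl (hNN (τ + d))⟩
  have hD2 : ∀ σ τ, τ ≤ σ → (D2 (hyperfilter ℕ) R (fun n => q (n + σ)) (fun n => q (n + τ)) ↔
      Φ (c σ) (c τ)) := by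
    intro σ τ h
    obtain ⟨d, rfl⟩ := Nat.exists_eq_add_of_le h
    exact (fp_of_cycle (hyperfilter ℕ) hG (hRT τ d)).symm.trans (hD1 (τ + d) τ)
  have key : ∀ x y, x + m + 1 ≤ y → (∀ i ≤ m, c (x + i) = c (y + i)) → False := by
    intro x y hxy hcc
    have g1 : ∀ᶠ n in (hyperfilter ℕ : Filter ℕ), ∀ σ ∈ Finset.range (y + m + 1),
        κ (q (n + σ)) = c σ :=
      (eventually_all_finset _).2 fun σ _ => hc σ
    have g2 : ∀ᶠ n in (hyperfilter ℕ : Filter ℕ), ∀ σ ∈ Finset.range (y + m + 1),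
        ∀ τ ∈ Finset.range (σ + 1), ∀ᶠ n' in (hyperfilter ℕ : Filter ℕ),
          (R (q (n' + σ)) (q (n + τ)) ↔ Φ (c σ) (c τ)) := by
      refine (eventually_all_finset _).2 fun σ _ => (eventually_all_finset _).2 fun τ hτ => ?_
      have hτ' : τ ≤ σ := by
        have := Finset.mem_range.1 hτ
        omega
      have h1 := hD2 σ τ hτ'
      filter_upwards [ev_dec2 (hyperfilter ℕ) (hyperfilter ℕ)
        (fun n n' => R (q (n' + σ)) (q (n + τ)))] with n hn
      filter_upwards [hn] with n' hn'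
      exact hn'.trans h1
    obtain ⟨n, hn1, hn2⟩ := (g1.and g2).exists
    have g3 : ∀ᶠ n' in (hyperfilter ℕ : Filter ℕ), ∀ σ ∈ Finset.range (y + m + 1),
        ∀ τ ∈ Finset.range (σ + 1), (R (q (n' + σ)) (q (n + τ)) ↔ Φ (c σ) (c τ)) :=
      (eventually_all_finset _).2 fun σ hσ =>
        (eventually_all_finset _).2 fun τ hτ => hn2 σ hσ τ hτ
    have g4 : ∀ᶠ n' in (hyperfilter ℕ : Filter ℕ), n + y + m + 2 ≤ n' :=
      (eventually_ge_atTop (n + y + m + 2)).filter_mono Nat.hyperfilter_le_atTop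
    obtain ⟨n', ⟨hm1, hm3⟩, hm4⟩ := ((g1.and g3).and g4).exists
    have k1 : ∀ σ, σ ≤ y + m → κ (q (n + σ)) = c σ :=
      fun σ h => hn1 σ (Finset.mem_range.2 (by omega))
    have k2 : ∀ σ, σ ≤ y + m → κ (q (n' + σ)) = c σ :=
      fun σ h => hm1 σ (Finset.mem_range.2 (by omega))
    have k3 : ∀ σ τ, τ ≤ σ → σ ≤ y + m → (R (q (n' + σ)) (q (n + τ)) ↔ Φ (c σ) (c τ)) :=
      fun σ τ h1 h2 => hm3 σ (Finset.mem_range.2 (by omega)) τ (Finset.mem_range.2 (by omega))
    refine hG.1 ⟨fun e a => if e = true then q (n' + (y + m - a)) else q (n + (x + m - a)),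
      ?_, ?_⟩
    · intro a ha e
      obtain ⟨u, hu⟩ : ∃ u, m = a + 1 + u := ⟨m - (a + 1), by omega⟩
      have e1 : x + m - a = x + u + 1 := by omega
      have e2 : x + m - (a + 1) = x + u := by omega
      have e3 : y + m - a = y + u + 1 := by omega
      have e4 : y + m - (a + 1) = y + u := by omega
      have c2 : c (x + u + 1) = c (y + u + 1) := by
        have := hcc (u + 1) (by omega)
        rwa [← add_assoc, ← add_assoc] at this
      cases e with
      | false =>
        simp only [Bool.false_eq_true, if_false, if_true, e1, e2, e3]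
        have h1 := lk n (x + u) (k1 _ (by omega)) (k1 _ (by omega))
        have h2 := fr (n + (x + u)) (n' + (y + u + 1)) (x + u) (y + u + 1)
          (k1 _ (by omega)) (k2 _ (by omega)) (by omega)
        rw [← c2] at h2
        intro h
        exact h1 (h.trans h2)
      | true =>
        simp only [Bool.false_eq_true, if_false, if_true, e1, e3, e4]
        have h1 := lk n' (y + u) (k2 _ (by omega)) (k2 _ (by omega))
        have h2 := k3 (y + u) (x + u + 1) (by omega) (by omega)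
        rw [c2] at h2
        intro h
        exact h1 (h.symm.trans h2)
    · intro a b hab hb e
      obtain ⟨u, hu⟩ : ∃ u, m = b + u := ⟨m - b, by omega⟩
      obtain ⟨v, hv⟩ : ∃ v, b = a + 2 + v := ⟨b - (a + 2), by omega⟩
      have e1 : x + m - a = x + (u + v + 2) := by omega
      have e2 : x + m - b = x + u := by omega
      have e3 : y + m - a = y + (u + v + 2) := by omega
      have e4 : y + m - b = y + u := by omega
      have c2 : c (x + (u + v + 2)) = c (y + (u + v + 2)) := hcc (u + v + 2) (by omega)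
      cases e with
      | false =>
        simp only [Bool.false_eq_true, if_false, if_true, e1, e2, e3]
        have h1 := fr (n + (x + u)) (n + (x + (u + v + 2))) (x + u) (x + (u + v + 2))
          (k1 _ (by omega)) (k1 _ (by omega)) (by omega)
        have h2 := fr (n + (x + u)) (n' + (y + (u + v + 2))) (x + u) (y + (u + v + 2))
          (k1 _ (by omega)) (k2 _ (by omega)) (by omega)
        rw [← c2] at h2
        exact h1.trans h2.symm
      | true =>
        simp only [Bool.false_eq_true, if_false, if_true, e1, e3, e4]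
        have h1 := fr (n' + (y + u)) (n' + (y + (u + v + 2))) (y + u) (y + (u + v + 2))
          (k2 _ (by omega)) (k2 _ (by omega)) (by omega)
        have h2 := k3 (y + u) (x + (u + v + 2)) (by omega) (by omega)
        rw [c2] at h2
        exact h2.trans h1.symm
  -- pigeonhole
  let word : Fin (k ^ (m + 1) + 1) → (Fin (m + 1) → Fin k) :=
    fun r i => c (r.1 * (m + 1) + i.1)
  have hcard : Fintype.card (Fin (m + 1) → Fin k) < Fintype.card (Fin (k ^ (m + 1) + 1)) := by
    simp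
  obtain ⟨r, r', hne, hw⟩ := Fintype.exists_ne_map_eq_of_card_lt word hcard
  have key2 : ∀ r r' : Fin (k ^ (m + 1) + 1), r.1 < r'.1 → word r = word r' → False := by
    intro r r' hlt hw
    refine key (r.1 * (m + 1)) (r'.1 * (m + 1)) ?_ ?_
    · have h1 : (r.1 + 1) * (m + 1) ≤ r'.1 * (m + 1) := Nat.mul_le_mul_right _ hlt
      have h2 : (r.1 + 1) * (m + 1) = r.1 * (m + 1) + m + 1 := by ring
      omega
    · intro i hi
      have h1 := congrFun hw ⟨i, by omega⟩
      exact h1
  rcases lt_trichotomy r.1 r'.1 with h | h | h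
  · exact key2 r r' h hw
  · exact hne (Fin.ext h)
  · exact key2 r' r h hw.symm

theorem plgD {W : Type*} {R : W → W → Prop} {m : ℕ} (hG : Good R m) (k : ℕ) :
    ∃ bd : ℕ, ∀ (κ : W → Fin k) (Φ : Fin k → Fin k → Prop) (n : ℕ) (q : ℕ → W),
      (∀ i < n, EK R κ Φ (q i) (q (i+1))) →
      (∀ i j, i + 2 ≤ j → j ≤ n → ¬ EK R κ Φ (q i) (q j)) → n ≤ bd := by
  classical
  by_contra hcon
  have h0 : ∀ bd : ℕ, ∃ (κ : W → Fin k) (Φ : Fin k → Fin k → Prop) (n : ℕ) (q : ℕ → W),
      (∀ i < n, EK R κ Φ (q i) (q (i+1))) ∧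
      (∀ i j, i + 2 ≤ j → j ≤ n → ¬ EK R κ Φ (q i) (q j)) ∧ bd < n := by
    intro bd
    by_contra h1
    refine hcon ⟨bd, fun κ Φ n q h2 h3 => ?_⟩
    by_contra h4
    exact h1 ⟨κ, Φ, n, q, h2, h3, not_le.1 h4⟩
  choose κN ΦN nN qN hl hc hn using h0
  have hκ : ∀ x : ℕ → W, ∃ c, ∀ᶠ N in (hyperfilter ℕ : Filter ℕ), κN N (x N) = c :=
    fun x => limcol _ _
  choose κs hκs using hκ
  have hev : ∀ (i j : ℕ), (∀ᶠ N in (hyperfilter ℕ : Filter ℕ), j ≤ N) := fun i j =>
    (eventually_ge_atTop j).filter_mono Nat.hyperfilter_le_atTop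
  refine noInfPath (good_Rs (hyperfilter ℕ) hG) (W := ℕ → W) κs
    (fun a b => ∀ᶠ N in (hyperfilter ℕ : Filter ℕ), ΦN N a b) (fun i N => qN N i) ?_ ?_
  · intro i
    have h1 : ∀ᶠ N in (hyperfilter ℕ : Filter ℕ), ¬ (R (qN N i) (qN N (i + 1)) ↔
        ΦN N (κs (fun N => qN N i)) (κs (fun N => qN N (i + 1)))) := by
      filter_upwards [hκs (fun N => qN N i), hκs (fun N => qN N (i + 1)), hev 0 (i + 1)]
        with N h2 h3 h4
      have h5 := hl N i (by have := hn N; omega)
      unfold EK at h5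
      rw [h2, h3] at h5
      exact h5
    unfold EK Rs
    intro h2
    by_cases h3 : ∀ᶠ N in (hyperfilter ℕ : Filter ℕ), R (qN N i) (qN N (i + 1))
    · obtain ⟨N, ⟨h4, h5⟩, h6⟩ := ((h3.and (h2.1 h3)).and h1).exists
      exact h6 ⟨fun _ => h5, fun _ => h4⟩
    · have h4 := Ultrafilter.eventually_not.2 h3
      have h5 := Ultrafilter.eventually_not.2 (fun h => h3 (h2.2 h))
      obtain ⟨N, ⟨h6, h7⟩, h8⟩ := ((h4.and h5).and h1).exists
      exact h8 ⟨fun h => absurd h h6, fun h => absurd h h7⟩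
  · intro i j hij
    have h1 : ∀ᶠ N in (hyperfilter ℕ : Filter ℕ), (R (qN N i) (qN N j) ↔
        ΦN N (κs (fun N => qN N i)) (κs (fun N => qN N j))) := by
      filter_upwards [hκs (fun N => qN N i), hκs (fun N => qN N j), hev 0 j] with N h2 h3 h4
      have h5 := hc N i j hij (by have := hn N; omega)
      unfold EK at h5
      rw [not_not, h2, h3] at h5
      exact h5
    unfold EK Rs
    rw [not_not]
    exact eventually_congr h1

/-- Reachability inside C for a flip has bounded distances (chordless paths inside C). -/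
theorem plgC {W : Type*} {R : W → W → Prop} {m : ℕ} (hG : Good R m) (k : ℕ) :
    ∃ bd : ℕ, ∀ (κ : W → Fin k) (Φ : Fin k → Fin k → Prop) (C : Set W) (x y : W),
      RC C (EK R κ Φ) x y → ∃ n ≤ bd, ∃ q : ℕ → W, q 0 = x ∧ q n = y ∧
        ∀ i < n, q i ∈ C ∧ q (i+1) ∈ C ∧ EK R κ Φ (q i) (q (i+1)) := by
  classical
  obtain ⟨bd, hbd⟩ := plgD hG k
  refine ⟨bd, fun κ Φ C x y h => ?_⟩
  obtain ⟨n, p, h0, hn, hp, hch⟩ := chordless h
  refine ⟨n, hbd κ Φ n p (fun i hi => (hp i hi).2.2) ?_, p, h0, hn, hp⟩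
  intro i j hij hj hE
  refine hch i j hij hj ⟨(hp i (by omega)).1, ?_, hE⟩
  obtain ⟨j', rfl⟩ : ∃ j', j = j' + 1 := ⟨j - 1, by omega⟩
  exact (hp j' (by omega)).2.1

end KTab
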