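import Pool.Agent.KTab.NoCopy
import Pool.Agent.KTab.PlgD
import Pool.Agent.KBT.SeqExt

/-!
The strong components of the flip graph (inside any set C) have bounded depth.

noInfDepth: PROOF.  𝒰 := hyperfilter ℕ, 𝒥 := prodU 𝒰 𝒰 on ℕ × ℕ, JL 𝒥 𝒰 fst snd.  For i < j:
RC C E (x i) (x j) (transitivity) and ¬ RC C E (x j) (x i) (otherwise x (i+1) reaches x i).  By
plgC choose for i < j a path of length n i j ≤ bd; by pigeonhole (KBT.ev_pigeon) n i j = n for
almost all (i, j); n ≥ 1, since n = 0 gives x i = x j and RC is reflexive.  P σ (i, j) := the σ-th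
point of the path.  Let c σ be the limit colour of P σ.  Rs 𝒥 R (P σ) (P (σ+1)) ↔
¬ Φ (c σ) (c (σ+1)) for σ < n.  D2 𝒥 R (P σ) (P (σ+1)) ↔ Φ (c σ) (c (σ+1)): column at (i', j')
first, then the row at (i, j) with j' < i; if the value were not Φ, there were an edge in C from
P σ (i, j) to P (σ+1) (i', j'), so x i reaches x j' with j' < i, a contradiction (all points of the
paths are in C since n ≥ 1).  So NN 𝒥 R (P σ) (P (σ+1)) for σ < n; noCopy with X := x.

depthD: PROOF.  Suppose that for each d there are C, κ, Φ, x as in the statement (negated).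
On W* := ℕ → W with Rs (hyperfilter ℕ) R, C* := {f | ∀ᶠ N, f N ∈ C N}, κ*, Φ* the limits as in
plgD, x* i := fun N => x N i.  x* i reaches x* (i+1) inside C*: for almost all N there is a path of
length ≤ bd (plgC); take the limit length (pigeonhole) and the limit path.  x* (i+1) does not
reach x* i: a path in C* of finite length gives paths in C N for almost all N.  noInfDepth.
Universe: all types in Type.
-/

set_option autoImplicit false

namespace KTab

open Filter KBT

private theorem rc_of_path {V : Type*} {C : Set V} {E : V → V → Prop} {q : ℕ → V} {n : ℕ}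
    (h : ∀ i < n, q i ∈ C ∧ q (i+1) ∈ C ∧ E (q i) (q (i+1))) (a : ℕ) :
    ∀ b, a ≤ b → b ≤ n → RC C E (q a) (q b) := by
  intro b hab
  induction b, hab using Nat.le_induction with
  | base => intro _; exact Relation.ReflTransGen.refl
  | succ b hb ih =>
    intro hbn
    exact (ih (by omega)).tail (h b (by omega))

private theorem ev_prod_lt : ∀ᶠ p in (prodU (hyperfilter ℕ) (hyperfilter ℕ) : Filter (ℕ × ℕ)),
    p.1 < p.2 := by
  rw [ev_prodU]
  refine Filter.Eventually.of_forall fun a => ?_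
  exact (eventually_gt_atTop a).filter_mono Nat.hyperfilter_le_atTop

private theorem ev_prod_gt (t : ℕ) :
    ∀ᶠ p in (prodU (hyperfilter ℕ) (hyperfilter ℕ) : Filter (ℕ × ℕ)), t < p.1 := by
  rw [ev_prodU]
  have h := (eventually_gt_atTop t).filter_mono Nat.hyperfilter_le_atTop
  filter_upwards [h] with a ha
  exact Filter.Eventually.of_forall fun _ => ha

theorem noInfDepth {W : Type} {R : W → W → Prop} {m : ℕ} (hG : Good R m) {k : ℕ}
    (κ : W → Fin k) (Φ : Fin k → Fin k → Prop) (C : Set W) (x : ℕ → W)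
    (h1 : ∀ i, RC C (EK R κ Φ) (x i) (x (i+1)))
    (h2 : ∀ i, ¬ RC C (EK R κ Φ) (x (i+1)) (x i)) : False := by
  classical
  have hreach : ∀ i j, i ≤ j → RC C (EK R κ Φ) (x i) (x j) := by
    intro i j hij
    induction j, hij using Nat.le_induction with
    | base => exact Relation.ReflTransGen.refl
    | succ j _ ih => exact Relation.ReflTransGen.trans ih (h1 j)
  have hnot : ∀ i j, i < j → ¬ RC C (EK R κ Φ) (x j) (x i) := fun i j hij h =>
    h2 i (Relation.ReflTransGen.trans (hreach (i+1) j hij) h)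
  obtain ⟨bd, hbd⟩ := plgC hG k
  have H : ∀ p : ℕ × ℕ, ∃ n ≤ bd, ∃ q : ℕ → W, p.1 < p.2 → q 0 = x p.1 ∧ q n = x p.2 ∧
      ∀ i < n, q i ∈ C ∧ q (i+1) ∈ C ∧ EK R κ Φ (q i) (q (i+1)) := by
    intro p
    by_cases hp : p.1 < p.2
    · obtain ⟨n, hn, q, hq⟩ := hbd κ Φ C (x p.1) (x p.2) (hreach _ _ hp.le)
      exact ⟨n, hn, q, fun _ => hq⟩
    · exact ⟨0, Nat.zero_le _, fun _ => x 0, fun h => absurd h hp⟩
  choose nn hnn q hq using H
  obtain ⟨n, -, hev⟩ := ev_pigeon (prodU (hyperfilter ℕ) (hyperfilter ℕ)) (Set.finite_Iic bd) nn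
    (Filter.Eventually.of_forall fun p => hnn p)
  have hlt := ev_prod_lt
  have hn1 : 1 ≤ n := by
    obtain ⟨p, hp1, hp2⟩ := (hev.and hlt).exists
    rcases Nat.eq_zero_or_pos n with h0 | h0
    · exfalso
      have h3 := hq p hp2
      rw [hp1, h0] at h3
      refine hnot p.1 p.2 hp2 ?_
      rw [← h3.1, ← h3.2.1]
      exact Relation.ReflTransGen.refl
    · exact h0
  have hcol : ∀ σ : ℕ, ∃ c : Fin k,
      ∀ᶠ p in (prodU (hyperfilter ℕ) (hyperfilter ℕ) : Filter (ℕ × ℕ)), κ (q p σ) = c := by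
    intro σ
    obtain ⟨c, -, hc⟩ := ev_pigeon (prodU (hyperfilter ℕ) (hyperfilter ℕ))
      (Set.finite_univ (α := Fin k)) (fun p => κ (q p σ))
      (Filter.Eventually.of_forall fun p => Set.mem_univ _)
    exact ⟨c, hc⟩
  choose c hc using hcol
  have hJL : JL (prodU (hyperfilter ℕ) (hyperfilter ℕ)) (hyperfilter ℕ) Prod.fst Prod.snd :=
    fun P => ev_prodU _ _ (fun p => P p.1 p.2)
  refine noCopy (hyperfilter ℕ) (prodU (hyperfilter ℕ) (hyperfilter ℕ)) Prod.fst Prod.snd hJL hG x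
    n hn1 (fun σ p => q p σ) ?_ ?_ ?_
  · filter_upwards [hlt] with p hp
    exact (hq p hp).1
  · filter_upwards [hlt, hev] with p hp hp2
    have h3 := (hq p hp).2.1
    rw [hp2] at h3
    exact h3
  · intro σ hσ hcon
    -- the value on the diagonal
    have hRs : Rs (prodU (hyperfilter ℕ) (hyperfilter ℕ)) R (fun p => q p σ)
        (fun p => q p (σ+1)) ↔ ¬ Φ (c σ) (c (σ+1)) := by
      have h3 : ∀ᶠ p in (prodU (hyperfilter ℕ) (hyperfilter ℕ) : Filter (ℕ × ℕ)),
          (R (q p σ) (q p (σ+1)) ↔ ¬ Φ (c σ) (c (σ+1))) := by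
        filter_upwards [hlt, hev, hc σ, hc (σ+1)] with p hp hp2 hc1 hc2
        have h4 := ((hq p hp).2.2 σ (by omega)).2.2
        unfold EK at h4
        rw [hc1, hc2] at h4
        tauto
      by_cases hΦ : Φ (c σ) (c (σ+1))
      · refine ⟨fun h => ?_, fun h => absurd hΦ h⟩
        obtain ⟨p, hp1, hp2⟩ := (h3.and h).exists
        exact hp1.1 hp2
      · refine ⟨fun _ => hΦ, fun _ => ?_⟩
        exact h3.mono fun p hp => hp.2 hΦ
    have hD2 : D2 (prodU (hyperfilter ℕ) (hyperfilter ℕ)) R (fun p => q p σ)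
        (fun p => q p (σ+1)) ↔ Φ (c σ) (c (σ+1)) := by
      have h3 : ∀ᶠ p' in (prodU (hyperfilter ℕ) (hyperfilter ℕ) : Filter (ℕ × ℕ)),
          ∀ᶠ p in (prodU (hyperfilter ℕ) (hyperfilter ℕ) : Filter (ℕ × ℕ)),
          (R (q p σ) (q p' (σ+1)) ↔ Φ (c σ) (c (σ+1))) := by
        filter_upwards [hlt, hev, hc (σ+1)] with p' hp' hp2' hc2
        filter_upwards [hlt, hev, hc σ, ev_prod_gt p'.2] with p hp hp2 hc1 hgt
        by_contra h4
        have h5 : EK R κ Φ (q p σ) (q p' (σ+1)) := by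
          unfold EK
          rw [hc1, hc2]
          exact h4
        have h6 := hq p hp
        have h6' := hq p' hp'
        rw [hp2] at h6
        rw [hp2'] at h6'
        have h7 : RC C (EK R κ Φ) (x p.1) (q p σ) := by
          rw [← h6.1]
          exact rc_of_path h6.2.2 0 σ (Nat.zero_le _) hσ.le
        have h8 : RC C (EK R κ Φ) (q p' (σ+1)) (x p'.2) := by
          rw [← h6'.2.1]
          exact rc_of_path h6'.2.2 (σ+1) n hσ le_rfl
        refine hnot p'.2 p.1 hgt ?_
        exact Relation.ReflTransGen.trans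
          (h7.tail ⟨(h6.2.2 σ hσ).1, (h6'.2.2 σ hσ).2.1, h5⟩) h8
      by_cases hΦ : Φ (c σ) (c (σ+1))
      · refine ⟨fun _ => hΦ, fun _ => ?_⟩
        exact h3.mono fun p' hp' => hp'.mono fun p hp => hp.2 hΦ
      · refine ⟨fun h => ?_, fun h => absurd h hΦ⟩
        obtain ⟨p', hp1, hp2⟩ := (h3.and h).exists
        obtain ⟨p, hp3, hp4⟩ := (hp1.and hp2).exists
        exact hp3.1 hp4
    have h9 := hcon.2
    rw [hRs, hD2] at h9
    tauto

theorem depthD {W : Type} {R : W → W → Prop} {m : ℕ} (hG : Good R m) (k : ℕ) :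
    ∃ d : ℕ, ∀ (κ : W → Fin k) (Φ : Fin k → Fin k → Prop) (C : Set W),
      ¬ ∃ x : ℕ → W, (∀ i ≤ d, x i ∈ C) ∧ ∀ i < d,
        RC C (EK R κ Φ) (x i) (x (i+1)) ∧ ¬ RC C (EK R κ Φ) (x (i+1)) (x i) := by
  classical
  by_contra hcon
  push Not at hcon
  choose κ Φ C x hx hs using hcon
  obtain ⟨bd, hbd⟩ := plgC hG k
  have hcol : ∀ f : ℕ → W, ∃ c : Fin k,
      ∀ᶠ N in (hyperfilter ℕ : Filter ℕ), κ N (f N) = c := by
    intro f
    obtain ⟨c, -, hc⟩ := ev_pigeon (hyperfilter ℕ)
      (Set.finite_univ (α := Fin k)) (fun N => κ N (f N))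
      (Filter.Eventually.of_forall fun p => Set.mem_univ _)
    exact ⟨c, hc⟩
  choose κs hκs using hcol
  -- transfer of the edges
  have htr : ∀ f g : ℕ → W, EK (Rs (hyperfilter ℕ) R) κs
      (fun a b => ∀ᶠ N in (hyperfilter ℕ : Filter ℕ), Φ N a b) f g ↔
      ∀ᶠ N in (hyperfilter ℕ : Filter ℕ), EK R (κ N) (Φ N) (f N) (g N) := by
    intro f g
    have h3 : ∀ᶠ N in (hyperfilter ℕ : Filter ℕ), (EK R (κ N) (Φ N) (f N) (g N) ↔
        EK (Rs (hyperfilter ℕ) R) κs
          (fun a b => ∀ᶠ N in (hyperfilter ℕ : Filter ℕ), Φ N a b) f g) := by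
      filter_upwards [ev_dec (hyperfilter ℕ) (fun N => R (f N) (g N)), hκs f, hκs g,
        ev_dec (hyperfilter ℕ) (fun N => Φ N (κs f) (κs g))] with N h4 h5 h6 h7
      unfold EK Rs
      rw [h5, h6, h4, h7]
    constructor
    · intro h
      exact h3.mono fun N hN => hN.2 h
    · intro h
      obtain ⟨N, hN1, hN2⟩ := (h3.and h).exists
      exact hN1.1 hN2
  have hgt : ∀ i : ℕ, ∀ᶠ N in (hyperfilter ℕ : Filter ℕ), i < N := fun i =>
    (eventually_gt_atTop i).filter_mono Nat.hyperfilter_le_atTop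
  refine noInfDepth (good_Rs (hyperfilter ℕ) hG) κs
    (fun a b => ∀ᶠ N in (hyperfilter ℕ : Filter ℕ), Φ N a b)
    {f | ∀ᶠ N in (hyperfilter ℕ : Filter ℕ), f N ∈ C N} (fun i N => x N i) ?_ ?_
  · intro i
    have H : ∀ N : ℕ, ∃ n ≤ bd, ∃ q : ℕ → W, i < N → q 0 = x N i ∧ q n = x N (i+1) ∧
        ∀ σ < n, q σ ∈ C N ∧ q (σ+1) ∈ C N ∧ EK R (κ N) (Φ N) (q σ) (q (σ+1)) := by
      intro N
      by_cases hN : i < N
      · obtain ⟨n, hn, q, hq⟩ := hbd (κ N) (Φ N) (C N) _ _ (hs N i hN).1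
        exact ⟨n, hn, q, fun _ => hq⟩
      · exact ⟨0, Nat.zero_le _, fun _ => x 0 0, fun h => absurd h hN⟩
    choose nn hnn q hq using H
    obtain ⟨n, -, hev⟩ := ev_pigeon (hyperfilter ℕ) (Set.finite_Iic bd) nn
      (Filter.Eventually.of_forall fun p => hnn p)
    have hn1 : n ≠ 0 := by
      intro h0
      obtain ⟨N, hp1, hp2⟩ := (hev.and (hgt i)).exists
      have h3 := hq N hp2
      rw [hp1, h0] at h3
      refine (hs N i hp2).2 ?_
      rw [← h3.1, ← h3.2.1]
      exact Relation.ReflTransGen.refl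
    let f : ℕ → ℕ → W := fun σ N => if σ = 0 then x N i else if σ = n then x N (i+1) else q N σ
    have hf : ∀ σ, ∀ᶠ N in (hyperfilter ℕ : Filter ℕ), f σ N = q N σ := by
      intro σ
      filter_upwards [hev, hgt i] with N hp1 hp2
      have h3 := hq N hp2
      rw [hp1] at h3
      by_cases h4 : σ = 0
      · simp only [f, h4, if_true]
        exact h3.1.symm
      · by_cases h5 : σ = n
        · simp only [f, h4, if_false, h5, if_true, hn1]
          exact h3.2.1.symm
        · simp only [f, h4, h5, if_false]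
    have h0 : f 0 = fun N => x N i := by
      funext N
      simp only [f, if_true]
    have hn : f n = fun N => x N (i+1) := by
      funext N
      simp only [f, hn1, if_false, if_true]
    show RC _ _ (fun N => x N i) (fun N => x N (i+1))
    rw [← h0, ← hn]
    refine rc_of_path (n := n) ?_ 0 n (Nat.zero_le _) le_rfl
    intro σ hσ
    refine ⟨?_, ?_, ?_⟩
    · show ∀ᶠ N in (hyperfilter ℕ : Filter ℕ), f σ N ∈ C N
      filter_upwards [hf σ, hev, hgt i] with N hN hp1 hp2
      have h3 := hq N hp2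
      rw [hp1] at h3
      rw [hN]
      exact (h3.2.2 σ hσ).1
    · show ∀ᶠ N in (hyperfilter ℕ : Filter ℕ), f (σ+1) N ∈ C N
      filter_upwards [hf (σ+1), hev, hgt i] with N hN hp1 hp2
      have h3 := hq N hp2
      rw [hp1] at h3
      rw [hN]
      exact (h3.2.2 σ hσ).2.1
    · rw [htr]
      filter_upwards [hf σ, hf (σ+1), hev, hgt i] with N hN hN' hp1 hp2
      have h3 := hq N hp2
      rw [hp1] at h3
      rw [hN, hN']
      exact (h3.2.2 σ hσ).2.2
  · intro i hrc
    have hdown : ∀ f g : ℕ → W, RC {f | ∀ᶠ N in (hyperfilter ℕ : Filter ℕ), f N ∈ C N}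
        (EK (Rs (hyperfilter ℕ) R) κs
          (fun a b => ∀ᶠ N in (hyperfilter ℕ : Filter ℕ), Φ N a b)) f g →
        ∀ᶠ N in (hyperfilter ℕ : Filter ℕ), RC (C N) (EK R (κ N) (Φ N)) (f N) (g N) := by
      intro f g h
      unfold RC at h
      induction h with
      | refl => exact Filter.Eventually.of_forall fun N => Relation.ReflTransGen.refl
      | tail _ hbc ih =>
        obtain ⟨h3, h4, h5⟩ := hbc
        rw [htr] at h5
        have h3' : ∀ᶠ N in (hyperfilter ℕ : Filter ℕ), _ := h3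
        have h4' : ∀ᶠ N in (hyperfilter ℕ : Filter ℕ), _ := h4
        filter_upwards [ih, h3', h4', h5] with N a1 a2 a3 a4
        exact a1.tail ⟨a2, a3, a4⟩
    obtain ⟨N, hN1, hN2⟩ := ((hdown _ _ hrc).and (hgt i)).exists
    exact (hs N i hN2).2 hN1

end KTab
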