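import Pool.Agent.KTab.Defs
import Pool.Agent.KBT.Dec

/-!
The structure Tw (all functions I → W at rational times) embeds locally in W.  PROOF of emb.  Let
F be finite, Q = the finite set of first components, T = the finite set of times of F.  By
induction on an initial segment T' of the finite set of times (Finset.induction_on_max) find
ι : ℚ → I such that
(1) for x in T', f, g in Q: (R (f (ι x)) (g (ι x)) ↔ Rs 𝒲 R f g);
(2) for x < y in T', f, g in Q: (R (f (ι x)) (g (ι y)) ↔ D1 𝒲 R f g) and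
(R (f (ι y)) (g (ι x)) ↔ D2 𝒲 R f g);
(3) for x in T', f, g in Q: ∀ᶠ j, (R (f (ι x)) (g j) ↔ D1 𝒲 R f g) and
∀ᶠ j, (R (f j) (g (ι x)) ↔ D2 𝒲 R f g).
The next index is chosen generic (KBT.ev_dec, eventually_all_finset).  Then
e (f, x) := f (ι x).  Tw unfolds by trichotomy of the times.
good_Tw: a pattern XP or FP in Tw uses finitely many points (finite images over Bool, a ≤ m etc.),
transport it by e.
good_Rs: f ↦ (f, 0) and good_comap.
-/

set_option autoImplicit false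

namespace KTab

open Filter KBT

private theorem emb_idx {I W : Type*} (𝒲 : Ultrafilter I) (R : W → W → Prop)
    (Q : Set (I → W)) (hQ : Q.Finite) (T : Finset ℚ) :
    ∃ ι : ℚ → I,
      (∀ x ∈ T, ∀ f ∈ Q, ∀ g ∈ Q, (R (f (ι x)) (g (ι x)) ↔ Rs 𝒲 R f g)) ∧
      (∀ x ∈ T, ∀ y ∈ T, x < y → ∀ f ∈ Q, ∀ g ∈ Q,
        (R (f (ι x)) (g (ι y)) ↔ D1 𝒲 R f g) ∧ (R (f (ι y)) (g (ι x)) ↔ D2 𝒲 R f g)) ∧
      (∀ x ∈ T, ∀ f ∈ Q, ∀ g ∈ Q,
        (∀ᶠ j in (𝒲 : Filter I), (R (f (ι x)) (g j) ↔ D1 𝒲 R f g)) ∧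
        (∀ᶠ j in (𝒲 : Filter I), (R (f j) (g (ι x)) ↔ D2 𝒲 R f g))) := by
  classical
  induction T using Finset.induction_on_max with
  | empty =>
    obtain ⟨i0⟩ : Nonempty I := 𝒲.neBot.nonempty
    exact ⟨fun _ => i0, by simp, by simp, by simp⟩
  | insert a s has ih =>
    obtain ⟨ι, h1, h2, h3⟩ := ih
    have e1 : ∀ᶠ i in (𝒲 : Filter I), ∀ f ∈ Q, ∀ g ∈ Q, (R (f i) (g i) ↔ Rs 𝒲 R f g) := by
      rw [Filter.eventually_all_finite hQ]
      intro f _
      rw [Filter.eventually_all_finite hQ]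
      intro g _
      exact ev_dec 𝒲 (fun i => R (f i) (g i))
    have e2 : ∀ᶠ i in (𝒲 : Filter I), ∀ f ∈ Q, ∀ g ∈ Q,
        ((∀ᶠ j in (𝒲 : Filter I), (R (f i) (g j) ↔ D1 𝒲 R f g)) ∧
        (∀ᶠ j in (𝒲 : Filter I), (R (f j) (g i) ↔ D2 𝒲 R f g))) := by
      rw [Filter.eventually_all_finite hQ]
      intro f _
      rw [Filter.eventually_all_finite hQ]
      intro g _
      exact (ev_dec2 𝒲 𝒲 (fun i j => R (f i) (g j))).and
        (ev_dec2 𝒲 𝒲 (fun i j => R (f j) (g i)))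
    have e3 : ∀ᶠ i in (𝒲 : Filter I), ∀ x ∈ s, ∀ f ∈ Q, ∀ g ∈ Q,
        ((R (f (ι x)) (g i) ↔ D1 𝒲 R f g) ∧ (R (f i) (g (ι x)) ↔ D2 𝒲 R f g)) := by
      rw [Filter.eventually_all_finset]
      intro x hx
      rw [Filter.eventually_all_finite hQ]
      intro f hf
      rw [Filter.eventually_all_finite hQ]
      intro g hg
      exact (h3 x hx f hf g hg).1.and (h3 x hx f hf g hg).2
    obtain ⟨i, hi1, hi2, hi3⟩ := (e1.and (e2.and e3)).exists
    have hup : ∀ x ∈ s, Function.update ι a i x = ι x := fun x hx =>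
      Function.update_of_ne (has x hx).ne _ _
    have hua : Function.update ι a i a = i := Function.update_self _ _ _
    refine ⟨Function.update ι a i, ?_, ?_, ?_⟩
    · intro x hx f hf g hg
      rcases Finset.mem_insert.mp hx with rfl | hx
      · rw [hua]; exact hi1 f hf g hg
      · rw [hup x hx]; exact h1 x hx f hf g hg
    · intro x hx y hy hxy f hf g hg
      rcases Finset.mem_insert.mp hx with hxa | hx'
      · rcases Finset.mem_insert.mp hy with hya | hy'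
        · rw [hxa, hya] at hxy; exact absurd hxy (lt_irrefl _)
        · rw [hxa] at hxy; exact absurd hxy (has y hy').not_gt
      · rcases Finset.mem_insert.mp hy with hya | hy'
        · rw [hya, hup x hx', hua]; exact hi3 x hx' f hf g hg
        · rw [hup x hx', hup y hy']; exact h2 x hx' y hy' hxy f hf g hg
    · intro x hx f hf g hg
      rcases Finset.mem_insert.mp hx with rfl | hx
      · rw [hua]; exact hi2 f hf g hg
      · rw [hup x hx]; exact h3 x hx f hf g hg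

theorem emb {I W : Type*} (𝒲 : Ultrafilter I) (R : W → W → Prop)
    (F : Set ((I → W) × ℚ)) (hF : F.Finite) :
    ∃ e : (I → W) × ℚ → W, ∀ p ∈ F, ∀ q ∈ F, (R (e p) (e q) ↔ Tw 𝒲 R p q) := by
  classical
  obtain ⟨ι, h1, h2, -⟩ := emb_idx 𝒲 R (Prod.fst '' F) (hF.image _)
    (hF.image Prod.snd).toFinset
  have hT : ∀ p ∈ F, p.2 ∈ (hF.image Prod.snd).toFinset := fun p hp => by
    rw [Set.Finite.mem_toFinset]; exact ⟨p, hp, rfl⟩
  have hQ : ∀ p ∈ F, p.1 ∈ Prod.fst '' F := fun p hp => ⟨p, hp, rfl⟩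
  refine ⟨fun p => p.1 (ι p.2), fun p hp q hq => ?_⟩
  unfold Tw
  rcases lt_trichotomy p.2 q.2 with h | h | h
  · have := (h2 _ (hT p hp) _ (hT q hq) h _ (hQ p hp) _ (hQ q hq)).1
    constructor
    · intro h3; exact Or.inr (Or.inl ⟨h, this.mp h3⟩)
    · rintro (⟨h3, _⟩ | ⟨_, h3⟩ | ⟨h3, _⟩)
      · exact absurd h3 h.ne
      · exact this.mpr h3
      · exact absurd h3 h.not_gt
  · have := h1 _ (hT p hp) _ (hQ p hp) _ (hQ q hq)
    constructor
    · intro h3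
      refine Or.inl ⟨h, this.mp ?_⟩
      simp only [h] at h3 ⊢
      exact h3
    · rintro (⟨_, h3⟩ | ⟨h3, _⟩ | ⟨h3, _⟩)
      · have h4 := this.mpr h3
        simp only [h] at h4 ⊢
        exact h4
      · exact absurd h h3.ne
      · exact absurd h h3.ne'
  · have := (h2 _ (hT q hq) _ (hT p hp) h _ (hQ p hp) _ (hQ q hq)).2
    constructor
    · intro h3; exact Or.inr (Or.inr ⟨h, this.mp h3⟩)
    · rintro (⟨h3, _⟩ | ⟨h3, _⟩ | ⟨_, h3⟩)
      · exact absurd h3 h.ne'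
      · exact absurd h3 h.not_gt
      · exact this.mpr h3

theorem xp_mono {W : Type*} {R : W → W → Prop} {m n : ℕ} (hmn : m ≤ n) (h : XP R n) : XP R m := by
  obtain ⟨x, h1, h2⟩ := h
  exact ⟨x, fun a ha e => h1 a (lt_of_lt_of_le ha hmn) e,
    fun a b hab hb e => h2 a b hab (hb.trans hmn) e⟩

private theorem emb_xp {V W : Type*} {R : W → W → Prop} {R' : V → V → Prop} {m : ℕ}
    (hloc : ∀ F : Set V, F.Finite → ∃ e : V → W, ∀ p ∈ F, ∀ q ∈ F, (R (e p) (e q) ↔ R' p q))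
    (h : XP R' m) : XP R m := by
  obtain ⟨x, h1, h2⟩ := h
  obtain ⟨e, he⟩ := hloc ((fun p : Bool × ℕ => x p.1 p.2) '' (Set.univ ×ˢ Set.Iic m))
    ((Set.finite_univ.prod (Set.finite_Iic m)).image _)
  have hm : ∀ (b : Bool) (a : ℕ), a ≤ m →
      x b a ∈ (fun p : Bool × ℕ => x p.1 p.2) '' (Set.univ ×ˢ Set.Iic m) :=
    fun b a ha => ⟨(b, a), ⟨Set.mem_univ _, ha⟩, rfl⟩
  refine ⟨fun b a => e (x b a), fun a ha b => ?_, fun a b hab hb c => ?_⟩
  · rw [he _ (hm b (a+1) ha) _ (hm false a ha.le), he _ (hm b (a+1) ha) _ (hm true a ha.le)]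
    exact h1 a ha b
  · have ha : a ≤ m := by omega
    rw [he _ (hm c b hb) _ (hm false a ha), he _ (hm c b hb) _ (hm true a ha)]
    exact h2 a b hab hb c

private theorem emb_fp {V W : Type*} {R : W → W → Prop} {R' : V → V → Prop} {t : ℕ}
    (hloc : ∀ F : Set V, F.Finite → ∃ e : V → W, ∀ p ∈ F, ∀ q ∈ F, (R (e p) (e q) ↔ R' p q))
    (h : FP R' t) : FP R t := by
  obtain ⟨s, x, hs, h1, h2, h3, h4⟩ := h
  obtain ⟨e, he⟩ := hloc ((fun p : Bool × ℕ × ℕ => x p.1 p.2.1 p.2.2) ''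
      (Set.univ ×ˢ (Set.Iio t ×ˢ Set.Iic s)))
    ((Set.finite_univ.prod ((Set.finite_Iio t).prod (Set.finite_Iic s))).image _)
  have hm : ∀ (b : Bool) (r a : ℕ), r < t → a ≤ s →
      x b r a ∈ (fun p : Bool × ℕ × ℕ => x p.1 p.2.1 p.2.2) ''
        (Set.univ ×ˢ (Set.Iio t ×ˢ Set.Iic s)) :=
    fun b r a hr ha => ⟨(b, r, a), ⟨Set.mem_univ _, hr, ha⟩, rfl⟩
  have key : ∀ (b b' : Bool) (r r' a a' : ℕ), r < t → r' < t → a ≤ s → a' ≤ s →
      (R (e (x b r a)) (e (x b' r' a')) ↔ R' (x b r a) (x b' r' a')) :=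
    fun b b' r r' a a' hr hr' ha ha' => he _ (hm b r a hr ha) _ (hm b' r' a' hr' ha')
  refine ⟨s, fun b r a => e (x b r a), hs, fun r hr a ha b => ?_, fun r hr a b hab hb c => ?_,
    fun r r' hrr hr' a ha b hb c => ?_, fun r r' hrr hr' c c' => ?_⟩
  · rw [key b false r r (a+1) a hr hr ha ha.le, key b true r r (a+1) a hr hr ha ha.le]
    exact h1 r hr a ha b
  · have ha : a ≤ s := by omega
    rw [key c false r r b a hr hr hb ha, key c true r r b a hr hr hb ha]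
    exact h2 r hr a b hab hb c
  · have hr : r < t := hrr.trans hr'
    rw [key c false r' r b a hr' hr hb ha.le, key c true r' r b a hr' hr hb ha.le]
    exact h3 r r' hrr hr' a ha b hb c
  · have hr : r < t := hrr.trans hr'
    rw [key c c' r' r 0 s hr' hr (Nat.zero_le _) le_rfl,
      key c c' r r' 0 s hr hr' (Nat.zero_le _) le_rfl]
    exact h4 r r' hrr hr' c c'

theorem good_comap {V W : Type*} {R : W → W → Prop} {m : ℕ} (h : Good R m) (φ : V → W) :
    Good (fun a b => R (φ a) (φ b)) m :=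
  ⟨fun h1 => h.1 (emb_xp (fun _ _ => ⟨φ, fun _ _ _ _ => Iff.rfl⟩) h1),
    fun h1 => h.2 (emb_fp (fun _ _ => ⟨φ, fun _ _ _ _ => Iff.rfl⟩) h1)⟩

theorem good_Tw {I W : Type*} (𝒲 : Ultrafilter I) {R : W → W → Prop} {m : ℕ} (h : Good R m) :
    Good (Tw 𝒲 R) m :=
  ⟨fun h1 => h.1 (emb_xp (fun F hF => emb 𝒲 R F hF) h1),
    fun h1 => h.2 (emb_fp (fun F hF => emb 𝒲 R F hF) h1)⟩

theorem good_Rs {I W : Type*} (𝒲 : Ultrafilter I) {R : W → W → Prop} {m : ℕ} (h : Good R m) :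
    Good (Rs 𝒲 R) m := by
  have h1 := good_comap (good_Tw 𝒲 h) (fun f : I → W => (f, (0 : ℚ)))
  have h2 : (fun a b : I → W => Tw 𝒲 R (a, (0 : ℚ)) (b, (0 : ℚ))) = Rs 𝒲 R := by
    funext a b
    simp [Tw]
  rw [h2] at h1
  exact h1

end KTab
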