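import Pool.Agent.KTab.Lift2

/-!
Many rounds FP among the points of a modal algebra give many elements in an 8-generated
subalgebra.  (Compare Pool/Agent/KBT/PPkill.lean and KTab/XPkill.)  PROOF.  Let s ≥ 1 and
x e r a (e : Bool, r < t, a ≤ s) be the pattern.  List the points in lexicographic order
(r, a, e): index idx e r a = 2 * (r * (s+1) + a) + (if e then 1 else 0), n = 2 * t * (s+1), and put
X e r a := P (idx e r a) with P from lift2.  Then
LOW: if (r,a) < (r',b) lexicographically, F ∈ X e' r' b: dia f (X e r a) ∈ F.s ↔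
Rel f (x e' r' b) (x e r a);
UP: for r < r', F ∈ X e r 0: dia f (X e' r' s) ∉ F.s (last clause of lift2 and of FP; note that
(r,0) < (r',s)).
Put D r a := symmetric difference of dia f (X false r a) and dia f (X true r a) for a < s.  By LOW
and the clauses of FP: X e r (a+1) ≤ D r a; X e r b ⊓ D r a = ⊥ for a+2 ≤ b ≤ s;
X e r' b ⊓ D r a = ⊥ for r < r'.
GENERATORS (8): top e j (e : Bool, j parity) = sup over r < t, r % 2 = j, of X e r 0;
mid e = sup over r < t, 0 < a < s, of X e r a; bot j = sup over r < t, r % 2 = j, of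
B r := X false r s ⊔ X true r s.
INDUCTION on (r,a): for all earlier pairs, the elements X e r a with a < s and the elements B r
are generated.  Step (r,0): let j = r % 2.  The remaining top element T = sup over r ≤ r' < t,
r' % 2 = j of X e r' 0 is generated: it is top e j minus the X e r'' 0 with r'' < r, r'' % 2 = j:
these are disjoint from X e r' 0, r' ≥ r, because X e r'' 0 is disjoint from dia f (B (r''+1))
by UP, while X e r' 0 ≤ dia f (X false (r''+1) s) by LOW and the last clause of FP (r' ≥ r''+2).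
Likewise S = sup over r < r' < t, r' % 2 = 1 - j of B r' is generated: bot (1-j) minus the B r''
with r'' < r, these are disjoint from B r' (r' > r''): points of B r'' are in D r'' (s-1), points
of B r' are not (here s ≥ 1 is used).  Then X e r 0 = T ⊓ (dia f S)ᶜ: points of X e r 0 do not see
S by UP; points of X e r' 0 with r' ≥ r + 2, r' % 2 = j see B (r+1) (last clause, LOW), which is
part of S.  Step (r,a+1) with a+1 < s: X e r (a+1) = (remaining part of mid e) ⊓ D r a, where the
remaining part is mid e minus the earlier X e r'' b with 0 < b < s ((r'',b) < (r,a+1)), which are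
disjoint from the later ones (points of X e r'' b are in D r'' (b-1), points of later ones are
not).  Step (r,s): B r = (remaining part of bot (r % 2)) ⊓ D r (s-1).
It is convenient to prove first: Gen is closed under ⊔, ⊓, complement, dia, finite sup
(KBT.Gen.sup', KBT.Gen.dia'), and to work with points (KBT.ext_pts, KBT.finset_sup_mem).
RESULT: U r := X false r 1 ⊔ X true r 1 for r < t (if s = 1 it is B r, else both parts are
generated).  They are different: points of U r are in D r 0, the points of U r' with r' > r are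
not, and x false r' 1 is a point of U r'.
-/

set_option autoImplicit false

namespace KTab

open KBT

variable {A : Type} [BooleanAlgebra A]

private theorem FPkill_sup {ι : Type} {κ : Type} {f : A → A} {g : ι → A} (s : Finset κ) (u : κ → A)
    (h : ∀ i ∈ s, Gen f g (u i)) : Gen f g (s.sup u) := by
  classical
  induction s using Finset.induction_on with
  | empty =>
    rw [Finset.sup_empty]
    exact Gen.bot
  | insert i s _ ih =>
    rw [Finset.sup_insert]
    exact Gen.sup' (h i (Finset.mem_insert_self i s))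
      (ih fun j hj => h j (Finset.mem_insert_of_mem hj))

theorem fpkill {f : A → A} (htop : f ⊤ = ⊤) (hinf : ∀ a b : A, f (a ⊓ b) = f a ⊓ f b) {t : ℕ}
    (h : FP (Rel f) t) :
    ∃ (g : Fin 8 → A) (U : ℕ → A), (∀ i < t, Gen f g (U i)) ∧
      ∀ i j, i < j → j < t → U i ≠ U j := by
  classical
  obtain ⟨s, x, hs, f1, f2, f3, f4⟩ := h
  let p : ℕ → Pt A := fun n => x (decide (n % 2 = 1)) (n / 2 / (s+1)) (n / 2 % (s+1))
  obtain ⟨P, hP1, hP2, hP3⟩ := lift2 htop hinf p (2 * (t * (s+1)))
  let k : Bool → ℕ → ℕ → ℕ := fun e r a => 2 * (r * (s+1) + a) + (if e then 1 else 0)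
  have hk : ∀ e r a, a ≤ s → p (k e r a) = x e r a := by
    intro e r a ha
    have e3 : (r * (s+1) + a) / (s+1) = r := by
      rw [Nat.add_comm, Nat.add_mul_div_right _ _ (Nat.succ_pos s), Nat.div_eq_of_lt (by omega),
        Nat.zero_add]
    have e4 : (r * (s+1) + a) % (s+1) = a := by
      rw [Nat.add_comm, Nat.add_mul_mod_self_right, Nat.mod_eq_of_lt (by omega)]
    cases e
    · have e1 : 2 * (r * (s+1) + a) % 2 = 0 := by omega
      have e2 : 2 * (r * (s+1) + a) / 2 = r * (s+1) + a := by omega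
      simp [p, k, e2, e3, e4]
    · have e1 : (2 * (r * (s+1) + a) + 1) % 2 = 1 := by omega
      have e2 : (2 * (r * (s+1) + a) + 1) / 2 = r * (s+1) + a := by omega
      simp only [p, k, if_true, e1, e2, e3, e4, decide_true]
  have hpos : ∀ r r' a b, a ≤ s → r < r' → r * (s+1) + a < r' * (s+1) + b := by
    intro r r' a b ha hr
    have : (r+1) * (s+1) ≤ r' * (s+1) := Nat.mul_le_mul_right _ hr
    have e : (r+1) * (s+1) = r * (s+1) + (s+1) := by ring
    omega
  have hklt : ∀ e e' r r' a b, r * (s+1) + a < r' * (s+1) + b → k e r a < k e' r' b := by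
    intro e e' r r' a b hab
    cases e <;> cases e' <;> simp only [k] <;> simp <;> omega
  have hkn : ∀ e r a, r < t → a ≤ s → k e r a < 2 * (t * (s+1)) := by
    intro e r a hr ha
    have := hpos r t a 0 ha hr
    cases e <;> simp only [k] <;> simp <;> omega
  let X : Bool → ℕ → ℕ → A := fun e r a => P (k e r a)
  have hXm : ∀ e r a, r < t → a ≤ s → X e r a ∈ (x e r a).s := by
    intro e r a hr ha
    have h3 := hP1 _ (hkn e r a hr ha)
    rw [hk e r a ha] at h3
    exact h3
  have hU : ∀ e e' r r' a b, r * (s+1) + a < r' * (s+1) + b → a ≤ s → b ≤ s → r' < t →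
      ∀ F : Pt A, X e' r' b ∈ F.s →
      (dia f (X e r a) ∈ F.s ↔ Rel f (x e' r' b) (x e r a)) := by
    intro e e' r r' a b hab ha hb hr' F hF
    obtain ⟨h3, h4⟩ := hP2 (k e r a) (k e' r' b) (hklt e e' r r' a b hab) (hkn e' r' b hr' hb)
    rw [hk e' r' b hb, hk e r a ha] at h3 h4
    by_cases h : Rel f (x e' r' b) (x e r a)
    · exact ⟨fun _ => h, fun _ => F.mono (h3 h) hF⟩
    · refine ⟨fun h5 => ?_, fun h5 => absurd h5 h⟩
      exact absurd ((F.inf _ _).mpr ⟨hF, h5⟩) ((eq_bot_iff_pts _).mp (h4 h) F)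
  -- up
  have hup : ∀ e e' r r', r < r' → r' < t → ∀ F : Pt A, X e r 0 ∈ F.s →
      dia f (X e' r' s) ∉ F.s := by
    intro e e' r r' hr hr' F hF h5
    have h3 := hP3 (k e r 0) (k e' r' s) (hklt e e' r r' 0 s (hpos r r' 0 s (Nat.zero_le _) hr))
      (hkn e' r' s hr' le_rfl)
    rw [hk e r 0 (Nat.zero_le _), hk e' r' s le_rfl] at h3
    have h4 := h3 (f4 r r' hr hr' e e').2
    exact (eq_bot_iff_pts _).mp h4 F ((F.inf _ _).mpr ⟨hF, h5⟩)
  -- low, last clause
  have hlow : ∀ e e' r r', r < r' → r' < t → ∀ F : Pt A, X e r' 0 ∈ F.s →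
      dia f (X e' r s) ∈ F.s := by
    intro e e' r r' hr hr' F hF
    exact (hU e' e r r' s 0 (hpos r r' s 0 le_rfl hr) le_rfl (Nat.zero_le _) hr' F hF).mpr
      (f4 r r' hr hr' e e').1
  let D : ℕ → ℕ → A := fun r a =>
    (dia f (X false r a) ⊓ (dia f (X true r a))ᶜ) ⊔ ((dia f (X false r a))ᶜ ⊓ dia f (X true r a))
  have hD : ∀ r a (F : Pt A), D r a ∈ F.s ↔
      ¬ (dia f (X false r a) ∈ F.s ↔ dia f (X true r a) ∈ F.s) := by
    intro r a F
    simp only [D, F.sup, F.inf, F.compl]
    tauto
  have c1 : ∀ r < t, ∀ a < s, ∀ e (F : Pt A), X e r (a+1) ∈ F.s → D r a ∈ F.s := by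
    intro r hr a ha e F hF
    have e1 := f1 r hr a ha e
    have e4 := hU false e r r a (a+1) (by omega) (by omega) (by omega) hr F hF
    have e5 := hU true e r r a (a+1) (by omega) (by omega) (by omega) hr F hF
    rw [hD, e4, e5]
    exact e1
  have c2 : ∀ r < t, ∀ a b, a + 2 ≤ b → b ≤ s → ∀ e (F : Pt A), X e r b ∈ F.s →
      D r a ∉ F.s := by
    intro r hr a b hab hb e F hF
    have e1 := f2 r hr a b hab hb e
    have e4 := hU false e r r a b (by omega) (by omega) hb hr F hF
    have e5 := hU true e r r a b (by omega) (by omega) hb hr F hF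
    rw [hD, e4, e5]
    exact fun h => h e1
  have c3 : ∀ r r', r < r' → r' < t → ∀ a < s, ∀ b ≤ s, ∀ e (F : Pt A), X e r' b ∈ F.s →
      D r a ∉ F.s := by
    intro r r' hr hr' a ha b hb e F hF
    have e1 := f3 r r' hr hr' a ha b hb e
    have e4 := hU false e r r' a b (hpos r r' a b (by omega) hr) (by omega) hb hr' F hF
    have e5 := hU true e r r' a b (hpos r r' a b (by omega) hr) (by omega) hb hr' F hF
    rw [hD, e4, e5]
    exact fun h => h e1
  obtain ⟨s', rfl⟩ : ∃ s', s = s' + 1 := ⟨s - 1, by omega⟩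
  let B : ℕ → A := fun r => X false r (s'+1) ⊔ X true r (s'+1)
  have hB : ∀ r (F : Pt A), B r ∈ F.s ↔ X false r (s'+1) ∈ F.s ∨ X true r (s'+1) ∈ F.s := by
    intro r F
    simp only [B, F.sup]
  have cB1 : ∀ r < t, ∀ F : Pt A, B r ∈ F.s → D r s' ∈ F.s := by
    intro r hr F hF
    rcases (hB r F).mp hF with h | h
    · exact c1 r hr s' (by omega) false F h
    · exact c1 r hr s' (by omega) true F h
  have cB3 : ∀ r r', r < r' → r' < t → ∀ a < s'+1, ∀ F : Pt A, B r' ∈ F.s → D r a ∉ F.s := by
    intro r r' hr hr' a ha F hF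
    rcases (hB r' F).mp hF with h | h
    · exact c3 r r' hr hr' a ha (s'+1) le_rfl false F h
    · exact c3 r r' hr hr' a ha (s'+1) le_rfl true F h
  let top : Bool → ℕ → A := fun e j =>
    ((Finset.range t).filter (fun r => r % 2 = j)).sup (fun r => X e r 0)
  let mid : Bool → A := fun e =>
    (Finset.range t ×ˢ Finset.Ioo 0 (s'+1)).sup (fun q => X e q.1 q.2)
  let bot : ℕ → A := fun j => ((Finset.range t).filter (fun r => r % 2 = j)).sup B
  have htopm : ∀ e j (F : Pt A), top e j ∈ F.s ↔ ∃ r, (r < t ∧ r % 2 = j) ∧ X e r 0 ∈ F.s := by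
    intro e j F
    simp only [top, finset_sup_mem, Finset.mem_filter, Finset.mem_range]
  have hmid : ∀ e (F : Pt A), mid e ∈ F.s ↔ ∃ r b, (r < t ∧ 0 < b ∧ b < s'+1) ∧
      X e r b ∈ F.s := by
    intro e F
    simp only [mid, finset_sup_mem, Finset.mem_product, Finset.mem_range, Finset.mem_Ioo,
      Prod.exists]
  have hbot : ∀ j (F : Pt A), bot j ∈ F.s ↔ ∃ r, (r < t ∧ r % 2 = j) ∧ B r ∈ F.s := by
    intro j F
    simp only [bot, finset_sup_mem, Finset.mem_filter, Finset.mem_range]
  let g : Fin 8 → A := ![top false 0, top false 1, top true 0, top true 1, mid false, mid true,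
    bot 0, bot 1]
  have gtop : ∀ e, ∀ j < 2, Gen f g (top e j) := by
    intro e j hj
    have g0 : Gen f g (top false 0) := Gen.gen (f := f) (g := g) 0
    have g1 : Gen f g (top false 1) := Gen.gen (f := f) (g := g) 1
    have g2 : Gen f g (top true 0) := Gen.gen (f := f) (g := g) 2
    have g3 : Gen f g (top true 1) := Gen.gen (f := f) (g := g) 3
    have hj' : j = 0 ∨ j = 1 := by omega
    cases e <;> rcases hj' with rfl | rfl <;> assumption
  have gmid : ∀ e, Gen f g (mid e) := by
    intro e
    have g4 : Gen f g (mid false) := Gen.gen (f := f) (g := g) 4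
    have g5 : Gen f g (mid true) := Gen.gen (f := f) (g := g) 5
    cases e <;> assumption
  have gbot : ∀ j < 2, Gen f g (bot j) := by
    intro j hj
    have g6 : Gen f g (bot 0) := Gen.gen (f := f) (g := g) 6
    have g7 : Gen f g (bot 1) := Gen.gen (f := f) (g := g) 7
    have hj' : j = 0 ∨ j = 1 := by omega
    rcases hj' with rfl | rfl <;> assumption
  have gD : ∀ r a, (∀ e, Gen f g (X e r a)) → Gen f g (D r a) := by
    intro r a hx
    exact Gen.sup' (Gen.inf _ _ (Gen.dia' (hx false)) (Gen.compl _ (Gen.dia' (hx true))))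
      (Gen.inf _ _ (Gen.compl _ (Gen.dia' (hx false))) (Gen.dia' (hx true)))
  have main : ∀ r, r < t → (∀ a < s'+1, ∀ e, Gen f g (X e r a)) ∧ Gen f g (B r) := by
    intro r
    induction r using Nat.strong_induction_on with
    | _ r ih =>
    intro hr
    have ih' : ∀ r'' < r, (∀ a < s'+1, ∀ e, Gen f g (X e r'' a)) ∧ Gen f g (B r'') :=
      fun r'' h'' => ih r'' h'' (by omega)
    -- first element of the round
    have step0 : ∀ e, Gen f g (X e r 0) := by
      intro e
      let E : A := ((Finset.range r).filter (fun r'' => r'' % 2 = r % 2)).sup (fun r'' => X e r'' 0)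
      have hE : ∀ F : Pt A, E ∈ F.s ↔ ∃ r'', (r'' < r ∧ r'' % 2 = r % 2) ∧ X e r'' 0 ∈ F.s := by
        intro F
        simp only [E, finset_sup_mem, Finset.mem_filter, Finset.mem_range]
      let E' : A := ((Finset.range r).filter (fun r'' => r'' % 2 = (r + 1) % 2)).sup B
      have hE' : ∀ F : Pt A, E' ∈ F.s ↔
          ∃ r'', (r'' < r ∧ r'' % 2 = (r+1) % 2) ∧ B r'' ∈ F.s := by
        intro F
        simp only [E', finset_sup_mem, Finset.mem_filter, Finset.mem_range]
      have gE : Gen f g E := by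
        apply FPkill_sup
        intro r'' h''
        rw [Finset.mem_filter, Finset.mem_range] at h''
        exact (ih' r'' h''.1).1 0 (by omega) e
      have gE' : Gen f g E' := by
        apply FPkill_sup
        intro r'' h''
        rw [Finset.mem_filter, Finset.mem_range] at h''
        exact (ih' r'' h''.1).2
      let S : A := bot ((r+1) % 2) ⊓ E'ᶜ
      have hS1 : ∀ F : Pt A, S ∈ F.s → ∃ r', r < r' ∧ r' < t ∧ B r' ∈ F.s := by
        intro F hF
        simp only [S, F.inf, F.compl, hbot, hE'] at hF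
        obtain ⟨⟨r', ⟨h1, h2⟩, h3⟩, h4⟩ := hF
        refine ⟨r', ?_, h1, h3⟩
        by_contra hlt
        apply h4
        refine ⟨r', ⟨?_, h2⟩, h3⟩
        omega
      have hS2 : ∀ r', r < r' → r' < t → r' % 2 = (r+1) % 2 → ∀ F : Pt A, B r' ∈ F.s →
          S ∈ F.s := by
        intro r' h1 h2 h3 F hF
        simp only [S, F.inf, F.compl, hbot, hE']
        refine ⟨⟨r', ⟨h2, h3⟩, hF⟩, ?_⟩
        rintro ⟨r'', ⟨h4, h5⟩, h6⟩
        exact cB3 r'' r' (by omega) h2 s' (by omega) F hF (cB1 r'' (by omega) F h6)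
      have hT : X e r 0 = (top e (r % 2) ⊓ Eᶜ) ⊓ (dia f S)ᶜ := by
        apply ext_pts
        intro F
        rw [F.inf, F.inf, F.compl, F.compl, htopm, hE]
        constructor
        · intro hF
          refine ⟨⟨⟨r, ⟨hr, rfl⟩, hF⟩, ?_⟩, ?_⟩
          · rintro ⟨r'', ⟨h4, h5⟩, h6⟩
            have h7 : r'' + 1 < r := by omega
            exact hup e false r'' (r''+1) (by omega) (by omega) F h6
              (hlow e false (r''+1) r h7 hr F hF)
          · intro h4
            rw [dia_mem htop hinf] at h4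
            obtain ⟨G, h5, h6⟩ := h4
            obtain ⟨r', h7, h8, h9⟩ := hS1 G h6
            rcases (hB r' G).mp h9 with h10 | h10
            · exact hup e false r r' h7 h8 F hF ((dia_mem htop hinf _ _).mpr ⟨G, h5, h10⟩)
            · exact hup e true r r' h7 h8 F hF ((dia_mem htop hinf _ _).mpr ⟨G, h5, h10⟩)
        · rintro ⟨⟨⟨r', ⟨h1, h2⟩, h3⟩, h4⟩, h5⟩
          have h6 : r ≤ r' := by
            by_contra hlt
            exact h4 ⟨r', ⟨by omega, h2⟩, h3⟩
          rcases h6.lt_or_eq with h7 | h7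
          · exfalso
            apply h5
            have h8 : r + 1 < r' := by omega
            have h9 := hlow e false (r+1) r' h8 h1 F h3
            rw [dia_mem htop hinf] at h9 ⊢
            obtain ⟨G, h10, h11⟩ := h9
            exact ⟨G, h10, hS2 (r+1) (by omega) (by omega) rfl G ((hB _ _).mpr (Or.inl h11))⟩
          · rw [h7]
            exact h3
      rw [hT]
      exact Gen.inf _ _ (Gen.inf _ _ (gtop e _ (Nat.mod_lt _ (by omega))) (Gen.compl _ gE))
        (Gen.compl _ (Gen.dia' (Gen.inf _ _ (gbot _ (Nat.mod_lt _ (by omega)))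
          (Gen.compl _ gE'))))
    have stepA : ∀ a, a < s'+1 → ∀ e, Gen f g (X e r a) := by
      intro a
      induction a using Nat.strong_induction_on with
      | _ a iha =>
      intro ha e
      rcases Nat.eq_zero_or_pos a with h0 | h0
      · rw [h0]
        exact step0 e
      obtain ⟨a', rfl⟩ : ∃ a', a = a' + 1 := ⟨a - 1, by omega⟩
      let E : A := (Finset.range r ×ˢ Finset.Ioo 0 (s'+1)).sup (fun q => X e q.1 q.2)
      have hE : ∀ F : Pt A, E ∈ F.s ↔ ∃ r'' b, (r'' < r ∧ 0 < b ∧ b < s'+1) ∧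
          X e r'' b ∈ F.s := by
        intro F
        simp only [E, finset_sup_mem, Finset.mem_product, Finset.mem_range, Finset.mem_Ioo,
          Prod.exists]
      let E' : A := (Finset.Ioo 0 (a'+1)).sup (fun b => X e r b)
      have hE' : ∀ F : Pt A, E' ∈ F.s ↔ ∃ b, (0 < b ∧ b < a'+1) ∧ X e r b ∈ F.s := by
        intro F
        simp only [E', finset_sup_mem, Finset.mem_Ioo]
      have gE : Gen f g E := by
        apply FPkill_sup
        intro q hq
        rw [Finset.mem_product, Finset.mem_range, Finset.mem_Ioo] at hq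
        exact (ih' q.1 hq.1).1 q.2 hq.2.2 e
      have gE' : Gen f g E' := by
        apply FPkill_sup
        intro b hb
        rw [Finset.mem_Ioo] at hb
        exact iha b (by omega) (by omega) e
      have hX : X e r (a'+1) = ((mid e ⊓ Eᶜ) ⊓ E'ᶜ) ⊓ D r a' := by
        apply ext_pts
        intro F
        rw [F.inf, F.inf, F.inf, F.compl, F.compl, hmid, hE, hE']
        constructor
        · intro hF
          refine ⟨⟨⟨⟨r, a'+1, ⟨hr, by omega, ha⟩, hF⟩, ?_⟩, ?_⟩, c1 r hr a' (by omega) e F hF⟩
          · rintro ⟨r'', b, ⟨h1, h2, h3⟩, h4⟩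
            obtain ⟨b', rfl⟩ : ∃ b', b = b' + 1 := ⟨b - 1, by omega⟩
            exact c3 r'' r h1 hr b' (by omega) (a'+1) (by omega) e F hF
              (c1 r'' (by omega) b' (by omega) e F h4)
          · rintro ⟨b, ⟨h2, h3⟩, h4⟩
            obtain ⟨b', rfl⟩ : ∃ b', b = b' + 1 := ⟨b - 1, by omega⟩
            exact c2 r hr b' (a'+1) (by omega) (by omega) e F hF (c1 r hr b' (by omega) e F h4)
        · rintro ⟨⟨⟨⟨r', b, ⟨h1, h2, h3⟩, h4⟩, h5⟩, h6⟩, h7⟩
          have h8 : r ≤ r' := by
            by_contra hlt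
            exact h5 ⟨r', b, ⟨by omega, h2, h3⟩, h4⟩
          rcases h8.lt_or_eq with h9 | h9
          · exact absurd h7 (c3 r r' h9 h1 a' (by omega) b (by omega) e F h4)
          · subst h9
            have h10 : a' + 1 ≤ b := by
              by_contra hlt
              exact h6 ⟨b, ⟨h2, by omega⟩, h4⟩
            rcases h10.lt_or_eq with h11 | h11
            · exact absurd h7 (c2 r h1 a' b (by omega) (by omega) e F h4)
            · rw [h11]
              exact h4
      rw [hX]
      exact Gen.inf _ _ (Gen.inf _ _ (Gen.inf _ _ (gmid e) (Gen.compl _ gE)) (Gen.compl _ gE'))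
        (gD r a' fun e' => iha a' (by omega) (by omega) e')
    refine ⟨stepA, ?_⟩
    let E : A := ((Finset.range r).filter (fun r'' => r'' % 2 = r % 2)).sup B
    have hE : ∀ F : Pt A, E ∈ F.s ↔ ∃ r'', (r'' < r ∧ r'' % 2 = r % 2) ∧ B r'' ∈ F.s := by
      intro F
      simp only [E, finset_sup_mem, Finset.mem_filter, Finset.mem_range]
    have gE : Gen f g E := by
      apply FPkill_sup
      intro r'' h''
      rw [Finset.mem_filter, Finset.mem_range] at h''
      exact (ih' r'' h''.1).2
    have hBr : B r = (bot (r % 2) ⊓ Eᶜ) ⊓ D r s' := by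
      apply ext_pts
      intro F
      rw [F.inf, F.inf, F.compl, hbot, hE]
      constructor
      · intro hF
        refine ⟨⟨⟨r, ⟨hr, rfl⟩, hF⟩, ?_⟩, cB1 r hr F hF⟩
        rintro ⟨r'', ⟨h1, h2⟩, h3⟩
        exact cB3 r'' r h1 hr s' (by omega) F hF (cB1 r'' (by omega) F h3)
      · rintro ⟨⟨⟨r', ⟨h1, h2⟩, h3⟩, h4⟩, h5⟩
        have h6 : r ≤ r' := by
          by_contra hlt
          exact h4 ⟨r', ⟨by omega, h2⟩, h3⟩
        rcases h6.lt_or_eq with h7 | h7
        · exact absurd h5 (cB3 r r' h7 h1 s' (by omega) F h3)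
        · rw [h7]
          exact h3
    rw [hBr]
    exact Gen.inf _ _ (Gen.inf _ _ (gbot _ (Nat.mod_lt _ (by omega))) (Gen.compl _ gE))
      (gD r s' fun e => stepA s' (by omega) e)
  refine ⟨g, fun r => X false r 1 ⊔ X true r 1, ?_, ?_⟩
  · intro r hr
    obtain ⟨m1, m2⟩ := main r hr
    by_cases h1 : s' = 0
    · have : (X false r 1 ⊔ X true r 1) = B r := by
        simp only [B, h1]
      change Gen f g (X false r 1 ⊔ X true r 1)
      rw [this]
      exact m2
    · exact Gen.sup' (m1 1 (by omega) false) (m1 1 (by omega) true)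
  · intro i j hij hj heq
    have e1 : X false j 1 ∈ (x false j 1).s := hXm false j 1 hj (by omega)
    have e2 : (X false j 1 ⊔ X true j 1) ∈ (x false j 1).s := (Pt.sup _ _ _).mpr (Or.inl e1)
    dsimp only at heq
    rw [← heq, Pt.sup] at e2
    have e3 : D i 0 ∈ (x false j 1).s := by
      rcases e2 with h | h
      · exact c1 i (by omega) 0 (by omega) false _ h
      · exact c1 i (by omega) 0 (by omega) true _ h
    exact c3 i j hij hj 0 (by omega) 1 (by omega) false _ e1 e3

end KTab
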