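import Pool.Agent.KTab.Emb
import Pool.Agent.KBT.Chl

/-!
Patterns from paths of NN-steps.

xp_of_path.  Let L a := ¬ (D1 𝒲 R (q a) (q (a+1)) ↔ D2 𝒲 R (q a) (q (a+1))) (a half graph link) and
T a := 1 + number of b < a with L b (a rational number ≥ 1): T (a+1) = T a if ¬ L a,
T (a+1) = T a + 1 if L a.  In Tw take x e b := (q (n - b), if e then T (n-b) else - T (n-b)) for
b ≤ n.  Columns of level a: q (n-a) at the times ± T (n-a); row of level a+1: q (n-a-1) at a time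
± T (n-a-1).  If L (n-a-1): the row time is strictly between the column times, so the two values
are D2 (column at the negative time) and D1, which are different.  If ¬ L (n-a-1): D1 = D2 ≠ Rs
(because NN), the row time is equal to exactly one of the column times; the two values are Rs and
D1 = D2.  For b ≥ a+2: ¬ NN (q (n-b)) (q (n-a)), so all values of Tw are equal.  Hence
XP (Tw 𝒲 R) n; good_Tw and xp_mono give n < m.

fp_of_path.  Chordless NN-path q 0, ..., q s, s ≥ 1, and D1, D2 of (q s, q 0) different.  Take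
B := 2 * s + 5 (all T a ≤ s + 1) and the offset o r := - r * B if D1 𝒲 R (q s) (q 0), else
o r := r * B; x e r a := (q (s-a), o r + (if e then T (s-a) else - T (s-a))).  The clauses of FP for
Tw: first two clauses as before (all times of a round shifted by o r); rows of another round are
before both columns or after both columns, so third clause; last clause: if D1 (q s) (q 0) holds,
D2 fails and rounds go to the left, so the top rows of later rounds are before the bottom of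
earlier rounds; the other case is symmetric.  So FP (Tw 𝒲 R) t for every t.

rt_cases: from RT get either f =ᶠ g or a path of NN-steps.  Take the chordless path
(KBT.chordless) for the relation St; if it has length 0 then f = g; if length 1, the step is NN or
equality; if length ≥ 2 no step can be an equality step (NN is invariant under equality almost
everywhere, nn_congr, also D: a step St (p i) (p (i+1)) with p i =ᶠ p (i+1) gives a chord).  The
path is chordless for St, hence for NN (all elements have D).  The bound n < m is xp_of_path.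

fp_of_cycle: if f = g almost everywhere use fp_of_path with q 0 = f, q 1 = f, s = 1 (NN 𝒲 R f f
since D1, D2 of (g, f), hence of (f, f), are different); otherwise rt_cases and fp_of_path.
-/

set_option autoImplicit false

namespace KTab

open Filter KBT

variable {I W : Type*}

private theorem Rs_congr (𝒲 : Ultrafilter I) {R : W → W → Prop} {f f' g g' : I → W}
    (hf : f =ᶠ[(𝒲 : Filter I)] f') (hg : g =ᶠ[(𝒲 : Filter I)] g') :
    Rs 𝒲 R f g ↔ Rs 𝒲 R f' g' := by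
  unfold Rs
  refine eventually_congr ?_
  filter_upwards [hf, hg] with i h1 h2
  rw [h1, h2]

theorem D1_congr (𝒲 : Ultrafilter I) {R : W → W → Prop} {f f' g g' : I → W}
    (hf : f =ᶠ[(𝒲 : Filter I)] f') (hg : g =ᶠ[(𝒲 : Filter I)] g') :
    D1 𝒲 R f g ↔ D1 𝒲 R f' g' := by
  unfold D1
  refine eventually_congr ?_
  filter_upwards [hf] with i h1
  refine eventually_congr ?_
  filter_upwards [hg] with j h2
  rw [h1, h2]

theorem D2_congr (𝒲 : Ultrafilter I) {R : W → W → Prop} {f f' g g' : I → W}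
    (hf : f =ᶠ[(𝒲 : Filter I)] f') (hg : g =ᶠ[(𝒲 : Filter I)] g') :
    D2 𝒲 R f g ↔ D2 𝒲 R f' g' := by
  unfold D2
  refine eventually_congr ?_
  filter_upwards [hg] with j h2
  refine eventually_congr ?_
  filter_upwards [hf] with i h1
  rw [h1, h2]

theorem nn_congr (𝒲 : Ultrafilter I) {R : W → W → Prop} {f f' g g' : I → W}
    (hf : f =ᶠ[(𝒲 : Filter I)] f') (hg : g =ᶠ[(𝒲 : Filter I)] g') :
    NN 𝒲 R f g ↔ NN 𝒲 R f' g' := by
  unfold NN
  rw [Rs_congr 𝒲 hf hg, D1_congr 𝒲 hf hg, D2_congr 𝒲 hf hg]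

/-- The times. -/
private noncomputable def tm (𝒲 : Ultrafilter I) (R : W → W → Prop) (q : ℕ → I → W) : ℕ → ℕ
  | 0 => 1
  | c+1 => tm 𝒲 R q c +
    (open Classical in if (D1 𝒲 R (q c) (q (c+1)) ↔ D2 𝒲 R (q c) (q (c+1))) then 0 else 1)

private theorem tm_pos (𝒲 : Ultrafilter I) (R : W → W → Prop) (q : ℕ → I → W) (c : ℕ) :
    1 ≤ tm 𝒲 R q c := by
  induction c with
  | zero => exact le_refl _
  | succ c ih => rw [tm]; omega

private theorem tm_le (𝒲 : Ultrafilter I) (R : W → W → Prop) (q : ℕ → I → W) (c : ℕ) :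
    tm 𝒲 R q c ≤ c + 1 := by
  induction c with
  | zero => exact le_refl _
  | succ c ih => rw [tm]; split_ifs <;> omega

private theorem tm_eq (𝒲 : Ultrafilter I) (R : W → W → Prop) (q : ℕ → I → W) (c : ℕ)
    (h : (D1 𝒲 R (q c) (q (c+1)) ↔ D2 𝒲 R (q c) (q (c+1)))) :
    tm 𝒲 R q (c+1) = tm 𝒲 R q c := by
  rw [tm, if_pos h, add_zero]

private theorem tm_lt (𝒲 : Ultrafilter I) (R : W → W → Prop) (q : ℕ → I → W) (c : ℕ)
    (h : ¬ (D1 𝒲 R (q c) (q (c+1)) ↔ D2 𝒲 R (q c) (q (c+1)))) :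
    tm 𝒲 R q (c+1) = tm 𝒲 R q c + 1 := by
  rw [tm, if_neg h]

private theorem Tw_eq (𝒲 : Ultrafilter I) (R : W → W → Prop) (f g : I → W) {x y : ℚ}
    (h : x = y) : Tw 𝒲 R (f, x) (g, y) ↔ Rs 𝒲 R f g := by
  unfold Tw
  subst h
  simp

private theorem Tw_lt (𝒲 : Ultrafilter I) (R : W → W → Prop) (f g : I → W) {x y : ℚ}
    (h : x < y) : Tw 𝒲 R (f, x) (g, y) ↔ D1 𝒲 R f g := by
  unfold Tw
  simp [h, h.ne, h.not_gt]

private theorem Tw_gt (𝒲 : Ultrafilter I) (R : W → W → Prop) (f g : I → W) {x y : ℚ}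
    (h : y < x) : Tw 𝒲 R (f, x) (g, y) ↔ D2 𝒲 R f g := by
  unfold Tw
  simp [h, h.ne', h.not_gt]

private theorem Tw_nn (𝒲 : Ultrafilter I) (R : W → W → Prop) (f g : I → W) {x y : ℚ}
    (h : ¬ NN 𝒲 R f g) : Tw 𝒲 R (f, x) (g, y) ↔ Rs 𝒲 R f g := by
  unfold NN at h
  rw [not_not] at h
  rcases lt_trichotomy x y with h1 | h1 | h1
  · rw [Tw_lt 𝒲 R f g h1, h.1]
  · rw [Tw_eq 𝒲 R f g h1]
  · rw [Tw_gt 𝒲 R f g h1, h.2]

/-- The point of the sequence `q c` at the time `± tm c` with offset. -/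
private noncomputable def pt (𝒲 : Ultrafilter I) (R : W → W → Prop) (q : ℕ → I → W) (o : ℚ)
    (e : Bool) (c : ℕ) : (I → W) × ℚ :=
  (q c, o + (if e then (tm 𝒲 R q c : ℚ) else - (tm 𝒲 R q c : ℚ)))

private theorem link (𝒲 : Ultrafilter I) (R : W → W → Prop) (q : ℕ → I → W) (o : ℚ)
    (e : Bool) (c : ℕ) (h : NN 𝒲 R (q c) (q (c+1))) :
    ¬ (Tw 𝒲 R (pt 𝒲 R q o e c) (pt 𝒲 R q o false (c+1)) ↔
      Tw 𝒲 R (pt 𝒲 R q o e c) (pt 𝒲 R q o true (c+1))) := by
  have hpos : (1 : ℚ) ≤ (tm 𝒲 R q c : ℚ) := by exact_mod_cast tm_pos 𝒲 R q c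
  unfold pt
  by_cases hL : (D1 𝒲 R (q c) (q (c+1)) ↔ D2 𝒲 R (q c) (q (c+1)))
  · rw [tm_eq 𝒲 R q c hL]
    have hne : ¬ (Rs 𝒲 R (q c) (q (c+1)) ↔ D1 𝒲 R (q c) (q (c+1))) := by
      intro h1
      exact h ⟨h1, h1.trans hL⟩
    cases e with
    | true =>
      simp only [if_true, Bool.false_eq_true, if_false]
      rw [Tw_gt 𝒲 R (q c) (q (c+1)) (by linarith), Tw_eq 𝒲 R (q c) (q (c+1)) rfl]
      intro h1
      exact hne (h1.symm.trans hL.symm)
    | false =>
      simp only [if_true, Bool.false_eq_true, if_false]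
      rw [Tw_eq 𝒲 R (q c) (q (c+1)) rfl, Tw_lt 𝒲 R (q c) (q (c+1)) (by linarith)]
      exact hne
  · rw [tm_lt 𝒲 R q c hL]
    push_cast
    cases e with
    | true =>
      simp only [if_true]
      rw [Tw_gt 𝒲 R (q c) (q (c+1)) (by linarith), Tw_lt 𝒲 R (q c) (q (c+1)) (by linarith)]
      intro h3
      exact hL h3.symm
    | false =>
      simp only [if_true, Bool.false_eq_true, if_false]
      rw [Tw_gt 𝒲 R (q c) (q (c+1)) (by linarith), Tw_lt 𝒲 R (q c) (q (c+1)) (by linarith)]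
      intro h3
      exact hL h3.symm

private theorem nolink (𝒲 : Ultrafilter I) (R : W → W → Prop) (q : ℕ → I → W) (o : ℚ)
    (e : Bool) (c d : ℕ) (h : ¬ NN 𝒲 R (q c) (q d)) :
    (Tw 𝒲 R (pt 𝒲 R q o e c) (pt 𝒲 R q o false d) ↔
      Tw 𝒲 R (pt 𝒲 R q o e c) (pt 𝒲 R q o true d)) := by
  unfold pt
  rw [Tw_nn 𝒲 R _ _ h, Tw_nn 𝒲 R _ _ h]

theorem xp_of_path (𝒲 : Ultrafilter I) {R : W → W → Prop} {m : ℕ} (hG : Good R m) (n : ℕ)
    (q : ℕ → I → W) (hq : ∀ a < n, NN 𝒲 R (q a) (q (a+1)))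
    (hc : ∀ a b, a + 2 ≤ b → b ≤ n → ¬ NN 𝒲 R (q a) (q b)) : n < m := by
  by_contra hnm
  rw [not_lt] at hnm
  refine (good_Tw 𝒲 hG).1 (xp_mono hnm ⟨fun e b => pt 𝒲 R q 0 e (n - b), ?_, ?_⟩)
  · intro a ha e
    have h1 : n - a = (n - (a+1)) + 1 := by omega
    simp only [h1]
    exact link 𝒲 R q 0 e (n - (a+1)) (hq _ (by omega))
  · intro a b hab hb e
    exact nolink 𝒲 R q 0 e (n - b) (n - a) (hc _ _ (by omega) (by omega))

private theorem pt_bound (𝒲 : Ultrafilter I) (R : W → W → Prop) (q : ℕ → I → W) (o : ℚ)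
    (e : Bool) {c s : ℕ} (h : c ≤ s) :
    o - (s + 1) ≤ (pt 𝒲 R q o e c).2 ∧ (pt 𝒲 R q o e c).2 ≤ o + (s + 1) := by
  have h1 : (tm 𝒲 R q c : ℚ) ≤ (s : ℚ) + 1 := by
    have := tm_le 𝒲 R q c
    have h2 : tm 𝒲 R q c ≤ s + 1 := by omega
    exact_mod_cast h2
  have h0 : (0 : ℚ) ≤ (tm 𝒲 R q c : ℚ) := Nat.cast_nonneg _
  unfold pt
  cases e with
  | true => simp only [if_true]; constructor <;> linarith
  | false => simp only [Bool.false_eq_true, if_false]; constructor <;> linarith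

theorem fp_of_path (𝒲 : Ultrafilter I) {R : W → W → Prop} {m : ℕ} (hG : Good R m) (s : ℕ)
    (hs : 1 ≤ s) (q : ℕ → I → W) (hq : ∀ a < s, NN 𝒲 R (q a) (q (a+1)))
    (hc : ∀ a b, a + 2 ≤ b → b ≤ s → ¬ NN 𝒲 R (q a) (q b)) :
    (D1 𝒲 R (q s) (q 0) ↔ D2 𝒲 R (q s) (q 0)) := by
  classical
  by_contra hne
  have hlt : ∀ {r r' : ℕ}, r < r' → (2 * (s : ℚ) + 5) ≤ (r' - r : ℚ) * (2 * (s : ℚ) + 5) := by
    intro r r' h
    have h1 : (1 : ℚ) ≤ (r' - r : ℚ) := by
      have : (r : ℚ) + 1 ≤ r' := by exact_mod_cast h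
      linarith
    have h2 : (0 : ℚ) ≤ 2 * (s : ℚ) + 5 := by positivity
    nlinarith
  -- the general construction
  have key : ∀ o : ℕ → ℚ, (∀ r r', r < r' → (∀ e e' c d, c ≤ s → d ≤ s →
        (Tw 𝒲 R (pt 𝒲 R q (o r') e c) (pt 𝒲 R q (o r) e' d) ↔
          (if D1 𝒲 R (q s) (q 0) then D1 𝒲 R (q c) (q d) else D2 𝒲 R (q c) (q d))) ∧
        (Tw 𝒲 R (pt 𝒲 R q (o r) e c) (pt 𝒲 R q (o r') e' d) ↔
          (if D1 𝒲 R (q s) (q 0) then D2 𝒲 R (q c) (q d) else D1 𝒲 R (q c) (q d))))) →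
      False := by
    intro o ho
    refine (good_Tw 𝒲 hG).2 ⟨s, fun e r a => pt 𝒲 R q (o r) e (s - a), hs, ?_, ?_, ?_, ?_⟩
    · intro r _ a ha e
      have h1 : s - a = (s - (a+1)) + 1 := by omega
      simp only [h1]
      exact link 𝒲 R q (o r) e (s - (a+1)) (hq _ (by omega))
    · intro r _ a b hab hb e
      exact nolink 𝒲 R q (o r) e (s - b) (s - a) (hc _ _ (by omega) (by omega))
    · intro r r' hr _ a ha b hb e
      rw [(ho r r' hr e false (s - b) (s - a) (by omega) (by omega)).1,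
        (ho r r' hr e true (s - b) (s - a) (by omega) (by omega)).1]
    · intro r r' hr _ e e'
      have h1 := (ho r r' hr e e' (s - 0) (s - s) (by omega) (by omega)).1
      have h2 := (ho r r' hr e e' (s - 0) (s - s) (by omega) (by omega)).2
      simp only at h1 h2 ⊢
      rw [h1, h2]
      rw [Nat.sub_zero, Nat.sub_self]
      by_cases hD : D1 𝒲 R (q s) (q 0)
      · rw [if_pos hD, if_pos hD]
        refine ⟨hD, fun h3 => hne ?_⟩
        exact ⟨fun _ => h3, fun _ => hD⟩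
      · rw [if_neg hD, if_neg hD]
        refine ⟨?_, hD⟩
        by_contra h3
        exact hne ⟨fun h4 => absurd h4 hD, fun h4 => absurd h4 h3⟩
  by_cases hD : D1 𝒲 R (q s) (q 0)
  · refine key (fun r => - ((r : ℚ) * (2 * (s : ℚ) + 5))) ?_
    intro r r' hr e e' c d hcs hds
    have h0 := hlt hr
    rw [if_pos hD, if_pos hD]
    constructor
    · have h1 := pt_bound 𝒲 R q (- ((r' : ℚ) * (2 * (s : ℚ) + 5))) e hcs
      have h2 := pt_bound 𝒲 R q (- ((r : ℚ) * (2 * (s : ℚ) + 5))) e' hds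
      refine Tw_lt 𝒲 R _ _ ?_
      change (pt 𝒲 R q (- ((r' : ℚ) * (2 * (s : ℚ) + 5))) e c).2 <
        (pt 𝒲 R q (- ((r : ℚ) * (2 * (s : ℚ) + 5))) e' d).2
      linarith [h1.2, h2.1]
    · have h1 := pt_bound 𝒲 R q (- ((r : ℚ) * (2 * (s : ℚ) + 5))) e hcs
      have h2 := pt_bound 𝒲 R q (- ((r' : ℚ) * (2 * (s : ℚ) + 5))) e' hds
      refine Tw_gt 𝒲 R _ _ ?_
      change (pt 𝒲 R q (- ((r' : ℚ) * (2 * (s : ℚ) + 5))) e' d).2 <
        (pt 𝒲 R q (- ((r : ℚ) * (2 * (s : ℚ) + 5))) e c).2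
      linarith [h1.1, h2.2]
  · refine key (fun r => ((r : ℚ) * (2 * (s : ℚ) + 5))) ?_
    intro r r' hr e e' c d hcs hds
    have h0 := hlt hr
    rw [if_neg hD, if_neg hD]
    constructor
    · have h1 := pt_bound 𝒲 R q ((r' : ℚ) * (2 * (s : ℚ) + 5)) e hcs
      have h2 := pt_bound 𝒲 R q ((r : ℚ) * (2 * (s : ℚ) + 5)) e' hds
      refine Tw_gt 𝒲 R _ _ ?_
      change (pt 𝒲 R q ((r : ℚ) * (2 * (s : ℚ) + 5)) e' d).2 <
        (pt 𝒲 R q ((r' : ℚ) * (2 * (s : ℚ) + 5)) e c).2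
      linarith [h1.1, h2.2]
    · have h1 := pt_bound 𝒲 R q ((r : ℚ) * (2 * (s : ℚ) + 5)) e hcs
      have h2 := pt_bound 𝒲 R q ((r' : ℚ) * (2 * (s : ℚ) + 5)) e' hds
      refine Tw_lt 𝒲 R _ _ ?_
      change (pt 𝒲 R q ((r : ℚ) * (2 * (s : ℚ) + 5)) e c).2 <
        (pt 𝒲 R q ((r' : ℚ) * (2 * (s : ℚ) + 5)) e' d).2
      linarith [h1.2, h2.1]

theorem rt_cases (𝒲 : Ultrafilter I) {R : W → W → Prop} {m : ℕ} (hG : Good R m)
    {D : (I → W) → Prop} {f g : I → W} (h : RT 𝒲 R D f g) :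
    f =ᶠ[(𝒲 : Filter I)] g ∨ ∃ (n : ℕ) (q : ℕ → I → W), 1 ≤ n ∧ n < m ∧ q 0 = f ∧ q n = g ∧
      (∀ a ≤ n, D (q a)) ∧ (∀ a < n, NN 𝒲 R (q a) (q (a+1))) ∧
      (∀ a b, a + 2 ≤ b → b ≤ n → ¬ NN 𝒲 R (q a) (q b)) := by
  obtain ⟨n, p, h0, hn, hp, hch⟩ := chordless h
  rcases Nat.eq_zero_or_pos n with hn0 | hn0
  · left
    subst hn0
    rw [← h0, ← hn]
  have hD : ∀ a ≤ n, D (p a) := by
    intro a ha
    rcases Nat.lt_or_ge a n with h1 | h1
    · exact (hp a h1).1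
    · have h2 : a = (n - 1) + 1 := by omega
      rw [h2]
      exact (hp (n - 1) (by omega)).2.1
  by_cases hall : ∀ a < n, NN 𝒲 R (p a) (p (a+1))
  · right
    have hc : ∀ a b, a + 2 ≤ b → b ≤ n → ¬ NN 𝒲 R (p a) (p b) := by
      intro a b hab hb hN
      exact hch a b hab hb ⟨hD a (by omega), hD b hb, Or.inl hN⟩
    exact ⟨n, p, hn0, xp_of_path 𝒲 hG n p hall hc, h0, hn, hD, hall, hc⟩
  · left
    push Not at hall
    obtain ⟨i, hi, hN⟩ := hall
    have hE : p i =ᶠ[(𝒲 : Filter I)] p (i+1) := (hp i hi).2.2.resolve_left hN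
    rcases Nat.lt_or_ge n 2 with h2 | h2
    · have h3 : n = 1 := by omega
      have h4 : i = 0 := by omega
      subst h4
      rw [← h0, ← hn, h3]
      exact hE
    · exfalso
      rcases Nat.eq_zero_or_pos i with h3 | h3
      · subst h3
        have h4 := hp 1 (by omega)
        refine hch 0 2 (by omega) h2 ⟨hD 0 (by omega), hD 2 h2, ?_⟩
        rcases h4.2.2 with h5 | h5
        · left
          exact (nn_congr 𝒲 hE (EventuallyEq.refl _ _)).2 h5
        · right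
          exact hE.trans h5
      · obtain ⟨i', rfl⟩ : ∃ i', i = i' + 1 := ⟨i - 1, by omega⟩
        have h4 := hp i' (by omega)
        refine hch i' (i' + 1 + 1) (by omega) (by omega)
          ⟨hD _ (by omega), hD _ (by omega), ?_⟩
        rcases h4.2.2 with h5 | h5
        · left
          exact (nn_congr 𝒲 (EventuallyEq.refl _ _) hE).1 h5
        · right
          exact h5.trans hE

theorem fp_of_cycle (𝒲 : Ultrafilter I) {R : W → W → Prop} {m : ℕ} (hG : Good R m)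
    {D : (I → W) → Prop} {f g : I → W} (h : RT 𝒲 R D f g) :
    (D1 𝒲 R g f ↔ D2 𝒲 R g f) := by
  rcases rt_cases 𝒲 hG h with h1 | ⟨n, q, hn, -, h0, hq, -, hN, hc⟩
  · rw [D1_congr 𝒲 h1.symm (EventuallyEq.refl _ f), D2_congr 𝒲 h1.symm (EventuallyEq.refl _ f)]
    by_contra hne
    refine hne (fp_of_path 𝒲 hG 1 le_rfl (fun _ => f) ?_ ?_)
    · intro a _ h2
      exact hne (h2.1.symm.trans h2.2)
    · intro a b hab hb
      omega
  · have h2 := fp_of_path 𝒲 hG n hn q hN hc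
    rw [h0, hq] at h2
    exact h2

end KTab
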