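import Pool.Agent.KTab.Lim2

/-!
Terminal functions and ultralimits.  In this file f is a terminal function on (I, 𝒲), and no
point is in all sets C i.

glem: by rt_cases every RT (f ∘ φ n) (g n) is an equality or a path of NN-steps of length < m; so
there is a path of exactly m steps of St (repeat the last element).  Q σ ⟨n, j⟩ := the σ-th element.
By induction on σ ≤ m: RT (f ∘ Φ) (Q σ).  Step: for almost all n the step is an equality (then Q σ
and Q (σ+1) are equal almost everywhere) or for almost all n it is NN; then by matching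
D1 ↔ D2 ↔ v for almost all n (v the limit of D1) and Rs ↔ ¬ v, so Rs (Q σ) (Q (σ+1)) ↔ ¬ v.  If
NN (Q σ) (Q (σ+1)) we have a step.  Otherwise D1 and D2 of (Q σ, Q (σ+1)) are ¬ v, and twoPos
gives a contradiction.
-/

set_option autoImplicit false

namespace KTab

open Filter KBT

variable {M I : Type} {R : M → M → Prop} {m : ℕ} {C : ℕ → Set M} {𝒲 : Ultrafilter I} {f : I → M}

/-- A path of exactly `m + 1` steps. -/
theorem lim3_path {J : Type} (𝒥 : Ultrafilter J) (hG : Good R m) {u g : J → M}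
    (hu : Dp C 𝒥 u) (h : RT 𝒥 R (Dp C 𝒥) u g) :
    ∃ p : ℕ → J → M, p 0 = u ∧ p (m + 1) = g ∧ (∀ σ, Dp C 𝒥 (p σ)) ∧
      ∀ σ, NN 𝒥 R (p σ) (p (σ + 1)) ∨ p σ =ᶠ[(𝒥 : Filter J)] p (σ + 1) := by
  rcases rt_cases 𝒥 hG h with h1 | ⟨n, q, hn, hnm, h0, hq, hD, hN, -⟩
  · refine ⟨fun σ => if σ = 0 then u else g, by simp, by simp, ?_, ?_⟩
    · intro σ
      by_cases hσ : σ = 0
      · simp only [hσ, if_true]
        exact hu
      · simp only [hσ, if_false]
        exact Dp_congr C h1 hu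
    · intro σ
      right
      by_cases hσ : σ = 0
      · simp only [hσ, if_true, zero_add, one_ne_zero, if_false]
        exact h1
      · simp only [hσ, if_false, Nat.succ_ne_zero]
        exact EventuallyEq.refl _ _
  · refine ⟨fun σ => q (min σ n), by simpa using h0, ?_, ?_, ?_⟩
    · show q (min (m + 1) n) = g
      rw [min_eq_right (by omega), hq]
    · intro σ
      exact hD _ (min_le_right _ _)
    · intro σ
      rcases Nat.lt_or_ge σ n with h1 | h1
      · left
        show NN 𝒥 R (q (min σ n)) (q (min (σ + 1) n))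
        rw [min_eq_left h1.le, min_eq_left (by omega)]
        exact hN σ h1
      · right
        show q (min σ n) =ᶠ[(𝒥 : Filter J)] q (min (σ + 1) n)
        rw [min_eq_right h1, min_eq_right (by omega)]

theorem glem (hG : Good R m) (hC : ∀ x, ∃ i, x ∉ C i) (hf : Term C 𝒲 R f) {J : ℕ → Type}
    (𝒥 : ∀ n, Ultrafilter (J n)) (φ : ∀ n, J n → I) (hφ : ∀ n, MP (𝒥 n) 𝒲 (φ n))
    (g : ∀ n, J n → M) (hg : ∀ n, RT (𝒥 n) R (Dp C (𝒥 n)) (f ∘ φ n) (g n)) :
    RT (sigU 𝒥) R (Dp C (sigU 𝒥)) (fun p : Σ n, J n => f (φ p.1 p.2)) (fun p => g p.1 p.2) := by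
  have hfD : ∀ n, Dp C (𝒥 n) (f ∘ φ n) := fun n => (Dp_pull (hφ n) C f).2 hf.1
  choose p hp0 hpm hpD hpS using fun n => lim3_path (𝒥 n) hG (hfD n) (hg n)
  have hreach : ∀ n σ, RT (𝒥 n) R (Dp C (𝒥 n)) (f ∘ φ n) (p n σ) := by
    intro n σ
    induction σ with
    | zero =>
      rw [hp0]
      exact Relation.ReflTransGen.refl
    | succ σ ih => exact ih.tail ⟨hpD n σ, hpD n (σ + 1), hpS n σ⟩
  have hQD : ∀ σ, Dp C (sigU 𝒥) (fun x : Σ n, J n => p x.1 σ x.2) := by
    intro σ i
    rw [ev_sigU]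
    exact Eventually.of_forall fun n => hpD n σ i
  have main : ∀ σ, RT (sigU 𝒥) R (Dp C (sigU 𝒥)) (fun x : Σ n, J n => f (φ x.1 x.2))
      (fun x => p x.1 σ x.2) := by
    intro σ
    induction σ with
    | zero =>
      have h1 : (fun x : Σ n, J n => f (φ x.1 x.2)) = fun x => p x.1 0 x.2 := by
        funext x
        rw [hp0]
        rfl
      rw [← h1]
      exact Relation.ReflTransGen.refl
    | succ σ ih =>
      refine ih.tail ⟨hQD σ, hQD (σ + 1), ?_⟩
      by_cases hE : ∀ᶠ n in (hyperfilter ℕ : Filter ℕ),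
          p n σ =ᶠ[(𝒥 n : Filter (J n))] p n (σ + 1)
      · right
        show ∀ᶠ x in (sigU 𝒥 : Filter (Σ n, J n)), p x.1 σ x.2 = p x.1 (σ + 1) x.2
        rw [ev_sigU]
        exact hE
      · rw [ev_not] at hE
        have hNN : ∀ᶠ n in (hyperfilter ℕ : Filter ℕ), NN (𝒥 n) R (p n σ) (p n (σ + 1)) :=
          hE.mono fun n hn => (hpS n σ).resolve_right hn
        by_contra hcon
        rw [not_or] at hcon
        have hmatch : ∀ n, (D1 (𝒥 n) R (p n σ) (p n (σ + 1)) ↔
            D2 (𝒥 n) R (p n σ) (p n (σ + 1))) := fun n =>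
          matching hG hf (𝒥 n) (φ n) (hφ n) (p n σ) (p n (σ + 1)) (hreach n σ) (hpD n σ)
            (hpD n (σ + 1))
        have hd1 := ev_dec (hyperfilter ℕ) (fun n => D1 (𝒥 n) R (p n σ) (p n (σ + 1)))
        obtain ⟨v, hv⟩ : ∃ v : Prop, v = ∀ᶠ n in (hyperfilter ℕ : Filter ℕ),
          D1 (𝒥 n) R (p n σ) (p n (σ + 1)) := ⟨_, rfl⟩
        rw [← hv] at hd1
        have hd2 : ∀ᶠ n in (hyperfilter ℕ : Filter ℕ),
            (D2 (𝒥 n) R (p n σ) (p n (σ + 1)) ↔ v) :=
          hd1.mono fun n hn => (hmatch n).symm.trans hn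
        have hRs : ∀ᶠ n in (hyperfilter ℕ : Filter ℕ),
            (Rs (𝒥 n) R (p n σ) (p n (σ + 1)) ↔ ¬ v) := by
          filter_upwards [hd1, hd2, hNN] with n h1 h2 h3
          unfold NN at h3
          rw [h1, h2] at h3
          tauto
        have hRs' : Rs (sigU 𝒥) R (fun x : Σ n, J n => p x.1 σ x.2)
            (fun x => p x.1 (σ + 1) x.2) ↔ ¬ v := by
          have h1 : Rs (sigU 𝒥) R (fun x : Σ n, J n => p x.1 σ x.2)
              (fun x => p x.1 (σ + 1) x.2) ↔ ∀ᶠ n in (hyperfilter ℕ : Filter ℕ),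
                Rs (𝒥 n) R (p n σ) (p n (σ + 1)) := Iff.rfl
          rw [h1, eventually_congr hRs]
          exact eventually_const
        have hN := hcon.1
        unfold NN at hN
        rw [not_not, hRs'] at hN
        refine twoPos hG hC hf 𝒥 φ hφ (fun n => p n σ) (fun n => p n (σ + 1)) ih (hQD σ)
          (hQD (σ + 1)) v hd1 hd2 ?_
        rintro ⟨h1, -⟩
        have h2 := hN.1.trans h1
        tauto
  have hfin := main (m + 1)
  have h1 : (fun x : Σ n, J n => p x.1 (m + 1) x.2) = fun x => g x.1 x.2 := by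
    funext x
    rw [hpm]
  rw [h1] at hfin
  exact hfin

end KTab
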