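import Pool.Agent.KTab.TermEx
import Pool.Agent.KTab.Lim3
import Pool.Agent.KTab.Bad

/-!
The flatness theorem (directed case).

PROOF.  Let f on (I, 𝒲) be terminal (exists_term) and S n an increasing exhaustion of M by finite
sets (M is countable: S n := the set of x with code ≤ n, or use Set.Countable).  For each n take
the bad pairs y n, x n, y' n, x' n : I × I → M over S n (badPairs) and, by RX_common, an extension
ψ n : J n → I × I with ultrafilter 𝒥 n, on which f ∘ fst ∘ ψ n reaches y n ∘ ψ n and y' n ∘ ψ n.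
φ n := fst ∘ ψ n is MP to 𝒲.  Write Y, X, Y', X' for the functions ⟨n, j⟩ ↦ y n (ψ n j) etc. on
Σ n, J n with sigU 𝒥.  By glem f reaches Y and Y' on sigU 𝒥.  All are deep (for sigU: Dp holds for
every n).
(1) Rs, D1, D2 of (y n, x n) are true: Rs is true by badPairs; if NN (y n) (x n) then f ∘ fst
reaches x n on the extension, so RX, a contradiction.  Rs, D1, D2 of (y' n, x' n) are false.
(2) D1 (y n) (x' n) ↔ D2 (y n) (x' n) by matching (with the terminal f, φ n and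
q := y n ∘ ψ n, q' := x' n ∘ ψ n).
Case A: for almost all n D1 (y n) (x' n) is false.  D1 Y X ↔ D1 Y X': for a fixed point u of M and
all n with u ∈ S n the limits of R u (x n ·) and R u (x' n ·) are the same since
ltp (x n) = ltp (x' n).  If D1 Y X is true: twoPos with g = y, h = x', v = False (D1, D2 of
(y n, x' n) are false, D1 Y X' is true).  If D1 Y X is false: twoPos with g = y, h = x, v = True.
Case B: for almost all n D1 (y n) (x' n) is true.  D2 Y X' ↔ D2 Y' X' (a fixed point u = value of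
X', and ltp (y n) = ltp (y' n)).  If it is true: twoPos with g = y', h = x', v = False.  If it is
false: twoPos with g = y, h = x', v = True.
-/

set_option linter.all false

namespace KTab

open Filter KBT

private theorem FlatD_ev {J : ℕ → Type} {A : Type} (𝒥 : ∀ n, Ultrafilter (J n))
    (𝒱 : Ultrafilter A) (ψ : ∀ n, J n → A) (hψ : ∀ n, MP (𝒥 n) 𝒱 (ψ n)) (P : ℕ → A → Prop) :
    (∀ᶠ p in (sigU 𝒥 : Filter (Σ n, J n)), P p.1 (ψ p.1 p.2)) ↔
      ∀ᶠ n in (hyperfilter ℕ : Filter ℕ), ∀ᶠ a in (𝒱 : Filter A), P n a := by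
  rw [ev_sigU]
  refine eventually_congr (Eventually.of_forall fun n => ?_)
  exact hψ n (P n)

theorem flatD {M : Type} [Countable M] {R : M → M → Prop} {m : ℕ} (hG : Good R m)
    (C : ℕ → Set M) (hmono : ∀ i, C (i+1) ⊆ C i) (hne : ∀ i, (C i).Nonempty)
    (hC : ∀ x, ∃ i, x ∉ C i)
    (hc : ∀ (S : Finset M) (Φ : Set M × Set M → Set M × Set M → Prop), ∃ i0 : ℕ, ∀ i, i0 ≤ i →
      ∀ x ∈ C (i+1), ∀ y ∈ C (i+1), RC (C i) (EF2 R S Φ) x y) : False := by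
  classical
  obtain ⟨I, 𝒲, f, hf⟩ := exists_term hG C hmono hne
  obtain ⟨e, he⟩ := exists_injective_nat M
  obtain ⟨S, hS⟩ : ∃ S : ℕ → Finset M, ∀ n u, u ∈ S n ↔ e u ≤ n := by
    refine ⟨fun n => (Finset.range (n + 1)).preimage e (he.injOn), fun n u => ?_⟩
    rw [Finset.mem_preimage, Finset.mem_range]
    omega
  have hSev : ∀ u, ∀ᶠ n in (hyperfilter ℕ : Filter ℕ), u ∈ S n := by
    intro u
    have h1 : ∀ᶠ n in (hyperfilter ℕ : Filter ℕ), e u ≤ n :=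
      (eventually_ge_atTop (e u)).filter_mono Nat.hyperfilter_le_atTop
    filter_upwards [h1] with n hn
    exact (hS n u).2 hn
  choose y x y' x' hD hZy hZx hZy' hZx' hly hlx hR hR' using
    fun n => badPairs hG hmono hC hf.1 (S n) (hc (S n))
  have hfst : MP (prodU 𝒲 𝒲) 𝒲 (Prod.fst : I × I → I) := by
    intro P
    rw [ev_prodU]
    simp
  have hf0 : Dp C (prodU 𝒲 𝒲) (f ∘ Prod.fst) := (Dp_pull hfst C f).2 hf.1
  choose J 𝒥 ψ hψ hry hry' using fun n =>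
    RX_common hf0 (hD n).1 hf0 (hD n).2.2.1 (hZy n) (hZy' n)
  -- no links to functions which are not reachable
  have hnn : ∀ n (g h : I × I → M), Dp C (prodU 𝒲 𝒲) g → Dp C (prodU 𝒲 𝒲) h →
      RT (𝒥 n) R (Dp C (𝒥 n)) ((f ∘ Prod.fst) ∘ ψ n) (g ∘ ψ n) →
      ¬ RX C (prodU 𝒲 𝒲) R (f ∘ Prod.fst) h →
      ((Rs (prodU 𝒲 𝒲) R g h ↔ D1 (prodU 𝒲 𝒲) R g h) ∧
        (Rs (prodU 𝒲 𝒲) R g h ↔ D2 (prodU 𝒲 𝒲) R g h)) := by
    intro n g h hg hh hrg hnh
    by_contra hcon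
    apply hnh
    refine ⟨J n, 𝒥 n, ψ n, hψ n, hrg.tail ⟨(Dp_pull (hψ n) C g).2 hg,
      (Dp_pull (hψ n) C h).2 hh, Or.inl ?_⟩⟩
    exact (NN_pull (hψ n) R g h).2 hcon
  have hdeep : ∀ g : ℕ → I × I → M, (∀ n, Dp C (prodU 𝒲 𝒲) (g n)) →
      Dp C (sigU 𝒥) (fun p : Σ n, J n => g p.1 (ψ p.1 p.2)) := by
    intro g hg i
    rw [ev_sigU]
    exact Eventually.of_forall fun n => (Dp_pull (hψ n) C (g n)).2 (hg n) i
  have hgl := fun (g : ℕ → I × I → M)
      (hr : ∀ n, RT (𝒥 n) R (Dp C (𝒥 n)) ((f ∘ Prod.fst) ∘ ψ n) (g n ∘ ψ n)) =>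
    glem hG hC hf 𝒥 (fun n => Prod.fst ∘ ψ n) (fun n => mp_comp (hψ n) hfst)
      (fun n => g n ∘ ψ n) hr
  have htwo := fun (g h : ℕ → I × I → M)
      (hr : ∀ n, RT (𝒥 n) R (Dp C (𝒥 n)) ((f ∘ Prod.fst) ∘ ψ n) (g n ∘ ψ n))
      (hg : ∀ n, Dp C (prodU 𝒲 𝒲) (g n)) (hh : ∀ n, Dp C (prodU 𝒲 𝒲) (h n)) =>
    twoPos hG hC hf 𝒥 (fun n => Prod.fst ∘ ψ n) (fun n => mp_comp (hψ n) hfst)
      (fun n => g n ∘ ψ n) (fun n => h n ∘ ψ n) (hgl g hr) (hdeep g hg) (hdeep h hh)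
  have hy := fun n => (hD n).1
  have hx := fun n => (hD n).2.1
  have hy' := fun n => (hD n).2.2.1
  have hx' := fun n => (hD n).2.2.2
  have e1 : ∀ n, D1 (𝒥 n) R (y n ∘ ψ n) (x n ∘ ψ n) := fun n =>
    (D1_pull (hψ n) (hψ n) R _ _).2 ((hnn n _ _ (hy n) (hx n) (hry n) (hZx n)).1.1 (hR n))
  have e2 : ∀ n, D2 (𝒥 n) R (y n ∘ ψ n) (x n ∘ ψ n) := fun n =>
    (D2_pull (hψ n) (hψ n) R _ _).2 ((hnn n _ _ (hy n) (hx n) (hry n) (hZx n)).2.1 (hR n))
  have e3 : ∀ n, ¬ D1 (𝒥 n) R (y' n ∘ ψ n) (x' n ∘ ψ n) := fun n h =>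
    hR' n ((hnn n _ _ (hy' n) (hx' n) (hry' n) (hZx' n)).1.2
      ((D1_pull (hψ n) (hψ n) R _ _).1 h))
  have e4 : ∀ n, ¬ D2 (𝒥 n) R (y' n ∘ ψ n) (x' n ∘ ψ n) := fun n h =>
    hR' n ((hnn n _ _ (hy' n) (hx' n) (hry' n) (hZx' n)).2.2
      ((D2_pull (hψ n) (hψ n) R _ _).1 h))
  have e5 : ∀ n, (D1 (𝒥 n) R (y n ∘ ψ n) (x' n ∘ ψ n) ↔
      D2 (𝒥 n) R (y n ∘ ψ n) (x' n ∘ ψ n)) := by
    intro n
    have h1 := hnn n _ _ (hy n) (hx' n) (hry n) (hZx' n)
    rw [D1_pull (hψ n) (hψ n), D2_pull (hψ n) (hψ n), ← h1.1, ← h1.2]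
  -- the limit relations with a fixed point
  have lx : ∀ u : M, (∀ᶠ q in (sigU 𝒥 : Filter (Σ n, J n)), R u (x q.1 (ψ q.1 q.2))) ↔
      ∀ᶠ q in (sigU 𝒥 : Filter (Σ n, J n)), R u (x' q.1 (ψ q.1 q.2)) := by
    intro u
    rw [FlatD_ev 𝒥 (prodU 𝒲 𝒲) ψ hψ (fun n a => R u (x n a)),
      FlatD_ev 𝒥 (prodU 𝒲 𝒲) ψ hψ (fun n a => R u (x' n a))]
    refine eventually_congr ?_
    filter_upwards [hSev u] with n hn
    have h1 := congrArg (fun A : Set M × Set M => u ∈ A.2) (hlx n)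
    simp only [ltp, Set.mem_setOf_eq, hn, true_and] at h1
    exact Iff.of_eq h1
  have ly : ∀ u : M, (∀ᶠ q in (sigU 𝒥 : Filter (Σ n, J n)), R (y q.1 (ψ q.1 q.2)) u) ↔
      ∀ᶠ q in (sigU 𝒥 : Filter (Σ n, J n)), R (y' q.1 (ψ q.1 q.2)) u := by
    intro u
    rw [FlatD_ev 𝒥 (prodU 𝒲 𝒲) ψ hψ (fun n a => R (y n a) u),
      FlatD_ev 𝒥 (prodU 𝒲 𝒲) ψ hψ (fun n a => R (y' n a) u)]
    refine eventually_congr ?_
    filter_upwards [hSev u] with n hn
    have h1 := congrArg (fun A : Set M × Set M => u ∈ A.1) (hly n)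
    simp only [ltp, Set.mem_setOf_eq, hn, true_and] at h1
    exact Iff.of_eq h1
  have k1 : D1 (sigU 𝒥) R (fun p : Σ n, J n => y p.1 (ψ p.1 p.2))
      (fun p : Σ n, J n => x p.1 (ψ p.1 p.2)) ↔
      D1 (sigU 𝒥) R (fun p : Σ n, J n => y p.1 (ψ p.1 p.2))
        (fun p : Σ n, J n => x' p.1 (ψ p.1 p.2)) := by
    unfold D1
    exact eventually_congr (Eventually.of_forall fun p => lx (y p.1 (ψ p.1 p.2)))
  have k2 : D2 (sigU 𝒥) R (fun p : Σ n, J n => y p.1 (ψ p.1 p.2))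
      (fun p : Σ n, J n => x' p.1 (ψ p.1 p.2)) ↔
      D2 (sigU 𝒥) R (fun p : Σ n, J n => y' p.1 (ψ p.1 p.2))
        (fun p : Σ n, J n => x' p.1 (ψ p.1 p.2)) := by
    unfold D2
    exact eventually_congr (Eventually.of_forall fun p => ly (x' p.1 (ψ p.1 p.2)))
  by_cases hB : ∀ᶠ n in (hyperfilter ℕ : Filter ℕ), D1 (𝒥 n) R (y n ∘ ψ n) (x' n ∘ ψ n)
  · -- case B
    by_cases h1 : D2 (sigU 𝒥) R (fun p : Σ n, J n => y p.1 (ψ p.1 p.2))
      (fun p : Σ n, J n => x' p.1 (ψ p.1 p.2))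
    · refine htwo y' x' hry' hy' hx' False ?_ ?_ ?_
      · exact Eventually.of_forall fun n => iff_false_intro (e3 n)
      · exact Eventually.of_forall fun n => iff_false_intro (e4 n)
      · intro h2
        exact h2.2.1 (k2.1 h1)
    · refine htwo y x' hry hy hx' True ?_ ?_ ?_
      · filter_upwards [hB] with n hn
        exact iff_true_intro hn
      · filter_upwards [hB] with n hn
        exact iff_true_intro ((e5 n).1 hn)
      · intro h2
        exact h1 (h2.2.2 trivial)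
  · -- case A
    rw [ev_not] at hB
    by_cases h1 : D1 (sigU 𝒥) R (fun p : Σ n, J n => y p.1 (ψ p.1 p.2))
      (fun p : Σ n, J n => x p.1 (ψ p.1 p.2))
    · refine htwo y x' hry hy hx' False ?_ ?_ ?_
      · filter_upwards [hB] with n hn
        exact iff_false_intro hn
      · filter_upwards [hB] with n hn
        exact iff_false_intro fun h => hn ((e5 n).2 h)
      · intro h2
        exact h2.1.1 (k1.1 h1)
    · refine htwo y x hry hy hx True ?_ ?_ ?_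
      · exact Eventually.of_forall fun n => iff_true_intro (e1 n)
      · exact Eventually.of_forall fun n => iff_true_intro (e2 n)
      · intro h2
        exact h1 (h2.1.2 trivial)

end KTab
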