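import Pool.Agent.KTab.FlipsD
import Pool.Agent.KTab.FlatD

/-!
Good structures are tame.

PROOF (compare KBT.mainS in Pool/Agent/KBT/MainS.lean).  Suppose not; then
NT R (fun _ => Set.univ).  State: j : ℕ, D : ℕ → ℕ → Set V (sets D i for i ≤ j matter), NT (D j),
a finite set S of germs.  Next state: v ∈ CS (D j) (nt_point); S' := the set T' of cloD for RG R,
the sets CS (D i), i ≤ j, and T := insert v S; D' := D except D' (j+1) := the set C' of flipsD for
C := D j minus the points of S' (ntRemove) and T := S'.  This gives sequences C i : ℕ → Set V,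
S i : Finset (GV V), v i with: C (i+1) n ⊆ C i n; S i ⊆ S (i+1), v i ∈ S (i+1), v i ∈ CS (C i);
(a) for i ≤ j, S₀ ⊆ insert (v j) (S j), Φ, x, y ∈ insert (v j) (S j):
RC (CS (C i)) (EF2 (RG R) S₀ Φ) x y → RC (CS (C i) ∩ S (j+1)) (EF2 (RG R) S₀ Φ) x y;
(b) for S₀ ⊆ S (i+1), Φ, x, y ∈ CS (C (i+1)): RC (CS (C i)) (EF2 (RG R) S₀ Φ) x y;
(c) CS (C (i+1)) does not meet S (i+1).
M := {x : GV V // ∃ i, x ∈ S i} (countable), the relation RG R restricted to M (good by good_comap
and good_Rs), sets C i := {x | x.1 ∈ CS (C i)}.  Apply flatD: nonempty because of v i; for x ∈ S i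
x is not in CS (C (i+1)) (for i ≥ 1; S i ⊆ S (i+1)).  hc: a finite set S₀ of elements of M is
contained in S i0 for some i0; for i ≥ i0, x, y ∈ M ∩ CS (C (i+1)): (b) gives a path inside
CS (C i); x, y ∈ S j for some j ≥ i; (a) gives a path inside S (j+1); it is a path in M.  The
types over S₀ in M correspond to the types over the image of S₀ (as in the end of mainS: htp, hEF).
-/

set_option autoImplicit false

namespace KTab

open Filter KBT

private theorem RC_mono {X : Type*} {C C' : Set X} (h : C ⊆ C') {E : X → X → Prop} {x y : X}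
    (hxy : RC C E x y) : RC C' E x y := by
  unfold RC at hxy ⊢
  exact Relation.ReflTransGen.mono (fun a b hab => ⟨h hab.1, h hab.2.1, hab.2.2⟩) x y hxy

private theorem CS_mono {V : Type} {C C' : ℕ → Set V} (h : ∀ n, C n ⊆ C' n) : CS C ⊆ CS C' := by
  intro x hx
  exact Eventually.mono hx fun n hn => h n hn

/-- one stage of the construction -/
private structure StepD {V : Type} (R : V → V → Prop) (j : ℕ) (D : ℕ → ℕ → Set V)
    (S : Finset (GV V)) (D' : ℕ → ℕ → Set V) (S' : Finset (GV V)) : Prop where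
  eqD : ∀ i ≤ j, D' i = D i
  sub : ∀ n, D' (j+1) n ⊆ D j n
  subS : S ⊆ S'
  pnt : ∃ v ∈ S', v ∈ CS (D j)
  clos : ∀ i ≤ j, ∀ S₀ ⊆ S, ∀ (Φ : Set (GV V) × Set (GV V) → Set (GV V) × Set (GV V) → Prop),
    ∀ x ∈ S, ∀ y ∈ S, RC (CS (D i)) (EF2 (RG R) S₀ Φ) x y →
      RC (CS (D i) ∩ (S' : Set (GV V))) (EF2 (RG R) S₀ Φ) x y
  conn : ∀ S₀ ⊆ S', ∀ (Φ : Set (GV V) × Set (GV V) → Set (GV V) × Set (GV V) → Prop),
    ∀ x ∈ CS (D' (j+1)), ∀ y ∈ CS (D' (j+1)), RC (CS (D j)) (EF2 (RG R) S₀ Φ) x y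
  disj : ∀ x ∈ CS (D' (j+1)), x ∉ S'

private theorem stepD_exists {V : Type} {R : V → V → Prop} {m : ℕ} (hG : Good R m) (j : ℕ)
    (D : ℕ → ℕ → Set V) (hD : NT R (D j)) (S : Finset (GV V)) :
    ∃ (D' : ℕ → ℕ → Set V) (S' : Finset (GV V)), NT R (D' (j+1)) ∧ StepD R j D S D' S' := by
  classical
  obtain ⟨v, hv⟩ := nt_point hD
  obtain ⟨T, hT1, hT2⟩ := cloD (RG R) (fun i => CS (D i)) j (insert v S)
  obtain ⟨C', h1, h2, h3⟩ := flipsD hG _ (ntRemove hD T) T
  have hsub : ∀ n, C' n ⊆ D j n := fun n => (h1 n).trans Set.sdiff_subset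
  have he : Function.update D (j+1) C' (j+1) = C' := Function.update_self _ _ _
  refine ⟨Function.update D (j+1) C', T, by rw [he]; exact h2, ?_, ?_, ?_, ?_, ?_, ?_, ?_⟩
  · intro i hi
    exact Function.update_of_ne (by omega) _ _
  · rw [he]
    exact hsub
  · exact (Finset.subset_insert v S).trans hT1
  · exact ⟨v, hT1 (Finset.mem_insert_self v S), hv⟩
  · intro i hi S₀ hS₀ Φ x hx y hy hxy
    exact hT2 i hi S₀ (hS₀.trans (Finset.subset_insert v S)) Φ x (Finset.mem_insert_of_mem hx) y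
      (Finset.mem_insert_of_mem hy) hxy
  · rw [he]
    intro S₀ hS₀ Φ x hx y hy
    exact RC_mono (CS_mono fun n => Set.sdiff_subset) (h3 S₀ hS₀ Φ x hx y hy)
  · rw [he]
    intro x hx hxT
    obtain ⟨n, hn⟩ := Eventually.exists hx
    exact (h1 n hn).2 ⟨x, hxT, rfl⟩

theorem mainD {V : Type} {R : V → V → Prop} {m : ℕ} (hG : Good R m) (c : ℕ) :
    ∃ N, Tame R Set.univ c N := by
  classical
  by_contra hcon
  push Not at hcon
  have hNT : NT R (fun _ => (Set.univ : Set V)) := ⟨c, fun N => Eventually.of_forall fun _ => hcon N⟩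
  let St : Type := {p : ℕ × (ℕ → ℕ → Set V) × Finset (GV V) // NT R (p.2.1 p.1)}
  have hst : ∀ p : St, ∃ p' : St, p'.1.1 = p.1.1 + 1 ∧
      StepD R p.1.1 p.1.2.1 p.1.2.2 p'.1.2.1 p'.1.2.2 := by
    intro p
    obtain ⟨D', S', h1, h2⟩ := stepD_exists hG p.1.1 p.1.2.1 p.2 p.1.2.2
    exact ⟨⟨(p.1.1 + 1, D', S'), h1⟩, rfl, h2⟩
  choose nxt hnxt1 hnxt2 using hst
  let p0 : St := ⟨(0, fun _ _ => Set.univ, ∅), hNT⟩
  let sq : ℕ → St := fun n => Nat.rec p0 (fun _ p => nxt p) n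
  have hj : ∀ n, (sq n).1.1 = n := by
    intro n
    induction n with
    | zero => rfl
    | succ n ih =>
      have h1 : (sq (n+1)).1.1 = (sq n).1.1 + 1 := hnxt1 (sq n)
      rw [h1, ih]
  obtain ⟨D, hDdef⟩ : ∃ D : ℕ → ℕ → ℕ → Set V, D = fun n => (sq n).1.2.1 := ⟨_, rfl⟩
  obtain ⟨S, hSdef⟩ : ∃ S : ℕ → Finset (GV V), S = fun n => (sq n).1.2.2 := ⟨_, rfl⟩
  have hsq : ∀ n, StepD R n (D n) (S n) (D (n+1)) (S (n+1)) := by
    intro n
    have h1 := hnxt2 (sq n)
    rw [hj n] at h1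
    rw [hDdef, hSdef]
    exact h1
  clear_value sq
  -- the sets C i
  obtain ⟨C, hCdef⟩ : ∃ C : ℕ → ℕ → Set V, C = fun i => D i i := ⟨_, rfl⟩
  have hDC : ∀ i n, i ≤ n → D n i = C i := by
    intro i n hin
    induction hin with
    | refl => rw [hCdef]
    | @step n hin ih => rw [(hsq n).eqD i hin, ih]
  have hCsub : ∀ i n, C (i+1) n ⊆ C i n := by
    intro i n
    have h1 := (hsq i).sub n
    rw [hDC (i+1) (i+1) le_rfl, hDC i i le_rfl] at h1
    exact h1
  have hSmono : ∀ i j, i ≤ j → S i ⊆ S j := by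
    intro i j hij
    induction hij with
    | refl => exact Finset.Subset.refl _
    | @step j _ ih => exact ih.trans (hsq j).subS
  have hpnt : ∀ i, ∃ v ∈ S (i+1), v ∈ CS (C i) := by
    intro i
    have h1 := (hsq i).pnt
    rwa [hDC i i le_rfl] at h1
  have hdisj : ∀ i, ∀ x ∈ CS (C (i+1)), x ∉ S (i+1) := by
    intro i
    have h1 := (hsq i).disj
    rwa [hDC (i+1) (i+1) le_rfl] at h1
  let M : Type := {x : GV V // ∃ i, x ∈ S i}
  have hMc : Countable M := by
    have h1 : {x : GV V | ∃ i, x ∈ S i}.Countable := by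
      have h2 : {x : GV V | ∃ i, x ∈ S i} = ⋃ i, (S i : Set (GV V)) := by
        ext x
        simp
      rw [h2]
      exact Set.countable_iUnion fun i => (S i).countable_toSet
    exact h1.to_subtype
  have hGM : Good (fun x y : M => RG R x.1 y.1) m :=
    good_comap (good_Rs (hyperfilter ℕ) hG) (fun x : M => rp x.1)
  refine flatD (M := M) hGM (fun i => {x : M | x.1 ∈ CS (C i)}) ?_ ?_ ?_ ?_
  · intro i x hx
    exact CS_mono (hCsub i) hx
  · intro i
    obtain ⟨v, hv1, hv2⟩ := hpnt i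
    exact ⟨⟨v, i+1, hv1⟩, hv2⟩
  · rintro ⟨x, i, hi⟩
    refine ⟨i+1, ?_⟩
    intro hx
    exact hdisj i x hx (hSmono i (i+1) (Nat.le_succ i) hi)
  · intro SM ΦM
    let T : Finset (GV V) := SM.image Subtype.val
    let Φ : Set (GV V) × Set (GV V) → Set (GV V) × Set (GV V) → Prop := fun A B =>
      ΦM ((fun x : M => x.1) ⁻¹' A.1, (fun x : M => x.1) ⁻¹' A.2)
        ((fun x : M => x.1) ⁻¹' B.1, (fun x : M => x.1) ⁻¹' B.2)
    have hTsub : ∃ i, T ⊆ S i := by
      have : ∀ F : Finset M, ∃ i, F.image Subtype.val ⊆ S i := by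
        intro F
        induction F using Finset.induction_on with
        | empty => exact ⟨0, by simp⟩
        | insert a F _ ih =>
          obtain ⟨i, hi⟩ := ih
          obtain ⟨j, hj⟩ := a.2
          refine ⟨max i j, ?_⟩
          rw [Finset.image_insert]
          intro f hf
          rcases Finset.mem_insert.mp hf with h1 | h1
          · rw [h1]
            exact hSmono j _ (le_max_right i j) hj
          · exact hSmono i _ (le_max_left i j) (hi h1)
      exact this SM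
    obtain ⟨i0, hi0⟩ := hTsub
    have htp : ∀ x : M, ((fun x : M => x.1) ⁻¹' (tp2 (RG R) T x.1).1,
        (fun x : M => x.1) ⁻¹' (tp2 (RG R) T x.1).2) = tp2 (fun x y : M => RG R x.1 y.1) SM x := by
      intro x
      refine Prod.ext ?_ ?_
      · ext s
        constructor
        · rintro ⟨h1, h2⟩
          obtain ⟨s', h3, h4⟩ := Finset.mem_image.mp h1
          have : s' = s := Subtype.ext h4
          subst this
          exact ⟨h3, h2⟩
        · rintro ⟨h1, h2⟩
          exact ⟨Finset.mem_image_of_mem _ h1, h2⟩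
      · ext s
        constructor
        · rintro ⟨h1, h2⟩
          obtain ⟨s', h3, h4⟩ := Finset.mem_image.mp h1
          have : s' = s := Subtype.ext h4
          subst this
          exact ⟨h3, h2⟩
        · rintro ⟨h1, h2⟩
          exact ⟨Finset.mem_image_of_mem _ h1, h2⟩
    have hEF : ∀ x y : M, EF2 (RG R) T Φ x.1 y.1 ↔
        EF2 (fun x y : M => RG R x.1 y.1) SM ΦM x y := by
      intro x y
      unfold EF2
      simp only [Φ, htp]
    refine ⟨i0, ?_⟩
    intro i hi x hx y hy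
    -- connected in the ultrapower, inside CS (C i)
    have h1 : RC (CS (C i)) (EF2 (RG R) T Φ) x.1 y.1 := by
      have h2 := (hsq i).conn T (hi0.trans (hSmono i0 (i+1) (by omega))) Φ x.1
      rw [hDC (i+1) (i+1) le_rfl, hDC i i le_rfl] at h2
      exact h2 hx y.1 hy
    -- inside M
    obtain ⟨jx, hjx⟩ := x.2
    obtain ⟨jy, hjy⟩ := y.2
    obtain ⟨n, hn⟩ : ∃ n, n = max (max jx jy) (max i i0) := ⟨_, rfl⟩
    have h3 : RC (CS (C i) ∩ (S (n+1) : Set (GV V))) (EF2 (RG R) T Φ) x.1 y.1 := by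
      have h4 := (hsq n).clos i (by omega) T (hi0.trans (hSmono i0 n (by omega))) Φ x.1
        (hSmono jx n (by omega) hjx) y.1 (hSmono jy n (by omega) hjy)
      rw [hDC i n (by omega)] at h4
      exact h4 h1
    have key : ∀ z : GV V, RC (CS (C i) ∩ (S (n+1) : Set (GV V))) (EF2 (RG R) T Φ) x.1 z →
        ∃ hz : ∃ i, z ∈ S i, RC {x : M | x.1 ∈ CS (C i)}
          (EF2 (fun x y : M => RG R x.1 y.1) SM ΦM) x ⟨z, hz⟩ := by
      intro z hz
      unfold RC at hz ⊢
      induction hz with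
      | refl => exact ⟨x.2, Relation.ReflTransGen.refl⟩
      | @tail b c _ hbc ih =>
        obtain ⟨hb, h5⟩ := ih
        have hc : ∃ i, c ∈ S i := ⟨n+1, hbc.2.1.2⟩
        exact ⟨hc, h5.tail ⟨hbc.1.1, hbc.2.1.1, (hEF ⟨b, hb⟩ ⟨c, hc⟩).mp hbc.2.2⟩⟩
    obtain ⟨_, h6⟩ := key _ h3
    exact h6

end KTab
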