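import Pool.Agent.KTab.XPkill
import Pool.Agent.KTab.FPkill
import Pool.Agent.KTab.MainD
import Pool.Agent.KBT.Final

set_option autoImplicit false

namespace KTab

open KBT

/-- Every 8-tabular algebra is n-tabular for all n. -/
theorem tabD {B : Type} [BooleanAlgebra B] (f : B → B) (htop : f ⊤ = ⊤)
    (hinf : ∀ a b : B, f (a ⊓ b) = f a ⊓ f b)
    (hfin : (Clo f 8).Finite) (n : ℕ) : (Clo f n).Finite := by
  classical
  let fA : ((Fin n → B) → B) → ((Fin n → B) → B) := fun t v => f (t v)
  have htopA : fA ⊤ = ⊤ := by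
    funext v
    exact htop
  have hinfA : ∀ a b, fA (a ⊓ b) = fA a ⊓ fA b := by
    intro a b
    funext v
    exact hinf (a v) (b v)
  set T : ℕ := (Clo f 8).ncard with hT
  have hcard : ∀ (g : Fin 8 → ((Fin n → B) → B)) (U : ℕ → ((Fin n → B) → B)),
      (∀ i < T + 1, Gen fA g (U i)) → (∀ i j, i < j → j < T + 1 → U i ≠ U j) → False := by
    intro g U h1 h2
    have h3 : U '' (Set.Iio (T+1)) ⊆
        (fun (t : (Fin 8 → B) → B) (v : Fin n → B) => t (fun i => g i v)) '' (Clo f 8) := by
      rintro _ ⟨i, hi, rfl⟩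
      obtain ⟨t, ht, h4⟩ := gen_sub_clo f 8 g (U i) (h1 i hi)
      exact ⟨t, ht, h4.symm⟩
    have h5 := Set.ncard_le_ncard h3 (hfin.image _)
    have h6 := Set.ncard_image_le (f := fun (t : (Fin 8 → B) → B) (v : Fin n → B) =>
      t (fun i => g i v)) hfin
    have h7 : (U '' (Set.Iio (T+1))).ncard = T + 1 := by
      rw [Set.InjOn.ncard_image, Set.ncard_eq_toFinset_card']
      · simp
      · intro i hi j hj hij
        by_contra hne
        rcases lt_or_gt_of_ne hne with h | h
        · exact h2 i j h hj hij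
        · exact h2 j i h hi hij.symm
    omega
  have hG : Good (Rel fA) (T + 1) := by
    constructor
    · intro h
      obtain ⟨g, U, h1, h2⟩ := xpkill htopA hinfA h
      exact hcard g U h1 h2
    · intro h
      obtain ⟨g, U, h1, h2⟩ := fpkill htopA hinfA h
      exact hcard g U h1 h2
  obtain ⟨N, hN⟩ := mainD hG (Fintype.card (Set (Fin n)))
  have hgen := tameAlg htopA hinfA n (fun (i : Fin n) (v : Fin n → B) => v i) N hN
  refine hgen.subset ?_
  intro t ht
  refine ht {a | Gen fA (fun (i : Fin n) (v : Fin n → B) => v i) a} ⟨?_, ?_, ?_, ?_, ?_⟩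
  · exact fun i => Gen.gen i
  · exact Gen.bot
  · exact fun g hg => Gen.compl g hg
  · exact fun g hg h hh => Gen.inf g h hg hh
  · exact fun g hg => Gen.box g hg

end KTab
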