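import Pool.Agent.KTab.OneD

/-!
All flips over subsets of a finite set.  PROOF (compare KBT.allflips in
Pool/Agent/KBT/Flips.lean).  Every flip over S ⊆ T is a flip over T (EF2_larger), and by EF2_congr
only the restriction of Φ to pairs of subsets of T matters; there are finitely many of them (codes
G : Set of pairs of pairs of subsets of T).  Induction over a finite set of codes, using oneD and
monotonicity of RC and CS.
-/

set_option autoImplicit false

namespace KTab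

open Filter KBT

private theorem codes2_finite {X : Type*} (T : Finset X) :
    {G : Set ((Set X × Set X) × (Set X × Set X)) | G ⊆ {q | (q.1.1 ⊆ (T : Set X) ∧ q.1.2 ⊆ (T : Set X)) ∧
      (q.2.1 ⊆ (T : Set X) ∧ q.2.2 ⊆ (T : Set X))}}.Finite := by
  have h1 : {A : Set X | A ⊆ (T : Set X)}.Finite := T.finite_toSet.finite_subsets
  have h2 : {q : Set X × Set X | q.1 ⊆ (T : Set X) ∧ q.2 ⊆ (T : Set X)}.Finite := h1.prod h1
  have h3 : {q : (Set X × Set X) × (Set X × Set X) | (q.1.1 ⊆ (T : Set X) ∧ q.1.2 ⊆ (T : Set X)) ∧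
      (q.2.1 ⊆ (T : Set X) ∧ q.2.2 ⊆ (T : Set X))}.Finite := h2.prod h2
  exact h3.finite_subsets

private theorem RC_mono' {X : Type*} {C D : Set X} (h : C ⊆ D) {E : X → X → Prop} {x y : X}
    (hxy : RC C E x y) : RC D E x y :=
  Relation.ReflTransGen.mono (fun _ _ hab => ⟨h hab.1, h hab.2.1, hab.2.2⟩) _ _ hxy

private theorem CS_mono' {V : Type} {C D : ℕ → Set V} (h : ∀ n, C n ⊆ D n) : CS C ⊆ CS D := by
  intro x hx
  exact hx.mono fun n hn => h n hn

theorem flipsD {V : Type} {R : V → V → Prop} {m : ℕ} (hG : Good R m) (C : ℕ → Set V)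
    (hC : NT R C) (T : Finset (GV V)) :
    ∃ C' : ℕ → Set V, (∀ n, C' n ⊆ C n) ∧ NT R C' ∧ ∀ S ⊆ T,
      ∀ (Φ : Set (GV V) × Set (GV V) → Set (GV V) × Set (GV V) → Prop),
      ∀ x ∈ CS C', ∀ y ∈ CS C', RC (CS C) (EF2 (RG R) S Φ) x y := by
  classical
  let ΦG : Set ((Set (GV V) × Set (GV V)) × (Set (GV V) × Set (GV V))) →
    Set (GV V) × Set (GV V) → Set (GV V) × Set (GV V) → Prop := fun G A B => (A, B) ∈ G
  have key : ∀ s : Finset (Set ((Set (GV V) × Set (GV V)) × (Set (GV V) × Set (GV V)))),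
      ∀ C : ℕ → Set V, NT R C →
      ∃ C' : ℕ → Set V, (∀ n, C' n ⊆ C n) ∧ NT R C' ∧ ∀ G ∈ s,
      ∀ x ∈ CS C', ∀ y ∈ CS C', RC (CS C) (EF2 (RG R) T (ΦG G)) x y := by
    intro s
    induction s using Finset.induction_on with
    | empty =>
      intro C hC
      exact ⟨C, fun n => Set.Subset.refl _, hC, fun G hG => absurd hG (Finset.notMem_empty G)⟩
    | insert G s _ ih =>
      intro C hC
      obtain ⟨C1, h1, h2, h3⟩ := oneD hG C hC T (ΦG G)
      obtain ⟨C2, h4, h5, h6⟩ := ih C1 h2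
      refine ⟨C2, fun n => (h4 n).trans (h1 n), h5, ?_⟩
      intro G' hG' x hx y hy
      rcases Finset.mem_insert.mp hG' with h7 | h7
      · subst h7
        exact h3 x (CS_mono' h4 hx) y (CS_mono' h4 hy)
      · exact RC_mono' (CS_mono' h1) (h6 G' h7 x hx y hy)
  obtain ⟨C', h1, h2, h3⟩ := key (codes2_finite T).toFinset C hC
  refine ⟨C', h1, h2, ?_⟩
  intro S hS Φ x hx y hy
  let G : Set ((Set (GV V) × Set (GV V)) × (Set (GV V) × Set (GV V))) :=
    {q | ((q.1.1 ⊆ (T : Set (GV V)) ∧ q.1.2 ⊆ (T : Set (GV V))) ∧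
      (q.2.1 ⊆ (T : Set (GV V)) ∧ q.2.2 ⊆ (T : Set (GV V)))) ∧
      Φ (q.1.1 ∩ S, q.1.2 ∩ S) (q.2.1 ∩ S, q.2.2 ∩ S)}
  have hG' : G ∈ (codes2_finite T).toFinset := by
    rw [Set.Finite.mem_toFinset]
    intro q hq
    exact hq.1
  have h4 := h3 G hG' x hx y hy
  have h5 : EF2 (RG R) T (ΦG G) = EF2 (RG R) S Φ := by
    rw [← EF2_larger hS Φ]
    apply EF2_congr
    intro A B hA1 hA2 hB1 hB2
    constructor
    · rintro ⟨_, h6⟩
      exact h6
    · intro h6
      exact ⟨⟨⟨hA1, hA2⟩, ⟨hB1, hB2⟩⟩, h6⟩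
  rw [h5] at h4
  exact h4

end KTab
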