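import Pool.Agent.KTab.Defs
import Pool.Agent.KBT.DL

/-!
Gluing of strong components with bounded depth.  comp a := {b | a ~ b}: the strong component of a
inside C.  PROOF by induction on d (for all c, with F and k fixed; the statement for d gives g, B).
d = 0: the hypothesis for x with x 0 ∈ C fails, so C is empty; g = 1 works (any colouring).
(For g: Tame R ∅ c 1; B = 0.)
d + 1: Let C0 := {x ∈ C | ∀ y ∈ C, RC C E x y → RC C E y x} (terminal components) and
C1 := C \ C0.  Let g0 be from KBT.dl (c * k) k (F (c * k * k)) (gluing of C0: for x, y in C0 in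
different strong components R x y ↔ Φ (κ x) (κ y), since otherwise E x y holds, so x reaches y and
by the definition of C0 y reaches x); use ι := Set V and comp x := the strong component of x; the
components of C0 are components of C (C0 is a union of strong components), and a set
C0 ∩ {x | comp x = w} is empty or a component of C (to avoid trouble with Fin 0 and the empty
set use dl with N := F (..) + 1 and KBT.tame_mono from Pool/Agent/KBT/One.lean; the case C = ∅ is
trivial).  So C0 is Tame (c * k) g0, with the colouring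
(χ, κ).  c1 := c * k * 2 ^ g0.  Let g1, B1 be from the induction hypothesis for d and c1: a chain
of length d without return in C1 can be prolonged in C (its last element is not terminal), RC C1
and RC C agree for points of the same strong component: if x reaches y inside C and both are in
C1 and y reaches x inside C, then the path stays in C1 (a point z of C0 on it would be equivalent
to y and so y ∈ C0).  [For the depth hypothesis of C1 one needs: ¬ RC C1 (x (i+1)) (x i) implies
¬ RC C (x (i+1)) (x i) when RC C (x i) (x (i+1)).]  Colour C1 with (χ, κ, the set of π0-classes of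
points of C0 seen).  The union of the two partitions (Fin g0 ⊕ Fin g1, g := g0 + g1) is stable:
rows of C0 over columns of C1 are given by Φ (κ x) (κ z) (no edge leaves a terminal component to a
non terminal point); rows of C1 over C0 by the third colour.  B := max (c * k * k) B1.
-/

set_option autoImplicit false

namespace KTab

open KBT

/-- Monotonicity of tameness in the number of classes. -/
private theorem tame_le {V : Type} {R : V → V → Prop} {C : Set V} {c N N' : ℕ} (h : N ≤ N')
    (hT : Tame R C c N) : Tame R C c N' := by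
  intro χ
  obtain ⟨π, h1, h2⟩ := hT χ
  refine ⟨fun x => Fin.castLE h (π x), ?_, ?_⟩
  · intro x hx y hy hxy z hz hxz
    obtain ⟨z', hz', h3, h4⟩ := h1 x hx y hy (Fin.castLE_injective h hxy) z hz hxz
    exact ⟨z', hz', h3, by dsimp only; rw [h4]⟩
  · intro x hx y hy hxy
    exact h2 x hx y hy (Fin.castLE_injective h hxy)

private theorem tame_empty {V : Type} {R : V → V → Prop} {C : Set V} {c N : ℕ} (hN : 1 ≤ N)
    (hC : ∀ x, x ∉ C) : Tame R C c N := by
  intro χ
  refine ⟨fun _ => ⟨0, by omega⟩, ?_, ?_⟩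
  · intro x hx
    exact absurd hx (hC x)
  · intro x hx
    exact absurd hx (hC x)

private theorem rc_mono {V : Type} {C C' : Set V} {E : V → V → Prop} (h : C ⊆ C') {x y : V}
    (hxy : RC C E x y) : RC C' E x y := by
  unfold RC at *
  induction hxy with
  | refl => exact Relation.ReflTransGen.refl
  | @tail z b _ hzb ih => exact Relation.ReflTransGen.tail ih ⟨h hzb.1, h hzb.2.1, hzb.2.2⟩

/-- Paths between equivalent points stay inside a set which is closed under equivalence. -/
private theorem rc_inside {V : Type} {C C' : Set V} {E : V → V → Prop} {a b : V}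
    (h : ∀ z, z ∈ C → RC C E a z → RC C E z a → z ∈ C')
    (hab : RC C E a b) (hba : RC C E b a) : RC C' E a b := by
  unfold RC at hab
  induction hab with
  | refl => exact Relation.ReflTransGen.refl
  | @tail z b hz hzb ih =>
    have h1 : RC C E z a := Relation.ReflTransGen.head hzb hba
    have h2 : RC C' E a z := ih h1
    have h3 : RC C E a b := Relation.ReflTransGen.tail hz hzb
    exact Relation.ReflTransGen.tail h2 ⟨h z hzb.1 hz h1, h b hzb.2.1 h3 hba, hzb.2.2⟩

theorem glue (k : ℕ) (F : ℕ → ℕ) (d : ℕ) : ∀ c : ℕ, ∃ g B : ℕ, ∀ {V : Type} (R : V → V → Prop)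
    (C : Set V) (κ : V → Fin k) (Φ : Fin k → Fin k → Prop)
    (_ : ¬ ∃ x : ℕ → V, (∀ i ≤ d, x i ∈ C) ∧ ∀ i < d,
        RC C (EK R κ Φ) (x i) (x (i+1)) ∧ ¬ RC C (EK R κ Φ) (x (i+1)) (x i))
    (_ : ∀ c' ≤ B, ∀ a ∈ C,
        Tame R {b | b ∈ C ∧ RC C (EK R κ Φ) a b ∧ RC C (EK R κ Φ) b a} c' (F c')),
    Tame R C c g := by
  classical
  induction d with
  | zero =>
    intro c
    refine ⟨1, 0, ?_⟩
    intro V R C κ Φ h1 _
    apply tame_empty (le_refl 1)
    intro a ha
    exact h1 ⟨fun _ => a, fun _ _ => ha, fun i hi => absurd hi (Nat.not_lt_zero i)⟩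
  | succ d ih =>
    intro c
    obtain ⟨g0, hg0⟩ := KBT.dl (c * k) k (F (c * k * k) + 1)
    obtain ⟨g1, B1, hg1⟩ := ih (c * k * 2 ^ g0)
    refine ⟨g0 + g1, max (c * k * k) B1, ?_⟩
    intro V R C κ Φ h1 h2
    set E : V → V → Prop := EK R κ Φ with hE
    set C0 : Set V := {x | x ∈ C ∧ ∀ y ∈ C, RC C E x y → RC C E y x} with hC0
    set C1 : Set V := C \ C0 with hC1
    have htr : ∀ {x y z : V}, RC C E x y → RC C E y z → RC C E x z :=
      fun hxy hyz => Relation.ReflTransGen.trans hxy hyz
    have hrefl : ∀ x : V, RC C E x x := fun x => Relation.ReflTransGen.refl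
    have hC0sub : C0 ⊆ C := fun x hx => hx.1
    have hC1sub : C1 ⊆ C := fun x hx => hx.1
    have hstep : ∀ x ∈ C, ∀ y ∈ C, E x y → RC C E x y :=
      fun x hx y hy hxy => Relation.ReflTransGen.single ⟨hx, hy, hxy⟩
    -- C0 is closed under reachability
    have hC0cl : ∀ x ∈ C0, ∀ y ∈ C, RC C E x y → y ∈ C0 := by
      intro x hx y hy hxy
      refine ⟨hy, fun z hz hyz => ?_⟩
      exact htr (hx.2 z hz (htr hxy hyz)) hxy
    -- C1 is closed under equivalence
    have hC1cl : ∀ x ∈ C1, ∀ y ∈ C, RC C E x y → RC C E y x → y ∈ C1 := by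
      intro x hx y hy _ hyx
      refine ⟨hy, fun hy0 => hx.2 ?_⟩
      exact hC0cl y hy0 x hx.1 hyx
    -- tameness of C0
    have hT0 : Tame R C0 (c * k) g0 := by
      refine hg0 R C0 κ Φ (fun x => {b | b ∈ C ∧ RC C E x b ∧ RC C E b x}) ?_ ?_
      · intro x hx y hy hxy
        by_contra hcon
        apply hxy
        have h3 : RC C E x y := hstep x hx.1 y hy.1 hcon
        have h4 : RC C E y x := hx.2 y hy.1 h3
        ext b
        constructor
        · rintro ⟨h5, h6, h7⟩
          exact ⟨h5, htr h4 h6, htr h7 h3⟩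
        · rintro ⟨h5, h6, h7⟩
          exact ⟨h5, htr h3 h6, htr h7 h4⟩
      · intro w
        by_cases hw : ∃ a, a ∈ C0 ∩ {x | {b | b ∈ C ∧ RC C E x b ∧ RC C E b x} = w}
        · obtain ⟨a, ha, ha2⟩ := hw
          have h3 : C0 ∩ {x | {b | b ∈ C ∧ RC C E x b ∧ RC C E b x} = w}
              = {b | b ∈ C ∧ RC C E a b ∧ RC C E b a} := by
            ext b
            constructor
            · rintro ⟨hb, hb2⟩
              have h4 : b ∈ ({b' | b' ∈ C ∧ RC C E b b' ∧ RC C E b' b} : Set V) :=
                ⟨hb.1, hrefl b, hrefl b⟩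
              have h5 : ({b' | b' ∈ C ∧ RC C E b b' ∧ RC C E b' b} : Set V) = w := hb2
              have h6 : ({b' | b' ∈ C ∧ RC C E a b' ∧ RC C E b' a} : Set V) = w := ha2
              rw [h5, ← h6] at h4
              exact h4
            · rintro ⟨hb, hb2, hb3⟩
              refine ⟨hC0cl a ha b hb hb2, ?_⟩
              have h6 : ({b' | b' ∈ C ∧ RC C E a b' ∧ RC C E b' a} : Set V) = w := ha2
              show ({b' | b' ∈ C ∧ RC C E b b' ∧ RC C E b' b} : Set V) = w
              rw [← h6]
              ext z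
              constructor
              · rintro ⟨h7, h8, h9⟩
                exact ⟨h7, htr hb2 h8, htr h9 hb3⟩
              · rintro ⟨h7, h8, h9⟩
                exact ⟨h7, htr hb3 h8, htr h9 hb2⟩
          rw [h3]
          exact tame_le (Nat.le_succ _) (h2 (c * k * k) (le_max_left _ _) a ha.1)
        · apply tame_empty (Nat.succ_le_succ (Nat.zero_le _))
          intro x hx
          exact hw ⟨x, hx⟩
    -- tameness of C1
    have hT1 : Tame R C1 (c * k * 2 ^ g0) g1 := by
      refine hg1 R C1 κ Φ ?_ ?_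
      · rintro ⟨x, hx1, hx2⟩
        obtain ⟨y, hy, hxy, hyx⟩ : ∃ y ∈ C, RC C E (x d) y ∧ ¬ RC C E y (x d) := by
          by_contra hcon
          push Not at hcon
          exact (hx1 d le_rfl).2 ⟨(hx1 d le_rfl).1, hcon⟩
        apply h1
        refine ⟨fun i => if i ≤ d then x i else y, ?_, ?_⟩
        · intro i _
          by_cases hi : i ≤ d
          · simp only [hi, if_true]
            exact (hx1 i hi).1
          · simp only [hi, if_false]
            exact hy
        · intro i hi
          have hid : i ≤ d := by omega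
          by_cases hi2 : i + 1 ≤ d
          · simp only [hid, hi2, if_true]
            have h3 := hx2 i (by omega)
            refine ⟨rc_mono hC1sub h3.1, fun h4 => h3.2 ?_⟩
            refine rc_inside (C := C) ?_ h4 (rc_mono hC1sub h3.1)
            intro z hz hz1 hz2
            exact hC1cl _ (hx1 (i+1) hi2) z hz hz1 hz2
          · have hde : i = d := by omega
            subst hde
            simp only [hid, hi2, if_true, if_false]
            exact ⟨hxy, hyx⟩
      · intro c' hc' a ha
        have h3 : {b | b ∈ C1 ∧ RC C1 (EK R κ Φ) a b ∧ RC C1 (EK R κ Φ) b a}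
            = {b | b ∈ C ∧ RC C E a b ∧ RC C E b a} := by
          ext b
          constructor
          · rintro ⟨h4, h5, h6⟩
            exact ⟨hC1sub h4, rc_mono hC1sub h5, rc_mono hC1sub h6⟩
          · rintro ⟨h4, h5, h6⟩
            have h7 : b ∈ C1 := hC1cl a ha b h4 h5 h6
            refine ⟨h7, ?_, ?_⟩
            · exact rc_inside (C := C) (fun z hz hz1 hz2 => hC1cl a ha z hz hz1 hz2) h5 h6
            · exact rc_inside (C := C) (fun z hz hz1 hz2 => hC1cl b h7 z hz hz1 hz2) h6 h5
        rw [h3]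
        exact h2 c' (hc'.trans (le_max_right _ _)) a ha.1
    -- the common partition
    intro χ
    obtain ⟨π0, hs0, hr0⟩ := hT0 (fun x => finProdFinEquiv (χ x, κ x))
    have hr0' : ∀ x ∈ C0, ∀ y ∈ C0, π0 x = π0 y → χ x = χ y ∧ κ x = κ y := by
      intro x hx y hy hxy
      have h3 := finProdFinEquiv.injective (hr0 x hx y hy hxy)
      exact ⟨congrArg Prod.fst h3, congrArg Prod.snd h3⟩
    have hcard : Fintype.card ((Fin c × Fin k) × Set (Fin g0)) = c * k * 2 ^ g0 := by
      simp
    let e : (Fin c × Fin k) × Set (Fin g0) ≃ Fin (c * k * 2 ^ g0) :=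
      Fintype.equivFinOfCardEq hcard
    obtain ⟨π1, hs1, hr1⟩ := hT1 (fun x => e ((χ x, κ x), {j | ∃ z ∈ C0, R x z ∧ π0 z = j}))
    have hr1' : ∀ x ∈ C1, ∀ y ∈ C1, π1 x = π1 y → χ x = χ y ∧
        ({j | ∃ z ∈ C0, R x z ∧ π0 z = j} : Set (Fin g0)) = {j | ∃ z ∈ C0, R y z ∧ π0 z = j} := by
      intro x hx y hy hxy
      have h3 := e.injective (hr1 x hx y hy hxy)
      exact ⟨congrArg (fun q => q.1.1) h3, congrArg Prod.snd h3⟩
    let pp : V → Fin g0 ⊕ Fin g1 := fun x => if x ∈ C0 then Sum.inl (π0 x) else Sum.inr (π1 x)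
    have hp0 : ∀ x ∈ C0, pp x = Sum.inl (π0 x) := fun x hx => if_pos hx
    have hp1 : ∀ x ∈ C1, pp x = Sum.inr (π1 x) := fun x hx => if_neg hx.2
    have hcases : ∀ x ∈ C, x ∈ C0 ∨ x ∈ C1 := by
      intro x hx
      by_cases h3 : x ∈ C0
      · exact Or.inl h3
      · exact Or.inr ⟨hx, h3⟩
    refine ⟨fun x => finSumFinEquiv (pp x), ?_, ?_⟩
    · intro x hx y hy hxy z hz hxz
      have hpp : pp x = pp y := finSumFinEquiv.injective hxy
      rcases hcases x hx with hx0 | hx1
      · rcases hcases y hy with hy0 | hy1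
        · rw [hp0 x hx0, hp0 y hy0] at hpp
          have h3 : π0 x = π0 y := Sum.inl.inj hpp
          rcases hcases z hz with hz0 | hz1
          · obtain ⟨z', hz', h4, h5⟩ := hs0 x hx0 y hy0 h3 z hz0 hxz
            refine ⟨z', hC0sub hz', h4, ?_⟩
            show finSumFinEquiv (pp z') = finSumFinEquiv (pp z)
            rw [hp0 z' hz', hp0 z hz0, h5]
          · have h4 := hr0' x hx0 y hy0 h3
            have h5 : ∀ u ∈ C0, (R u z ↔ Φ (κ u) (κ z)) := by
              intro u hu
              by_contra hcon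
              exact hz1.2 (hC0cl u hu z hz (hstep u hu.1 z hz hcon))
            refine ⟨z, hz, ?_, rfl⟩
            rw [h5 y hy0, ← h4.2]
            exact (h5 x hx0).mp hxz
        · rw [hp0 x hx0, hp1 y hy1] at hpp
          exact absurd hpp (by simp)
      · rcases hcases y hy with hy0 | hy1
        · rw [hp1 x hx1, hp0 y hy0] at hpp
          exact absurd hpp (by simp)
        · rw [hp1 x hx1, hp1 y hy1] at hpp
          have h3 : π1 x = π1 y := Sum.inr.inj hpp
          rcases hcases z hz with hz0 | hz1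
          · have h4 := (hr1' x hx1 y hy1 h3).2
            have h5 : π0 z ∈ ({j | ∃ z ∈ C0, R x z ∧ π0 z = j} : Set (Fin g0)) :=
              ⟨z, hz0, hxz, rfl⟩
            rw [h4] at h5
            obtain ⟨z', hz', h6, h7⟩ := h5
            refine ⟨z', hC0sub hz', h6, ?_⟩
            show finSumFinEquiv (pp z') = finSumFinEquiv (pp z)
            rw [hp0 z' hz', hp0 z hz0, h7]
          · obtain ⟨z', hz', h4, h5⟩ := hs1 x hx1 y hy1 h3 z hz1 hxz
            refine ⟨z', hC1sub hz', h4, ?_⟩
            show finSumFinEquiv (pp z') = finSumFinEquiv (pp z)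
            rw [hp1 z' hz', hp1 z hz1, h5]
    · intro x hx y hy hxy
      have hpp : pp x = pp y := finSumFinEquiv.injective hxy
      rcases hcases x hx with hx0 | hx1
      · rcases hcases y hy with hy0 | hy1
        · rw [hp0 x hx0, hp0 y hy0] at hpp
          exact (hr0' x hx0 y hy0 (Sum.inl.inj hpp)).1
        · rw [hp0 x hx0, hp1 y hy1] at hpp
          exact absurd hpp (by simp)
      · rcases hcases y hy with hy0 | hy1
        · rw [hp1 x hx1, hp0 y hy0] at hpp
          exact absurd hpp (by simp)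
        · rw [hp1 x hx1, hp1 y hy1] at hpp
          exact (hr1' x hx1 y hy1 (Sum.inr.inj hpp)).1

/-- Removing finitely many points. -/
theorem tame_remove (c s N : ℕ) : ∃ N' : ℕ, ∀ {V : Type} (R : V → V → Prop) (C S : Set V)
    (_ : S.Finite) (_ : S.ncard ≤ s), Tame R (C \ S) (c * 4 ^ s) N → Tame R C c N' := by
  classical
  refine ⟨s + N, ?_⟩
  intro V R C S hS hs hT χ
  have _ : Fintype S := hS.fintype
  have hc : Fintype.card S ≤ Fintype.card (Fin s) := by
    rw [Fintype.card_fin, ← Nat.card_eq_fintype_card]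
    exact hs
  obtain ⟨i⟩ : Nonempty (S ↪ Fin s) := Function.Embedding.nonempty_of_card_le hc
  have hcard : Fintype.card (Fin c × (Set (Fin s) × Set (Fin s))) = c * 4 ^ s := by
    have h3 : (4 : ℕ) ^ s = 2 ^ s * 2 ^ s := by
      rw [← mul_pow]
      norm_num
    simp [h3]
  let e : Fin c × (Set (Fin s) × Set (Fin s)) ≃ Fin (c * 4 ^ s) :=
    Fintype.equivFinOfCardEq hcard
  obtain ⟨π, hs1, hr1⟩ := hT (fun x => e (χ x, ({j | ∃ t : S, i t = j ∧ R x t},
    {j | ∃ t : S, i t = j ∧ R t x})))
  have hr : ∀ x ∈ C \ S, ∀ y ∈ C \ S, π x = π y → χ x = χ y ∧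
      ({j | ∃ t : S, i t = j ∧ R x t} : Set (Fin s)) = {j | ∃ t : S, i t = j ∧ R y t} := by
    intro x hx y hy hxy
    have h3 := e.injective (hr1 x hx y hy hxy)
    exact ⟨congrArg Prod.fst h3, congrArg (fun q => q.2.1) h3⟩
  let pp : V → Fin s ⊕ Fin N := fun x => if h : x ∈ S then Sum.inl (i ⟨x, h⟩) else Sum.inr (π x)
  have hp0 : ∀ x (h : x ∈ S), pp x = Sum.inl (i ⟨x, h⟩) := fun x h => dif_pos h
  have hp1 : ∀ x, x ∉ S → pp x = Sum.inr (π x) := fun x h => dif_neg h
  refine ⟨fun x => finSumFinEquiv (pp x), ?_, ?_⟩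
  · intro x hx y hy hxy z hz hxz
    have hpp : pp x = pp y := finSumFinEquiv.injective hxy
    by_cases hxS : x ∈ S
    · by_cases hyS : y ∈ S
      · rw [hp0 x hxS, hp0 y hyS] at hpp
        have h3 := i.injective (Sum.inl.inj hpp)
        have h4 : x = y := congrArg Subtype.val h3
        subst h4
        exact ⟨z, hz, hxz, rfl⟩
      · rw [hp0 x hxS, hp1 y hyS] at hpp
        exact absurd hpp (by simp)
    · by_cases hyS : y ∈ S
      · rw [hp1 x hxS, hp0 y hyS] at hpp
        exact absurd hpp (by simp)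
      · rw [hp1 x hxS, hp1 y hyS] at hpp
        have h3 : π x = π y := Sum.inr.inj hpp
        by_cases hzS : z ∈ S
        · have h4 := (hr x ⟨hx, hxS⟩ y ⟨hy, hyS⟩ h3).2
          have h5 : i ⟨z, hzS⟩ ∈ ({j | ∃ t : S, i t = j ∧ R x t} : Set (Fin s)) :=
            ⟨⟨z, hzS⟩, rfl, hxz⟩
          rw [h4] at h5
          obtain ⟨t, h6, h7⟩ := h5
          have h8 := i.injective h6
          have h9 : (t : V) = z := congrArg Subtype.val h8
          rw [h9] at h7
          exact ⟨z, hz, h7, rfl⟩
        · obtain ⟨z', hz', h4, h5⟩ := hs1 x ⟨hx, hxS⟩ y ⟨hy, hyS⟩ h3 z ⟨hz, hzS⟩ hxz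
          refine ⟨z', hz'.1, h4, ?_⟩
          show finSumFinEquiv (pp z') = finSumFinEquiv (pp z)
          rw [hp1 z' hz'.2, hp1 z hzS, h5]
  · intro x hx y hy hxy
    have hpp : pp x = pp y := finSumFinEquiv.injective hxy
    by_cases hxS : x ∈ S
    · by_cases hyS : y ∈ S
      · rw [hp0 x hxS, hp0 y hyS] at hpp
        have h3 := i.injective (Sum.inl.inj hpp)
        have h4 : x = y := congrArg Subtype.val h3
        rw [h4]
      · rw [hp0 x hxS, hp1 y hyS] at hpp
        exact absurd hpp (by simp)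
    · by_cases hyS : y ∈ S
      · rw [hp1 x hxS, hp0 y hyS] at hpp
        exact absurd hpp (by simp)
      · rw [hp1 x hxS, hp1 y hyS] at hpp
        exact (hr x ⟨hx, hxS⟩ y ⟨hy, hyS⟩ (Sum.inr.inj hpp)).1

end KTab
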