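import Pool.Agent.KTab.Types
import Pool.Agent.KTab.Glue
import Pool.Agent.KTab.DepthD
import Pool.Agent.KBT.One

/-!
The ultrapower as a type of germs, with representatives rp.
ntRemove: if C is not tame (NT) then C minus the points of a finite set of germs is not tame
(tame_remove; for almost all n).  nt_point: NT sets contain a germ (if C n were empty for almost all
n then C n would be tame with one class; V is nonempty).
-/

set_option autoImplicit false

namespace KTab

open Filter KBT

/-- Germs of sequences. -/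
abbrev GV (V : Type) : Type := Filter.Germ (hyperfilter ℕ : Filter ℕ) V

/-- A representative. -/
noncomputable def rp {V : Type} (x : GV V) : ℕ → V := Quotient.out x

private theorem Germs_out {V : Type} (x : GV V) : ((rp x : ℕ → V) : GV V) = x :=
  Quotient.out_eq x

theorem rp_mk {V : Type} (f : ℕ → V) :
    rp (f : GV V) =ᶠ[(hyperfilter ℕ : Filter ℕ)] f :=
  Filter.Germ.coe_eq.1 (Germs_out (f : GV V))

theorem rp_eq {V : Type} (x y : GV V) :
    x = y ↔ rp x =ᶠ[(hyperfilter ℕ : Filter ℕ)] rp y := by
  rw [← Filter.Germ.coe_eq, Germs_out, Germs_out]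

/-- The relation between germs. -/
def RG {V : Type} (R : V → V → Prop) (x y : GV V) : Prop :=
  Rs (hyperfilter ℕ) R (rp x) (rp y)

/-- The set of germs with values in C n. -/
def CS {V : Type} (C : ℕ → Set V) : Set (GV V) :=
  {x | ∀ᶠ n in (hyperfilter ℕ : Filter ℕ), rp x n ∈ C n}

theorem nt_point {V : Type} {R : V → V → Prop} {C : ℕ → Set V} (hC : NT R C) :
    (CS C).Nonempty := by
  obtain ⟨v, hv, -⟩ := KBT.pt hC ∅
  refine ⟨(v : GV V), ?_⟩
  have h1 : ∀ᶠ n in (hyperfilter ℕ : Filter ℕ), rp (v : GV V) n ∈ C n := by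
    filter_upwards [hv, rp_mk v] with n h2 h3
    rw [h3]
    exact h2
  exact h1

theorem ntRemove {V : Type} {R : V → V → Prop} {C : ℕ → Set V} (hC : NT R C)
    (S : Finset (GV V)) : NT R (fun n => C n \ {a | ∃ s ∈ S, a = rp s n}) := by
  classical
  obtain ⟨c, hc⟩ := hC
  refine ⟨c * 4 ^ S.card, fun N => ?_⟩
  obtain ⟨N', hN'⟩ := tame_remove c S.card N
  filter_upwards [hc N'] with n hn
  intro hT
  have h1 : {a | ∃ s ∈ S, a = rp s n} = ((S.image fun s => rp s n : Finset V) : Set V) := by
    ext a
    simp only [Set.mem_ofPred_eq, Finset.coe_image, Set.mem_image, Finset.mem_coe]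
    constructor
    · rintro ⟨s, hs, rfl⟩
      exact ⟨s, hs, rfl⟩
    · rintro ⟨s, hs, rfl⟩
      exact ⟨s, hs, rfl⟩
  apply hn
  refine hN' R (C n) {a | ∃ s ∈ S, a = rp s n} ?_ ?_ hT
  · rw [h1]
    exact Finset.finite_toSet _
  · rw [h1, Set.ncard_coe_finset]
    exact Finset.card_image_le

end KTab
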