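import Pool.Agent.KTab.Amal

/-!
Inverse limits of index sets.  PROOF.  For N let down N k : J N → J k for k ≤ N be the composition
of the maps π (define s N : J N → ∀ k, J k by recursion: (s N x) N = x, (s N x) k =
π k ((s N x) (k+1)) for k < N; (s N x) k arbitrary for k > N, using that each J k is nonempty
because it carries an ultrafilter).  It may be easier to define for each k the map by recursion on
N: dn : ∀ N, J N → ∀ k, J k with dn 0 x := update (arbitrary) 0 x and
dn (N+1) x := update (dn N (π N x)) (N+1) x (Function.update on dependent functions).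
Then (dn N x) N = x and π k ((dn N x) (k+1)) = (dn N x) k for k < N, and the law of (dn N ·) k
under 𝒥 N is 𝒥 k for k ≤ N (induction on N, mp_comp).
𝒦 := (hyperfilter ℕ).bind (fun N => (𝒥 N).map (dn N)); MP for the evaluation at k since almost
all N are ≥ k.
-/

set_option autoImplicit false

namespace KTab

open Filter KBT

/-- The thread below a point of J N (arbitrary above N). -/
private noncomputable def InvLim_dn {J : ℕ → Type} (π : ∀ n, J (n+1) → J n) (z : ∀ k, J k) :
    ∀ N, J N → ∀ k, J k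
  | 0, x => Function.update z 0 x
  | N+1, x => Function.update (InvLim_dn π z N (π N x)) (N+1) x

private theorem InvLim_dn_self {J : ℕ → Type} (π : ∀ n, J (n+1) → J n) (z : ∀ k, J k) (N : ℕ)
    (x : J N) : InvLim_dn π z N x N = x := by
  cases N with
  | zero => simp [InvLim_dn]
  | succ N => simp [InvLim_dn]

private theorem InvLim_dn_le {J : ℕ → Type} (π : ∀ n, J (n+1) → J n) (z : ∀ k, J k) (N k : ℕ)
    (hk : k ≤ N) (x : J (N+1)) : InvLim_dn π z (N+1) x k = InvLim_dn π z N (π N x) k := by
  have h : k ≠ N+1 := by omega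
  simp [InvLim_dn, Function.update_of_ne h]

private theorem InvLim_dn_thread {J : ℕ → Type} (π : ∀ n, J (n+1) → J n) (z : ∀ k, J k)
    (N : ℕ) : ∀ (x : J N) (k : ℕ), k < N →
      π k (InvLim_dn π z N x (k+1)) = InvLim_dn π z N x k := by
  induction N with
  | zero => intro x k hk; omega
  | succ N ih =>
    intro x k hk
    rcases Nat.lt_or_ge k N with h | h
    · rw [InvLim_dn_le π z N (k+1) (by omega), InvLim_dn_le π z N k (by omega)]
      exact ih (π N x) k h
    · have hkN : k = N := by omega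
      subst hkN
      rw [InvLim_dn_self, InvLim_dn_le π z k k le_rfl, InvLim_dn_self]

private theorem InvLim_dn_mp {J : ℕ → Type} (𝒥 : ∀ n, Ultrafilter (J n))
    (π : ∀ n, J (n+1) → J n) (hπ : ∀ n, MP (𝒥 (n+1)) (𝒥 n) (π n)) (z : ∀ k, J k)
    (N : ℕ) : ∀ k, k ≤ N → MP (𝒥 N) (𝒥 k) (fun x => InvLim_dn π z N x k) := by
  induction N with
  | zero =>
    intro k hk
    have hk0 : k = 0 := by omega
    subst hk0
    have h : (fun x : J 0 => InvLim_dn π z 0 x 0) = id := by
      funext x
      exact InvLim_dn_self π z 0 x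
    rw [h]
    exact mp_id _
  | succ N ih =>
    intro k hk
    rcases Nat.lt_or_ge k (N+1) with h | h
    · have h1 : (fun x : J (N+1) => InvLim_dn π z (N+1) x k)
          = (fun y : J N => InvLim_dn π z N y k) ∘ π N := by
        funext x
        exact InvLim_dn_le π z N k (by omega) x
      rw [h1]
      exact mp_comp (hπ N) (ih k (by omega))
    · have hkN : k = N+1 := by omega
      subst hkN
      have h1 : (fun x : J (N+1) => InvLim_dn π z (N+1) x (N+1)) = id := by
        funext x
        exact InvLim_dn_self π z (N+1) x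
      rw [h1]
      exact mp_id _

private theorem InvLim_hyper_ge (n : ℕ) : ∀ᶠ N in (hyperfilter ℕ : Filter ℕ), n ≤ N := by
  have h : ∀ᶠ N in Filter.cofinite, n ≤ N := by
    rw [Nat.cofinite_eq_atTop]
    exact Filter.eventually_ge_atTop n
  exact Filter.hyperfilter_le_cofinite h

theorem invLim (J : ℕ → Type) (𝒥 : ∀ n, Ultrafilter (J n)) (π : ∀ n, J (n+1) → J n)
    (hπ : ∀ n, MP (𝒥 (n+1)) (𝒥 n) (π n)) :
    ∃ 𝒦 : Ultrafilter (∀ n, J n), (∀ n, MP 𝒦 (𝒥 n) (fun x => x n)) ∧
      ∀ n, ∀ᶠ x in (𝒦 : Filter (∀ n, J n)), π n (x (n+1)) = x n := by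
  classical
  have hne : ∀ k, Nonempty (J k) := fun k =>
    Filter.nonempty_of_neBot (𝒥 k : Filter (J k))
  let z : ∀ k, J k := fun k => (hne k).some
  let 𝒦 : Ultrafilter (∀ n, J n) :=
    (hyperfilter ℕ).bind (fun N => (𝒥 N).map (InvLim_dn π z N))
  have hev : ∀ P : (∀ n, J n) → Prop, (∀ᶠ x in (𝒦 : Filter (∀ n, J n)), P x) ↔
      ∀ᶠ N in (hyperfilter ℕ : Filter ℕ), ∀ᶠ j in (𝒥 N : Filter (J N)),
        P (InvLim_dn π z N j) := fun P => Iff.rfl
  refine ⟨𝒦, ?_, ?_⟩
  · intro n P
    rw [hev]
    have h1 : (∀ᶠ N in (hyperfilter ℕ : Filter ℕ), ∀ᶠ j in (𝒥 N : Filter (J N)),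
        P (InvLim_dn π z N j n)) ↔
        ∀ᶠ _N in (hyperfilter ℕ : Filter ℕ), ∀ᶠ i in (𝒥 n : Filter (J n)), P i := by
      apply Filter.eventually_congr
      filter_upwards [InvLim_hyper_ge n] with N hN
      exact InvLim_dn_mp 𝒥 π hπ z N n hN P
    rw [h1, Filter.eventually_const]
  · intro n
    rw [hev]
    filter_upwards [InvLim_hyper_ge (n+1)] with N hN
    exact Filter.Eventually.of_forall fun j => InvLim_dn_thread π z N j n (by omega)

end KTab
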