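import Pool.Agent.KTab.Defs
import Pool.Agent.KBT.PPkill

/-!
Copy of KBT.liftP (Pool/Agent/KBT/LiftP.lean) with one more clause: negative relations are also
controlled upwards.  PROOF: as liftP.  Choose u b a in (p a).s with: if not Rel f (p b) (p a) then
dia f (u b a) is not in (p b).s.  Start from
P0 a := (range n).inf (u b a over b) ⊓ (range n).inf (over b: if Rel f (p a) (p b) then ⊤ else
(dia f (u a b))ᶜ), an element of (p a).s, and continue exactly as in liftP (P i ≤ P0 i).  For a < b
with not Rel f (p a) (p b): P a ≤ (dia f (u a b))ᶜ and dia f (P b) ≤ dia f (u a b).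
-/

set_option autoImplicit false

namespace KTab

open KBT

variable {A : Type} [BooleanAlgebra A]

theorem lift2 {f : A → A} (htop : f ⊤ = ⊤) (hinf : ∀ a b : A, f (a ⊓ b) = f a ⊓ f b)
    (p : ℕ → Pt A) (n : ℕ) :
    ∃ P : ℕ → A, (∀ i < n, P i ∈ (p i).s) ∧
      (∀ a b, a < b → b < n → ((Rel f (p b) (p a) → P b ≤ dia f (P a)) ∧
        (¬ Rel f (p b) (p a) → P b ⊓ dia f (P a) = ⊥))) ∧
      (∀ a b, a < b → b < n → ¬ Rel f (p a) (p b) → P a ⊓ dia f (P b) = ⊥) := by
  classical
  have hu : ∀ b a, ∃ u : A, u ∈ (p a).s ∧ (¬ Rel f (p b) (p a) → dia f u ∉ (p b).s) := by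
    intro b a
    by_cases h : Rel f (p b) (p a)
    · exact ⟨⊤, (p a).top_mem, fun h' => absurd h h'⟩
    · obtain ⟨u, hu1, hu2⟩ := not_rel _ _ h
      exact ⟨u, hu1, fun _ => hu2⟩
  choose u hu1 hu2 using hu
  let Q : ℕ → ℕ → A := fun a b => if Rel f (p a) (p b) then ⊤ else (dia f (u a b))ᶜ
  let P0 : ℕ → A := fun a => (Finset.range n).inf (fun b => u b a) ⊓ (Finset.range n).inf (Q a)
  have hQ : ∀ a b, Q a b ∈ (p a).s := by
    intro a b
    by_cases h : Rel f (p a) (p b)
    · simp only [Q, h, if_true]
      exact (p a).top_mem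
    · simp only [Q, h, if_false]
      rw [(p a).compl]
      exact hu2 a b h
  have hP0 : ∀ a, P0 a ∈ (p a).s := by
    intro a
    simp only [P0]
    rw [(p a).inf]
    exact ⟨(finset_inf_mem _ _ _).mpr fun b _ => hu1 b a, (finset_inf_mem _ _ _).mpr fun b _ => hQ a b⟩
  have hP0u : ∀ a b, b < n → P0 a ≤ u b a := fun a b hb =>
    inf_le_left.trans (Finset.inf_le (f := fun b => u b a) (Finset.mem_range.mpr hb))
  have hP0Q : ∀ a b, b < n → P0 a ≤ Q a b := fun a b hb =>
    inf_le_right.trans (Finset.inf_le (f := Q a) (Finset.mem_range.mpr hb))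
  have key : ∀ k ≤ n, ∃ P : ℕ → A, (∀ i < k, P i ∈ (p i).s ∧ P i ≤ P0 i) ∧
      ∀ a b, a < b → b < k → ((Rel f (p b) (p a) → P b ≤ dia f (P a)) ∧
        (¬ Rel f (p b) (p a) → P b ⊓ dia f (P a) = ⊥)) := by
    intro k
    induction k with
    | zero =>
      intro _
      exact ⟨fun _ => ⊤, fun i hi => absurd hi (Nat.not_lt_zero i),
        fun a b _ hb => absurd hb (Nat.not_lt_zero b)⟩
    | succ k ih =>
      intro hk
      obtain ⟨P, h1, h2⟩ := ih (by omega)
      let q : ℕ → A := fun a => if Rel f (p k) (p a) then dia f (P a) else (dia f (P a))ᶜ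
      have hq : ∀ a < k, q a ∈ (p k).s := by
        intro a ha
        by_cases h : Rel f (p k) (p a)
        · simp only [q, h, if_true]
          exact (dia_mem htop hinf _ _).mpr ⟨p a, h, (h1 a ha).1⟩
        · simp only [q, h, if_false]
          rw [(p k).compl]
          intro h3
          have h4 : P a ≤ u k a := (h1 a ha).2.trans (hP0u a k (by omega))
          exact hu2 k a h ((p k).mono (dia_mono hinf h4) h3)
      refine ⟨fun i => if i = k then P0 k ⊓ (Finset.range k).inf q else P i, ?_, ?_⟩
      · intro i hi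
        by_cases hik : i = k
        · simp only [hik, if_true]
          refine ⟨?_, inf_le_left⟩
          rw [(p k).inf]
          exact ⟨hP0 k, (finset_inf_mem _ _ _).mpr fun a ha => hq a (Finset.mem_range.mp ha)⟩
        · simp only [hik, if_false]
          exact h1 i (by omega)
      · intro a b hab hb
        have hak : a ≠ k := by omega
        by_cases hbk : b = k
        · simp only [hbk, hak, if_true, if_false]
          have h3 : P0 k ⊓ (Finset.range k).inf q ≤ q a :=
            inf_le_right.trans (Finset.inf_le (Finset.mem_range.mpr (by omega)))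
          constructor
          · intro h
            simp only [q, h, if_true] at h3
            exact h3
          · intro h
            simp only [q, h, if_false] at h3
            rw [← le_bot_iff]
            calc (P0 k ⊓ (Finset.range k).inf q) ⊓ dia f (P a)
                ≤ (dia f (P a))ᶜ ⊓ dia f (P a) := inf_le_inf_right _ h3
              _ = ⊥ := compl_inf_eq_bot
        · simp only [hbk, hak, if_false]
          exact h2 a b hab (by omega)
  obtain ⟨P, h1, h2⟩ := key n le_rfl
  refine ⟨P, fun i hi => (h1 i hi).1, h2, ?_⟩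
  intro a b hab hb h
  have h3 : P a ≤ (dia f (u a b))ᶜ := by
    have h4 := (h1 a (by omega)).2.trans (hP0Q a b hb)
    simp only [Q, h, if_false] at h4
    exact h4
  have h5 : P b ≤ u a b := (h1 b hb).2.trans (hP0u b a (by omega))
  rw [← le_bot_iff]
  calc P a ⊓ dia f (P b) ≤ (dia f (u a b))ᶜ ⊓ dia f (u a b) :=
        inf_le_inf h3 (dia_mono hinf h5)
    _ = ⊥ := compl_inf_eq_bot

end KTab
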