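import Pool.Agent.KTab.Lim1

/-!
Terminal functions and ultralimits.  In this file f is a terminal function on (I, 𝒲), and no
point is in all sets C i.

twoPos: index set L3 := Σ n, J n × J n × J n with sigU of prodU (𝒥 n) (prodU (𝒥 n) (𝒥 n)),
maps p1, p2, p3 : L3 → Σ n, J n, ⟨n, (j1, j', j2)⟩ ↦ ⟨n, j1⟩, ⟨n, j'⟩, ⟨n, j2⟩, all MP to sigU 𝒥
(ev_sigU, ev_prodU, eventually_const).  G ∘ p1 → H ∘ p2 and G ∘ p3 → H ∘ p2 are NN on L3: D1 and D2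
are D1 and D2 of (G, H) by D1_pull, D2_pull; Rs (G ∘ p1) (H ∘ p2) is the limit over n of
D1 (g n) (h n), which is v; Rs (G ∘ p3) (H ∘ p2) is the limit of D2 (g n) (h n) (the column j' is
chosen before the row j2), also v; hv says that D1, D2 of (G, H) are not both v.  So f ∘ Φ ∘ p1
and f ∘ Φ ∘ p3 reach H ∘ p2 (Φ ⟨n, j⟩ = φ n j); by Term for the extension Φ ∘ p3
RX (H ∘ p2) (f ∘ Φ ∘ p3): on an extension L4 of L3 f (first copy) reaches f (second copy), where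
the pair (Φ ∘ p1, Φ ∘ p3) has the law JL.  noCopyRT.
-/

set_option autoImplicit false

namespace KTab

open Filter KBT

variable {M I : Type} {R : M → M → Prop} {m : ℕ} {C : ℕ → Set M} {𝒲 : Ultrafilter I} {f : I → M}

theorem twoPos (hG : Good R m) (hC : ∀ x, ∃ i, x ∉ C i) (hf : Term C 𝒲 R f) {J : ℕ → Type}
    (𝒥 : ∀ n, Ultrafilter (J n)) (φ : ∀ n, J n → I) (hφ : ∀ n, MP (𝒥 n) 𝒲 (φ n))
    (g h : ∀ n, J n → M)
    (hg : RT (sigU 𝒥) R (Dp C (sigU 𝒥)) (fun p : Σ n, J n => f (φ p.1 p.2))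
      (fun p => g p.1 p.2))
    (hg1 : Dp C (sigU 𝒥) (fun p : Σ n, J n => g p.1 p.2))
    (hh1 : Dp C (sigU 𝒥) (fun p : Σ n, J n => h p.1 p.2)) (v : Prop)
    (h1 : ∀ᶠ n in (hyperfilter ℕ : Filter ℕ), (D1 (𝒥 n) R (g n) (h n) ↔ v))
    (h2 : ∀ᶠ n in (hyperfilter ℕ : Filter ℕ), (D2 (𝒥 n) R (g n) (h n) ↔ v))
    (hv : ¬ ((D1 (sigU 𝒥) R (fun p : Σ n, J n => g p.1 p.2) (fun p => h p.1 p.2) ↔ v) ∧
      (D2 (sigU 𝒥) R (fun p : Σ n, J n => g p.1 p.2) (fun p => h p.1 p.2) ↔ v))) : False := by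
  classical
  -- the index set with three independent points
  let 𝒦 : Ultrafilter (Σ n, J n × (J n × J n)) :=
    sigU (fun n => prodU (𝒥 n) (prodU (𝒥 n) (𝒥 n)))
  let p1 : (Σ n, J n × (J n × J n)) → Σ n, J n := fun l => ⟨l.1, l.2.1⟩
  let p2 : (Σ n, J n × (J n × J n)) → Σ n, J n := fun l => ⟨l.1, l.2.2.1⟩
  let p3 : (Σ n, J n × (J n × J n)) → Σ n, J n := fun l => ⟨l.1, l.2.2.2⟩
  let Φ : (Σ n, J n) → I := fun p => φ p.1 p.2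
  let G : (Σ n, J n) → M := fun p => g p.1 p.2
  let H : (Σ n, J n) → M := fun p => h p.1 p.2
  have hev : ∀ P : (Σ n, J n × (J n × J n)) → Prop,
      (∀ᶠ l in (𝒦 : Filter _), P l) ↔ ∀ᶠ n in (hyperfilter ℕ : Filter ℕ),
        ∀ᶠ a in (𝒥 n : Filter (J n)), ∀ᶠ b in (𝒥 n : Filter (J n)),
          ∀ᶠ c in (𝒥 n : Filter (J n)), P ⟨n, (a, (b, c))⟩ := by
    intro P
    rfl
  have m1 : MP 𝒦 (sigU 𝒥) p1 := by
    intro P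
    rw [hev, ev_sigU]
    simp only [p1, eventually_const]
  have m2 : MP 𝒦 (sigU 𝒥) p2 := by
    intro P
    rw [hev, ev_sigU]
    simp only [p2, eventually_const]
  have m3 : MP 𝒦 (sigU 𝒥) p3 := by
    intro P
    rw [hev, ev_sigU]
    simp only [p3, eventually_const]
  have mΦ : MP (sigU 𝒥) 𝒲 Φ := by
    intro P
    rw [ev_sigU]
    have e1 : ∀ n, (∀ᶠ j in (𝒥 n : Filter (J n)), P (Φ ⟨n, j⟩)) ↔ ∀ᶠ i in (𝒲 : Filter I), P i :=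
      fun n => hφ n P
    simp only [e1, eventually_const]
  -- the value v
  have r1 : Rs 𝒦 R (G ∘ p1) (H ∘ p2) ↔ v := by
    unfold Rs
    rw [hev]
    have e1 : (∀ᶠ n in (hyperfilter ℕ : Filter ℕ), D1 (𝒥 n) R (g n) (h n)) ↔
        ∀ᶠ _n in (hyperfilter ℕ : Filter ℕ), v := eventually_congr h1
    rw [eventually_const] at e1
    rw [← e1]
    simp only [eventually_const, D1, G, H, p1, p2, Function.comp_apply]
  have r3 : Rs 𝒦 R (G ∘ p3) (H ∘ p2) ↔ v := by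
    unfold Rs
    rw [hev]
    have e1 : (∀ᶠ n in (hyperfilter ℕ : Filter ℕ), D2 (𝒥 n) R (g n) (h n)) ↔
        ∀ᶠ _n in (hyperfilter ℕ : Filter ℕ), v := eventually_congr h2
    rw [eventually_const] at e1
    rw [← e1]
    simp only [eventually_const, D2, G, H, p3, p2, Function.comp_apply]
  have n1 : NN 𝒦 R (G ∘ p1) (H ∘ p2) := by
    intro hc
    rw [D1_pull m1 m2, D2_pull m1 m2, r1] at hc
    exact hv ⟨hc.1.symm, hc.2.symm⟩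
  have n3 : NN 𝒦 R (G ∘ p3) (H ∘ p2) := by
    intro hc
    rw [D1_pull m3 m2, D2_pull m3 m2, r3] at hc
    exact hv ⟨hc.1.symm, hc.2.symm⟩
  have hfG : RT (sigU 𝒥) R (Dp C (sigU 𝒥)) (f ∘ Φ) G := hg
  have hdG : Dp C (sigU 𝒥) G := hg1
  have hdH : Dp C (sigU 𝒥) H := hh1
  have s1 : RT 𝒦 R (Dp C 𝒦) (f ∘ Φ ∘ p1) (H ∘ p2) := by
    have t1 : RT 𝒦 R (Dp C 𝒦) ((f ∘ Φ) ∘ p1) (G ∘ p1) :=
      RT_pull m1 (D' := Dp C 𝒦) (fun u hu => (Dp_pull m1 C u).mpr hu) hfG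
    exact Relation.ReflTransGen.tail t1
      ⟨(Dp_pull m1 C G).mpr hdG, (Dp_pull m2 C H).mpr hdH, Or.inl n1⟩
  have s3 : RT 𝒦 R (Dp C 𝒦) (f ∘ Φ ∘ p3) (H ∘ p2) := by
    have t1 : RT 𝒦 R (Dp C 𝒦) ((f ∘ Φ) ∘ p3) (G ∘ p3) :=
      RT_pull m3 (D' := Dp C 𝒦) (fun u hu => (Dp_pull m3 C u).mpr hu) hfG
    exact Relation.ReflTransGen.tail t1
      ⟨(Dp_pull m3 C G).mpr hdG, (Dp_pull m2 C H).mpr hdH, Or.inl n3⟩
  obtain ⟨L, ℒ, ψ, hψ, hR⟩ := hf.2 _ 𝒦 (Φ ∘ p3) (H ∘ p2) (mp_comp m3 mΦ) s3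
  have s4 : RT ℒ R (Dp C ℒ) ((f ∘ Φ ∘ p1) ∘ ψ) ((H ∘ p2) ∘ ψ) :=
    RT_pull hψ (D' := Dp C ℒ) (fun u hu => (Dp_pull hψ C u).mpr hu) s1
  have s5 : RT ℒ R (Dp C ℒ) (f ∘ (Φ ∘ p1 ∘ ψ)) (f ∘ (Φ ∘ p3 ∘ ψ)) :=
    Relation.ReflTransGen.trans s4 hR
  refine noCopyRT hG hC hf.1 ℒ (Φ ∘ p1 ∘ ψ) (Φ ∘ p3 ∘ ψ) ?_ s5
  intro P
  have e1 : (∀ᶠ j in (ℒ : Filter L), P ((Φ ∘ p1 ∘ ψ) j) ((Φ ∘ p3 ∘ ψ) j)) ↔
      ∀ᶠ l in (𝒦 : Filter _), P (Φ (p1 l)) (Φ (p3 l)) := hψ (fun l => P (Φ (p1 l)) (Φ (p3 l)))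
  rw [e1, hev]
  have e2 : ∀ n, (∀ᶠ a in (𝒥 n : Filter (J n)), ∀ᶠ _b in (𝒥 n : Filter (J n)),
      ∀ᶠ c in (𝒥 n : Filter (J n)), P (φ n a) (φ n c)) ↔
      ∀ᶠ a in (𝒲 : Filter I), ∀ᶠ b in (𝒲 : Filter I), P a b := by
    intro n
    rw [← hφ n (fun a => ∀ᶠ b in (𝒲 : Filter I), P a b)]
    refine eventually_congr (Eventually.of_forall fun a => ?_)
    rw [eventually_const]
    exact hφ n (fun b => P (φ n a) b)
  have e3 : (∀ᶠ n in (hyperfilter ℕ : Filter ℕ),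
        ∀ᶠ a in (𝒥 n : Filter (J n)), ∀ᶠ _b in (𝒥 n : Filter (J n)),
          ∀ᶠ c in (𝒥 n : Filter (J n)), P (φ n a) (φ n c)) ↔
      ∀ᶠ _n in (hyperfilter ℕ : Filter ℕ), ∀ᶠ a in (𝒲 : Filter I), ∀ᶠ b in (𝒲 : Filter I), P a b :=
    eventually_congr (Eventually.of_forall e2)
  rw [eventually_const] at e3
  exact e3

end KTab
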