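import Pool.Agent.KTab.NoCopy

/-!
There is no infinite chain without return.

PROOF.  For k < l: rt_cases gives either F k =ᶠ F l (impossible: then RT (F l) (F k) by an
equality step; D holds for the ends since the chain is not constant, see below) or a path of
NN-steps q k l of length n k l, 1 ≤ n k l < m, all elements with D.  By pigeonhole
(KBT.ev_pigeon, 𝒰 := hyperfilter ℕ, 𝒥 := prodU 𝒰 𝒰) n k l = n for almost all (k, l).  For σ < n let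
α σ, β σ, γ σ be the limits (over 𝒥) of Rs, D1, D2 of (q k l σ, q k l (σ+1)) with respect to 𝒦;
they are not all equal (NN).  δ σ := ∀ᶠ (k', l') in 𝒥, ∀ᶠ (k, l) in 𝒥,
Rs 𝒦 R (q k l σ) (q k' l' (σ+1)); for l' < k there is no NN between these (else F k reaches F l',
l' < k), so also D1 and D2 of (q k l σ, q k' l' (σ+1)) are δ σ generically.
Choose for each σ < n a mode: = if α σ ≠ δ σ, else < if β σ ≠ δ σ, else > (then γ σ ≠ δ σ).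
Times c σ (k, l) : ℚ.  Let u, w be the numbers of modes < and > among σ < n.
If u = w = 0: c = 0, τ k := 0.  If u > 0: τ k := k, c 0 = k, a step < adds ((l - k) + w) / u, a
step > adds -1, a step = adds 0, so c n = l; the signs are right when k < l.  If u = 0, w > 0:
τ k := -k, c 0 = -k, a step > adds -(l - k) / w, c n = -l.
In the structure Tw 𝒦 R on (K → W) × ℚ (good by good_Tw) with index set ℕ × ℕ, ultrafilter 𝒥:
P σ (k, l) := (q k l σ, c σ (k, l)), X k := (F k, τ k), P 0 = X ∘ fst, P n = X ∘ snd almost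
everywhere.  NN 𝒥 (Tw 𝒦 R) (P σ) (P (σ+1)): Rs is the value of the mode, ≠ δ σ; D2 is δ σ
(whatever the times are).  noCopy with 𝒜 := 𝒰, π₁ = fst, π₂ = snd, JL by ev_prodU.
(The hypothesis hD gives D (F k).)
-/

set_option autoImplicit false

namespace KTab

open Filter KBT

private theorem nc_pigeon {α β : Type*} (𝒰 : Ultrafilter α) {𝒟 : Set β} (hfin : 𝒟.Finite)
    (D : α → β) (hD : ∀ᶠ a in (𝒰 : Filter α), D a ∈ 𝒟) :
    ∃ d ∈ 𝒟, ∀ᶠ a in (𝒰 : Filter α), D a = d := by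
  have h1 : (⋃ d ∈ 𝒟, {a | D a = d}) ∈ 𝒰 := by
    refine Filter.mem_of_superset hD ?_
    intro a ha
    simp only [Set.mem_iUnion, Set.mem_ofPred_eq, exists_prop]
    exact ⟨D a, ha, rfl⟩
  rw [Ultrafilter.finite_biUnion_mem_iff hfin] at h1
  exact h1

private theorem nc_gt (k : ℕ) : ∀ᶠ l in (hyperfilter ℕ : Filter ℕ), k < l := by
  have h : (hyperfilter ℕ : Filter ℕ) ≤ atTop := by
    rw [← Nat.cofinite_eq_atTop]
    exact hyperfilter_le_cofinite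
  exact h (eventually_gt_atTop k)

private theorem nc_path {K W : Type*} (𝒦 : Ultrafilter K) {R : W → W → Prop}
    {D : (K → W) → Prop} {n : ℕ} {q : ℕ → K → W}
    (hD : ∀ a ≤ n, D (q a)) (hN : ∀ a < n, NN 𝒦 R (q a) (q (a+1))) (a b : ℕ) (hab : a ≤ b)
    (hb : b ≤ n) : RT 𝒦 R D (q a) (q b) := by
  induction b, hab using Nat.le_induction with
  | base => exact Relation.ReflTransGen.refl
  | succ b hab ih =>
    exact (ih (by omega)).tail ⟨hD b (by omega), hD (b+1) hb, Or.inl (hN b (by omega))⟩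

private theorem nc_Tw_eq {K W : Type*} (𝒲 : Ultrafilter K) (R : W → W → Prop) (f g : K → W)
    {x y : ℚ} (h : x = y) : Tw 𝒲 R (f, x) (g, y) ↔ Rs 𝒲 R f g := by
  unfold Tw
  subst h
  simp

private theorem nc_Tw_lt {K W : Type*} (𝒲 : Ultrafilter K) (R : W → W → Prop) (f g : K → W)
    {x y : ℚ} (h : x < y) : Tw 𝒲 R (f, x) (g, y) ↔ D1 𝒲 R f g := by
  unfold Tw
  simp [h, h.ne, h.not_gt]

private theorem nc_Tw_gt {K W : Type*} (𝒲 : Ultrafilter K) (R : W → W → Prop) (f g : K → W)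
    {x y : ℚ} (h : y < x) : Tw 𝒲 R (f, x) (g, y) ↔ D2 𝒲 R f g := by
  unfold Tw
  simp [h, h.ne', h.not_gt]

private theorem nc_Tw_nn {K W : Type*} (𝒲 : Ultrafilter K) (R : W → W → Prop) (f g : K → W)
    {x y : ℚ} (h : ¬ NN 𝒲 R f g) : Tw 𝒲 R (f, x) (g, y) ↔ Rs 𝒲 R f g := by
  unfold NN at h
  rw [not_not] at h
  rcases lt_trichotomy x y with h1 | h1 | h1
  · rw [nc_Tw_lt 𝒲 R f g h1, h.1]
  · rw [nc_Tw_eq 𝒲 R f g h1]
  · rw [nc_Tw_gt 𝒲 R f g h1, h.2]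

private theorem nc_ab (u w : ℚ) (hu : 0 ≤ u) (hw : 0 ≤ w) :
    ∃ τ : ℕ → ℚ, ∀ k l : ℕ, k < l →
      ∃ a b : ℚ, 0 < a ∧ 0 < b ∧ u * a - w * b = τ l - τ k := by
  rcases hu.eq_or_lt with h | h
  · rcases hw.eq_or_lt with h' | h'
    · refine ⟨fun _ => 0, fun k l _ => ⟨1, 1, one_pos, one_pos, ?_⟩⟩
      rw [← h, ← h']
      ring
    · refine ⟨fun k => -(k : ℚ), fun k l hkl => ⟨1, ((l : ℚ) - k) / w, one_pos, ?_, ?_⟩⟩
      · have : (k : ℚ) < l := by exact_mod_cast hkl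
        exact div_pos (by linarith) h'
      · rw [← h]
        field_simp
        ring
  · refine ⟨fun k => (k : ℚ), fun k l hkl => ⟨((l : ℚ) - k + w) / u, 1, ?_, one_pos, ?_⟩⟩
    · have : (k : ℚ) < l := by exact_mod_cast hkl
      exact div_pos (by linarith) h
    · field_simp
      ring

private theorem nc_times (n : ℕ) (μ : ℕ → ℕ) :
    ∃ (τ : ℕ → ℚ) (c : ℕ → ℕ → ℕ → ℚ), ∀ k l, k < l → c k l 0 = τ k ∧ c k l n = τ l ∧
      ∀ σ, (μ σ = 0 → c k l σ = c k l (σ+1)) ∧ (μ σ = 1 → c k l σ < c k l (σ+1)) ∧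
        (μ σ = 2 → c k l (σ+1) < c k l σ) := by
  classical
  obtain ⟨τ, hτ⟩ := nc_ab (∑ i ∈ Finset.range n, if μ i = 1 then (1:ℚ) else 0)
    (∑ i ∈ Finset.range n, if μ i = 2 then (1:ℚ) else 0)
    (Finset.sum_nonneg fun i _ => by split_ifs <;> norm_num)
    (Finset.sum_nonneg fun i _ => by split_ifs <;> norm_num)
  have h1 : ∀ k l : ℕ, ∃ a b : ℚ, k < l → (0 < a ∧ 0 < b ∧
      (∑ i ∈ Finset.range n, if μ i = 1 then (1:ℚ) else 0) * a -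
        (∑ i ∈ Finset.range n, if μ i = 2 then (1:ℚ) else 0) * b = τ l - τ k) := by
    intro k l
    by_cases hkl : k < l
    · obtain ⟨a, b, h⟩ := hτ k l hkl
      exact ⟨a, b, fun _ => h⟩
    · exact ⟨0, 0, fun h => absurd h hkl⟩
  choose a b hab using h1
  refine ⟨τ, fun k l σ => τ k + ∑ i ∈ Finset.range σ, ((if μ i = 1 then (1:ℚ) else 0) * a k l -
    (if μ i = 2 then (1:ℚ) else 0) * b k l), ?_⟩
  intro k l hkl
  obtain ⟨ha, hb, hs⟩ := hab k l hkl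
  refine ⟨by simp, ?_, ?_⟩
  · dsimp only
    rw [Finset.sum_sub_distrib, ← Finset.sum_mul, ← Finset.sum_mul, hs]
    ring
  · intro σ
    simp only [Finset.sum_range_succ]
    refine ⟨fun h => ?_, fun h => ?_, fun h => ?_⟩
    · simp [h]
    · simp [h, ha]
    · simp [h, hb]

private theorem nc_const {α : Type*} (𝒥 : Ultrafilter α) {T : α → Prop} {v : Prop}
    (h : ∀ᶠ p in (𝒥 : Filter α), (T p ↔ v)) : (∀ᶠ p in (𝒥 : Filter α), T p) ↔ v :=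
  (eventually_congr h).trans eventually_const

theorem noChain {K W : Type*} (𝒦 : Ultrafilter K) {R : W → W → Prop} {m : ℕ} (hG : Good R m)
    (D : (K → W) → Prop) (F : ℕ → K → W) (hD : ∀ k, D (F k))
    (hF : ∀ k l, k < l → RT 𝒦 R D (F k) (F l))
    (hno : ∀ k l, k < l → ¬ RT 𝒦 R D (F l) (F k)) : False := by
  classical
  have h1 : ∀ k l, ∃ (n : ℕ) (q : ℕ → K → W), k < l → (1 ≤ n ∧ n < m ∧ q 0 = F k ∧ q n = F l ∧
      (∀ a ≤ n, D (q a)) ∧ (∀ a < n, NN 𝒦 R (q a) (q (a+1)))) := by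
    intro k l
    by_cases hkl : k < l
    · rcases rt_cases 𝒦 hG (hF k l hkl) with h | ⟨n, q, h1, h2, h3, h4, h5, h6, -⟩
      · exact absurd (Relation.ReflTransGen.single ⟨hD l, hD k, Or.inr h.symm⟩) (hno k l hkl)
      · exact ⟨n, q, fun _ => ⟨h1, h2, h3, h4, h5, h6⟩⟩
    · exact ⟨0, fun _ => F k, fun h => absurd h hkl⟩
  choose n q hnq using h1
  obtain ⟨𝒥, h𝒥⟩ : ∃ 𝒥 : Ultrafilter (ℕ × ℕ), 𝒥 = prodU (hyperfilter ℕ) (hyperfilter ℕ) :=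
    ⟨_, rfl⟩
  have hlt : ∀ᶠ p in (𝒥 : Filter (ℕ × ℕ)), p.1 < p.2 := by
    rw [h𝒥, ev_prodU]
    exact Eventually.of_forall fun k => nc_gt k
  have hgt : ∀ x : ℕ, ∀ᶠ p in (𝒥 : Filter (ℕ × ℕ)), x < p.1 := by
    intro x
    rw [h𝒥, ev_prodU]
    exact (nc_gt x).mono fun a ha => Eventually.of_forall fun _ => ha
  obtain ⟨N, -, hN⟩ := nc_pigeon 𝒥 (Set.finite_Iio m) (fun p => n p.1 p.2)
    (hlt.mono fun p hp => (hnq p.1 p.2 hp).2.1)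
  have hN1 : 1 ≤ N := by
    obtain ⟨p, hp1, hp2⟩ := (hlt.and hN).exists
    rw [← hp2]
    exact (hnq p.1 p.2 hp1).1
  have hback : ∀ σ < N, ∀ᶠ p' in (𝒥 : Filter (ℕ × ℕ)), ∀ᶠ p in (𝒥 : Filter (ℕ × ℕ)),
      ¬ NN 𝒦 R (q p.1 p.2 σ) (q p'.1 p'.2 (σ+1)) := by
    intro σ hσ
    filter_upwards [hlt, hN] with p' hp' hpN'
    filter_upwards [hlt, hN, hgt p'.2] with p hp hpN h4 hNN
    obtain ⟨-, -, a3, a4, a5, a6⟩ := hnq p.1 p.2 hp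
    obtain ⟨-, -, b3, b4, b5, b6⟩ := hnq p'.1 p'.2 hp'
    rw [hpN] at a4 a5 a6
    rw [hpN'] at b4 b5 b6
    refine hno p'.2 p.1 h4 ?_
    have c1 := nc_path 𝒦 a5 a6 0 σ (Nat.zero_le _) hσ.le
    have c2 := nc_path 𝒦 b5 b6 (σ+1) N hσ le_rfl
    rw [a3] at c1
    rw [b4] at c2
    exact (c1.tail ⟨a5 σ hσ.le, b5 (σ+1) hσ, Or.inl hNN⟩).trans c2
  obtain ⟨δ, hδ⟩ : ∃ δ : ℕ → Prop, ∀ σ, (δ σ ↔ ∀ᶠ p' in (𝒥 : Filter (ℕ × ℕ)),
      ∀ᶠ p in (𝒥 : Filter (ℕ × ℕ)), Rs 𝒦 R (q p.1 p.2 σ) (q p'.1 p'.2 (σ+1))) :=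
    ⟨_, fun _ => Iff.rfl⟩
  obtain ⟨α, hα⟩ : ∃ α : ℕ → Prop, ∀ σ, ∀ᶠ p in (𝒥 : Filter (ℕ × ℕ)),
      (Rs 𝒦 R (q p.1 p.2 σ) (q p.1 p.2 (σ+1)) ↔ α σ) :=
    ⟨_, fun σ => ev_dec 𝒥 (fun p => Rs 𝒦 R (q p.1 p.2 σ) (q p.1 p.2 (σ+1)))⟩
  obtain ⟨β, hβ⟩ : ∃ β : ℕ → Prop, ∀ σ, ∀ᶠ p in (𝒥 : Filter (ℕ × ℕ)),
      (D1 𝒦 R (q p.1 p.2 σ) (q p.1 p.2 (σ+1)) ↔ β σ) :=
    ⟨_, fun σ => ev_dec 𝒥 (fun p => D1 𝒦 R (q p.1 p.2 σ) (q p.1 p.2 (σ+1)))⟩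
  obtain ⟨γ, hγ⟩ : ∃ γ : ℕ → Prop, ∀ σ, ∀ᶠ p in (𝒥 : Filter (ℕ × ℕ)),
      (D2 𝒦 R (q p.1 p.2 σ) (q p.1 p.2 (σ+1)) ↔ γ σ) :=
    ⟨_, fun σ => ev_dec 𝒥 (fun p => D2 𝒦 R (q p.1 p.2 σ) (q p.1 p.2 (σ+1)))⟩
  have habc : ∀ σ < N, ¬ ((α σ ↔ β σ) ∧ (α σ ↔ γ σ)) := by
    intro σ hσ
    obtain ⟨p, hp, hpN, h2, h3, h4⟩ := (hlt.and (hN.and ((hα σ).and ((hβ σ).and (hγ σ))))).exists
    obtain ⟨-, -, -, -, -, a6⟩ := hnq p.1 p.2 hp
    rw [hpN] at a6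
    have h5 := a6 σ hσ
    unfold NN at h5
    rw [h2, h3, h4] at h5
    exact h5
  obtain ⟨μ, hμ⟩ : ∃ μ : ℕ → ℕ, ∀ σ, (¬ (α σ ↔ δ σ) → μ σ = 0) ∧
      ((α σ ↔ δ σ) → ¬ (β σ ↔ δ σ) → μ σ = 1) ∧ ((α σ ↔ δ σ) → (β σ ↔ δ σ) → μ σ = 2) := by
    refine ⟨fun σ => if ¬ (α σ ↔ δ σ) then 0 else if ¬ (β σ ↔ δ σ) then 1 else 2, ?_⟩
    intro σ
    refine ⟨fun h => if_pos h, fun h h' => ?_, fun h h' => ?_⟩
    · dsimp only
      rw [if_neg (not_not.mpr h), if_pos h']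
    · dsimp only
      rw [if_neg (not_not.mpr h), if_neg (not_not.mpr h')]
  obtain ⟨τ, c, hc⟩ := nc_times N μ
  refine noCopy (hyperfilter ℕ) 𝒥 Prod.fst Prod.snd ?_ (good_Tw 𝒦 hG)
    (fun k => (F k, τ k)) N hN1 (fun σ p => (q p.1 p.2 σ, c p.1 p.2 σ)) ?_ ?_ ?_
  · intro P
    rw [h𝒥, ev_prodU]
  · filter_upwards [hlt] with p hp
    simp only [Function.comp_apply]
    rw [(hnq p.1 p.2 hp).2.2.1, (hc p.1 p.2 hp).1]
  · filter_upwards [hlt, hN] with p hp hpN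
    simp only [Function.comp_apply]
    have h2 := (hnq p.1 p.2 hp).2.2.2.1
    rw [hpN] at h2
    rw [h2, (hc p.1 p.2 hp).2.1]
  · intro σ hσ hNN
    have hd2 : D2 𝒥 (Tw 𝒦 R) (fun p : ℕ × ℕ => (q p.1 p.2 σ, c p.1 p.2 σ))
        (fun p : ℕ × ℕ => (q p.1 p.2 (σ+1), c p.1 p.2 (σ+1))) ↔ δ σ := by
      rw [hδ σ]
      unfold D2
      refine eventually_congr ?_
      filter_upwards [hback σ hσ] with p' hp'
      refine eventually_congr ?_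
      filter_upwards [hp'] with p hp
      exact nc_Tw_nn 𝒦 R _ _ hp
    have h2 := hNN.2
    rw [hd2] at h2
    by_cases h3 : (α σ ↔ δ σ)
    · by_cases h4 : (β σ ↔ δ σ)
      · have h5 := (hμ σ).2.2 h3 h4
        have h6 : Rs 𝒥 (Tw 𝒦 R) (fun p : ℕ × ℕ => (q p.1 p.2 σ, c p.1 p.2 σ))
            (fun p : ℕ × ℕ => (q p.1 p.2 (σ+1), c p.1 p.2 (σ+1))) ↔ γ σ := by
          refine nc_const 𝒥 ?_
          filter_upwards [hlt, hγ σ] with p hp h7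
          rw [nc_Tw_gt 𝒦 R _ _ (((hc p.1 p.2 hp).2.2 σ).2.2 h5)]
          exact h7
        exact habc σ hσ ⟨h3.trans h4.symm, h3.trans (h2.symm.trans h6)⟩
      · have h5 := (hμ σ).2.1 h3 h4
        have h6 : Rs 𝒥 (Tw 𝒦 R) (fun p : ℕ × ℕ => (q p.1 p.2 σ, c p.1 p.2 σ))
            (fun p : ℕ × ℕ => (q p.1 p.2 (σ+1), c p.1 p.2 (σ+1))) ↔ β σ := by
          refine nc_const 𝒥 ?_
          filter_upwards [hlt, hβ σ] with p hp h7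
          rw [nc_Tw_lt 𝒦 R _ _ (((hc p.1 p.2 hp).2.2 σ).2.1 h5)]
          exact h7
        exact h4 (h6.symm.trans h2)
    · have h5 := (hμ σ).1 h3
      have h6 : Rs 𝒥 (Tw 𝒦 R) (fun p : ℕ × ℕ => (q p.1 p.2 σ, c p.1 p.2 σ))
          (fun p : ℕ × ℕ => (q p.1 p.2 (σ+1), c p.1 p.2 (σ+1))) ↔ α σ := by
        refine nc_const 𝒥 ?_
        filter_upwards [hlt, hα σ] with p hp h7
        rw [nc_Tw_eq 𝒦 R _ _ (((hc p.1 p.2 hp).2.2 σ).1 h5)]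
        exact h7
      exact h3 (h6.symm.trans h2)

end KTab
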