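import Pool.Agent.KTab.Defs
import Pool.Agent.KBT.Dec

/-!
Generic chains.  PROOF.  For a property G of elements of J with ∀ᶠ j, G j put
H G b := ∀ᶠ c in 𝒜, ∃ j, G j ∧ π₁ j = b ∧ π₂ j = c.  By JL (for the predicate
P b c := ∃ j, G j ∧ π₁ j = b ∧ π₂ j = c) ∀ᶠ b in 𝒜, H G b.  Put Qg j := ∀ᶠ j' in 𝒥, Q j j'.
Induction on k ≥ 1: there is j : ℕ → J with, for l < k: G₀ (j l), Qg (j l);
π₂ (j l) = π₁ (j (l+1)) for l + 1 < k; Q (j l) (j l') for l + 2 ≤ l' < k; and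
H (G_k) (π₂ (j (k-1))), where G_k i := G₀ i ∧ Qg i ∧ ∀ l, l + 2 ≤ k → Q (j l) i.
Step: choose c with ∃ i, G_k i ∧ π₁ i = π₂ (j (k-1)) ∧ π₂ i = c and with H (G_(k+1)) c, where
G_(k+1) i := G₀ i ∧ Qg i ∧ ∀ l, l + 1 ≤ k → Q (j l) i, which holds for almost all i since
Qg (j l) for l < k; put j k := i.  Start k = 1: choose j 0 with G₀, Qg and H (G₀ ∧ Qg) (π₂ (j 0))
(JL gives the law of π₂).
-/

set_option autoImplicit false

namespace KTab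

open Filter KBT

private theorem seqJ_H {A J : Type*} (𝒜 : Ultrafilter A) (𝒥 : Ultrafilter J) (π₁ π₂ : J → A)
    (hJL : JL 𝒥 𝒜 π₁ π₂) (G : J → Prop) (hG : ∀ᶠ j in (𝒥 : Filter J), G j) :
    ∀ᶠ b in (𝒜 : Filter A), ∀ᶠ c in (𝒜 : Filter A), ∃ j, G j ∧ π₁ j = b ∧ π₂ j = c :=
  (hJL (fun b c => ∃ j, G j ∧ π₁ j = b ∧ π₂ j = c)).1
    (hG.mono fun j hj => ⟨j, hj, rfl, rfl⟩)

private theorem seqJ_snd {A J : Type*} (𝒜 : Ultrafilter A) (𝒥 : Ultrafilter J) (π₁ π₂ : J → A)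
    (hJL : JL 𝒥 𝒜 π₁ π₂) (S : A → Prop) (hS : ∀ᶠ c in (𝒜 : Filter A), S c) :
    ∀ᶠ j in (𝒥 : Filter J), S (π₂ j) :=
  (hJL (fun _ c => S c)).2 (Filter.Eventually.of_forall fun _ => hS)

private theorem seqJ_aux {A J : Type*} (𝒜 : Ultrafilter A) (𝒥 : Ultrafilter J) (π₁ π₂ : J → A)
    (hJL : JL 𝒥 𝒜 π₁ π₂) (G₀ : J → Prop) (hG₀ : ∀ᶠ j in (𝒥 : Filter J), G₀ j)
    (Q : J → J → Prop) (hQ : ∀ᶠ j in (𝒥 : Filter J), ∀ᶠ j' in (𝒥 : Filter J), Q j j') (k : ℕ) :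
    ∃ j : ℕ → J, (∀ l ≤ k, G₀ (j l) ∧ ∀ᶠ j' in (𝒥 : Filter J), Q (j l) j') ∧
      (∀ l < k, π₂ (j l) = π₁ (j (l+1))) ∧
      (∀ l l', l + 2 ≤ l' → l' ≤ k → Q (j l) (j l')) ∧
      ∀ᶠ c in (𝒜 : Filter A), ∃ i, (G₀ i ∧ (∀ᶠ j' in (𝒥 : Filter J), Q i j') ∧
        ∀ l < k, Q (j l) i) ∧ π₁ i = π₂ (j k) ∧ π₂ i = c := by
  induction k with
  | zero =>
    have h1 : ∀ᶠ i in (𝒥 : Filter J), (G₀ i ∧ (∀ᶠ j' in (𝒥 : Filter J), Q i j')) :=
      hG₀.and hQ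
    have h2 := seqJ_snd 𝒜 𝒥 π₁ π₂ hJL _ (seqJ_H 𝒜 𝒥 π₁ π₂ hJL _ h1)
    obtain ⟨i, hi, hi2⟩ := (h1.and h2).exists
    refine ⟨fun _ => i, fun _ _ => hi, fun l hl => absurd hl (Nat.not_lt_zero l), ?_, ?_⟩
    · intro l l' h h'
      omega
    · refine hi2.mono ?_
      rintro c ⟨m, ⟨hm1, hm2⟩, hm3, hm4⟩
      exact ⟨m, ⟨hm1, hm2, fun l hl => absurd hl (Nat.not_lt_zero l)⟩, hm3, hm4⟩
  | succ k ih =>
    obtain ⟨j, hj1, hj2, hj3, hj4⟩ := ih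
    have h1 : ∀ᶠ i in (𝒥 : Filter J), (G₀ i ∧ (∀ᶠ j' in (𝒥 : Filter J), Q i j') ∧
        ∀ l ∈ Finset.range (k + 1), Q (j l) i) := by
      refine hG₀.and (hQ.and ?_)
      rw [Filter.eventually_all_finset]
      intro l hl
      rw [Finset.mem_range] at hl
      exact (hj1 l (by omega)).2
    have h2 := seqJ_H 𝒜 𝒥 π₁ π₂ hJL _ h1
    obtain ⟨c, ⟨i, ⟨hi1, hi2, hi3⟩, hi4, hi5⟩, hc⟩ := (hj4.and h2).exists
    have hne : ∀ l, l ≤ k → Function.update j (k + 1) i l = j l := by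
      intro l hl
      exact Function.update_of_ne (by omega) _ _
    have heq : Function.update j (k + 1) i (k + 1) = i := Function.update_self _ _ _
    refine ⟨Function.update j (k + 1) i, ?_, ?_, ?_, ?_⟩
    · intro l hl
      rcases Nat.lt_or_ge k l with h | h
      · have : l = k + 1 := by omega
        subst this
        rw [heq]
        exact ⟨hi1, hi2⟩
      · rw [hne l h]
        exact hj1 l h
    · intro l hl
      rcases Nat.lt_or_ge l k with h | h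
      · rw [hne l (by omega), hne (l + 1) (by omega)]
        exact hj2 l h
      · have : l = k := by omega
        subst this
        rw [hne l le_rfl, heq, hi4]
    · intro l l' h h'
      rcases Nat.lt_or_ge k l' with h'' | h''
      · have : l' = k + 1 := by omega
        subst this
        rw [heq, hne l (by omega)]
        exact hi3 l (by omega)
      · rw [hne l (by omega), hne l' h'']
        exact hj3 l l' h h''
    · rw [heq, hi5]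
      refine hc.mono ?_
      rintro c' ⟨m, ⟨hm1, hm2, hm3⟩, hm4, hm5⟩
      refine ⟨m, ⟨hm1, hm2, fun l hl => ?_⟩, hm4, hm5⟩
      rw [hne l (by omega)]
      exact hm3 l (Finset.mem_range.2 hl)

theorem seqJ {A J : Type*} (𝒜 : Ultrafilter A) (𝒥 : Ultrafilter J) (π₁ π₂ : J → A)
    (hJL : JL 𝒥 𝒜 π₁ π₂) (G₀ : J → Prop) (hG₀ : ∀ᶠ j in (𝒥 : Filter J), G₀ j)
    (Q : J → J → Prop) (hQ : ∀ᶠ j in (𝒥 : Filter J), ∀ᶠ j' in (𝒥 : Filter J), Q j j') (K : ℕ) :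
    ∃ j : ℕ → J, (∀ k < K, G₀ (j k)) ∧ (∀ k, k + 1 < K → π₂ (j k) = π₁ (j (k+1))) ∧
      ∀ k l, k + 2 ≤ l → l < K → Q (j k) (j l) := by
  cases K with
  | zero =>
    obtain ⟨i, _⟩ := hG₀.exists
    refine ⟨fun _ => i, fun k hk => absurd hk (Nat.not_lt_zero k), fun k hk => ?_, ?_⟩
    · omega
    · intro k l h h'
      omega
  | succ K =>
    obtain ⟨j, hj1, hj2, hj3, _⟩ := seqJ_aux 𝒜 𝒥 π₁ π₂ hJL G₀ hG₀ Q hQ K
    refine ⟨j, fun k hk => (hj1 k (by omega)).1, fun k hk => hj2 k (by omega), ?_⟩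
    intro k l h h'
    exact hj3 k l h (by omega)

end KTab
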