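import Pool.Agent.KTab.Facts
import Pool.Agent.KTab.Amal
import Pool.Agent.KTab.SeqJ
import Pool.Agent.KTab.Blocks

/-!
A function never reaches an independent copy of itself.

PROOF.  Let D := fun _ => True.
(a) Claim: D1 𝒥 R (P σ) (P τ) ↔ D2 𝒥 R (P σ) (P τ) for all σ, τ ≤ n.  Take 𝒦 on J × J from amal
for π₂ and π₁ (both MP to 𝒜 by JL_snd, JL_fst), so π₂ k.1 = π₁ k.2 almost everywhere.  On 𝒦:
P τ ∘ fst reaches P n ∘ fst (NN-steps, NN_pull), P n ∘ fst = X ∘ π₂ ∘ fst = X ∘ π₁ ∘ snd =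
P 0 ∘ snd almost everywhere, and P 0 ∘ snd reaches P σ ∘ snd.  So RT 𝒦 R D (P τ ∘ fst) (P σ ∘ snd),
and fp_of_cycle gives D1 𝒦 R (P σ ∘ snd) (P τ ∘ fst) ↔ D2 ...; D1_pull, D2_pull.
(b) M σ τ := D1 𝒥 R (P σ) (P τ).  M σ n ↔ M σ 0: D1_congr and D1 𝒥 R (P σ) (X ∘ π₂) ↔
∀ᶠ j in 𝒥, ∀ᶠ a in 𝒜, R (P σ j) (X a) ↔ D1 𝒥 R (P σ) (X ∘ π₁) (MP of π₁, π₂).
(c) Let K be the number of xp_of_blocks m n.  Apply seqJ with K + 1 elements and
G₀ j := (∀ σ < n, (R (P σ j) (P (σ+1) j) ↔ Rs 𝒥 R (P σ) (P (σ+1)))) ∧ P 0 j = X (π₁ j) ∧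
P n j = X (π₂ j), Q j j' := ∀ σ τ ≤ n, (R (P σ j) (P τ j') ↔ M σ τ) ∧ (R (P σ j') (P τ j) ↔ M σ τ)
(the second part holds generically by D2 and (a); use KBT.ev_dec2 and eventually_all_finset).
Blocks: PP k (σ : Fin n) := P σ (j k).  Far blocks: M by Q.  Steps inside a block
(k, σ) -> (k, σ+1), σ + 1 < n: R ↔ Rs, and Rs ≠ M by NN and (a).  Step (k, n-1) -> (k+1, 0):
P 0 (j (k+1)) = X (π₁ (j (k+1))) = X (π₂ (j k)) = P n (j k), and Rs 𝒥 R (P (n-1)) (P n) ≠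
M (n-1) n ↔ M (n-1) 0.  So there is a path from (0, 0) to (K, 0) and xp_of_blocks gives XP R m,
against Good.  (n ≥ 1, so Fin n is nonempty.)
-/

set_option autoImplicit false

namespace KTab

open Filter KBT

/-- steps along a sequence -/
private theorem NoCopy_up {J W : Type*} {𝒥 : Ultrafilter J} {R : W → W → Prop} {n : ℕ}
    {P : ℕ → J → W} (hP : ∀ σ < n, NN 𝒥 R (P σ) (P (σ+1))) {K : Type*} {𝒦 : Ultrafilter K}
    {φ : K → J} (hφ : MP 𝒦 𝒥 φ) :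
    ∀ c a, a + c ≤ n → RT 𝒦 R (fun _ => True) (P a ∘ φ) (P (a + c) ∘ φ) := by
  intro c
  induction c with
  | zero => intro a _; exact Relation.ReflTransGen.refl
  | succ c ih =>
    intro a ha
    refine Relation.ReflTransGen.tail (ih a (by omega)) ⟨trivial, trivial, Or.inl ?_⟩
    rw [show a + (c + 1) = a + c + 1 by omega]
    exact (NN_pull hφ R _ _).mpr (hP (a + c) (by omega))

private theorem NoCopy_D {A J W : Type*} (𝒜 : Ultrafilter A) (𝒥 : Ultrafilter J) (π₁ π₂ : J → A)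
    (hJL : JL 𝒥 𝒜 π₁ π₂) {R : W → W → Prop} {m : ℕ} (hG : Good R m) (X : A → W) (n : ℕ)
    (P : ℕ → J → W) (h0 : P 0 =ᶠ[(𝒥 : Filter J)] X ∘ π₁)
    (hnn : P n =ᶠ[(𝒥 : Filter J)] X ∘ π₂) (hP : ∀ σ < n, NN 𝒥 R (P σ) (P (σ+1)))
    (σ τ : ℕ) (hσ : σ ≤ n) (hτ : τ ≤ n) :
    (D1 𝒥 R (P σ) (P τ) ↔ D2 𝒥 R (P σ) (P τ)) := by
  obtain ⟨𝒦, h1, h2, h3⟩ := amal 𝒥 𝒥 𝒜 π₂ π₁ (JL_snd hJL) (JL_fst hJL)
  have r1 : RT 𝒦 R (fun _ => True) (P τ ∘ Prod.fst) (P n ∘ Prod.fst) := by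
    have := NoCopy_up hP h1 (n - τ) τ (by omega)
    rwa [show τ + (n - τ) = n by omega] at this
  have r2 : RT 𝒦 R (fun _ => True) (P 0 ∘ Prod.snd) (P σ ∘ Prod.snd) := by
    have := NoCopy_up hP h2 σ 0 (by omega)
    rwa [Nat.zero_add] at this
  have e1 : (P n ∘ Prod.fst) =ᶠ[(𝒦 : Filter (J × J))] (P 0 ∘ Prod.snd) := by
    have a1 := (h1 (fun j => P n j = X (π₂ j))).mpr hnn
    have a2 := (h2 (fun j => P 0 j = X (π₁ j))).mpr h0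
    filter_upwards [a1, a2, h3] with k b1 b2 b3
    simp only [Function.comp_apply]
    rw [b1, b2, b3]
  have r3 : RT 𝒦 R (fun _ => True) (P τ ∘ Prod.fst) (P σ ∘ Prod.snd) :=
    (Relation.ReflTransGen.tail r1 ⟨trivial, trivial, Or.inr e1⟩).trans r2
  have h4 := fp_of_cycle 𝒦 hG r3
  rwa [D1_pull h2 h1, D2_pull h2 h1] at h4

theorem noCopy {A J W : Type*} (𝒜 : Ultrafilter A) (𝒥 : Ultrafilter J) (π₁ π₂ : J → A)
    (hJL : JL 𝒥 𝒜 π₁ π₂) {R : W → W → Prop} {m : ℕ} (hG : Good R m) (X : A → W) (n : ℕ)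
    (hn : 1 ≤ n) (P : ℕ → J → W) (h0 : P 0 =ᶠ[(𝒥 : Filter J)] X ∘ π₁)
    (hnn : P n =ᶠ[(𝒥 : Filter J)] X ∘ π₂) (hP : ∀ σ < n, NN 𝒥 R (P σ) (P (σ+1))) : False := by
  classical
  have hD := NoCopy_D 𝒜 𝒥 π₁ π₂ hJL hG X n P h0 hnn hP
  -- the law of the end points
  have hM : ∀ σ, (D1 𝒥 R (P σ) (P n) ↔ D1 𝒥 R (P σ) (P 0)) := by
    intro σ
    rw [D1_congr 𝒥 (EventuallyEq.refl _ (P σ)) hnn, D1_congr 𝒥 (EventuallyEq.refl _ (P σ)) h0]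
    unfold D1
    have a1 : ∀ i, (∀ᶠ j in (𝒥 : Filter J), R (P σ i) ((X ∘ π₂) j)) ↔
        ∀ᶠ a in (𝒜 : Filter A), R (P σ i) (X a) := fun i =>
      (JL_snd hJL) (fun a => R (P σ i) (X a))
    have a2 : ∀ i, (∀ᶠ j in (𝒥 : Filter J), R (P σ i) ((X ∘ π₁) j)) ↔
        ∀ᶠ a in (𝒜 : Filter A), R (P σ i) (X a) := fun i =>
      (JL_fst hJL) (fun a => R (P σ i) (X a))
    simp only [a1, a2]
  obtain ⟨K, hK⟩ := xp_of_blocks m n
  -- generic properties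
  have hG₀ : ∀ᶠ j in (𝒥 : Filter J), (∀ σ ∈ Finset.range n,
      (R (P σ j) (P (σ+1) j) ↔ Rs 𝒥 R (P σ) (P (σ+1)))) ∧ P 0 j = X (π₁ j) ∧ P n j = X (π₂ j) := by
    have b1 : ∀ᶠ j in (𝒥 : Filter J), ∀ σ ∈ Finset.range n,
        (R (P σ j) (P (σ+1) j) ↔ Rs 𝒥 R (P σ) (P (σ+1))) := by
      rw [eventually_all_finset]
      intro σ _
      exact ev_dec 𝒥 (fun j => R (P σ j) (P (σ+1) j))
    exact b1.and (h0.and hnn)
  have hQ : ∀ᶠ j in (𝒥 : Filter J), ∀ᶠ j' in (𝒥 : Filter J),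
      ∀ z ∈ (Finset.range (n+1)) ×ˢ (Finset.range (n+1)),
        (R (P z.1 j) (P z.2 j') ↔ D1 𝒥 R (P z.1) (P z.2)) ∧
        (R (P z.1 j') (P z.2 j) ↔ D1 𝒥 R (P z.1) (P z.2)) := by
    simp only [eventually_all_finset]
    intro z hz
    rw [Finset.mem_product, Finset.mem_range, Finset.mem_range] at hz
    have c1 := ev_dec2 𝒥 𝒥 (fun j j' => R (P z.1 j) (P z.2 j'))
    have c2 := ev_dec2 𝒥 𝒥 (fun j j' => R (P z.1 j') (P z.2 j))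
    filter_upwards [c1, c2] with j d1 d2
    filter_upwards [d1, d2] with j' e1 e2
    refine ⟨e1, ?_⟩
    rw [hD z.1 z.2 (by omega) (by omega)]
    exact e2
  obtain ⟨j, hj1, hj2, hj3⟩ := seqJ 𝒜 𝒥 π₁ π₂ hJL _ hG₀ _ hQ (K + 1)
  -- the blocks
  have hmz : ∀ (a b : Fin n), ((a.1, b.1) : ℕ × ℕ) ∈
      (Finset.range (n+1)) ×ˢ (Finset.range (n+1)) := by
    intro a b
    rw [Finset.mem_product, Finset.mem_range, Finset.mem_range]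
    have := a.2
    have := b.2
    exact ⟨by simp only; omega, by simp only; omega⟩
  have hfar : ∀ k l, k ≤ K → l ≤ K → (k + 2 ≤ l ∨ l + 2 ≤ k) → ∀ σ τ : Fin n,
      (R (P σ.1 (j k)) (P τ.1 (j l)) ↔ D1 𝒥 R (P σ.1) (P τ.1)) := by
    intro k l hk hl hkl σ τ
    rcases hkl with h | h
    · exact (hj3 k l h (by omega) (σ.1, τ.1) (hmz σ τ)).1
    · exact (hj3 l k h (by omega) (σ.1, τ.1) (hmz σ τ)).2
  -- one step
  have hst : ∀ k ≤ K, ∀ σ < n, ¬ (R (P σ (j k)) (P (σ+1) (j k)) ↔ D1 𝒥 R (P σ) (P (σ+1))) := by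
    intro k hk σ hσ h
    have f1 := (hj1 k (by omega)).1 σ (Finset.mem_range.mpr hσ)
    have f2 := hD σ (σ+1) (by omega) (by omega)
    apply hP σ hσ
    rw [← f2, ← f1]
    exact ⟨h, h⟩
  have hin : ∀ (k : ℕ) (hk : k < K + 1) (σ : ℕ) (hσ : σ < n),
      Relation.ReflTransGen (fun z z' : Fin (K+1) × Fin n =>
        ¬ (R (P z.2.1 (j z.1.1)) (P z'.2.1 (j z'.1.1)) ↔ D1 𝒥 R (P z.2.1) (P z'.2.1)))
        (⟨k, hk⟩, ⟨0, hn⟩) (⟨k, hk⟩, ⟨σ, hσ⟩) := by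
    intro k hk σ
    induction σ with
    | zero => intro _; exact Relation.ReflTransGen.refl
    | succ σ ih =>
      intro hσ
      exact Relation.ReflTransGen.tail (ih (by omega)) (hst k (by omega) σ (by omega))
  have hpath : ∀ (k : ℕ) (hk : k < K + 1),
      Relation.ReflTransGen (fun z z' : Fin (K+1) × Fin n =>
        ¬ (R (P z.2.1 (j z.1.1)) (P z'.2.1 (j z'.1.1)) ↔ D1 𝒥 R (P z.2.1) (P z'.2.1)))
        (⟨0, Nat.succ_pos K⟩, ⟨0, hn⟩) (⟨k, hk⟩, ⟨0, hn⟩) := by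
    intro k
    induction k with
    | zero => intro _; exact Relation.ReflTransGen.refl
    | succ k ih =>
      intro hk
      have g1 := ih (by omega)
      have g2 := hin k (by omega) (n - 1) (by omega)
      refine Relation.ReflTransGen.tail (g1.trans g2) ?_
      have g3 := hst k (by omega) (n - 1) (by omega)
      rw [show n - 1 + 1 = n by omega, hM] at g3
      have g4 : P n (j k) = P 0 (j (k+1)) := by
        rw [(hj1 k (by omega)).2.2, (hj1 (k+1) hk).2.1, hj2 k hk]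
      rw [g4] at g3
      exact g3
  have hfin := hK R (fun k σ => P σ.1 (j k)) (fun σ τ => D1 𝒥 R (P σ.1) (P τ.1))
    ⟨0, hn⟩ ⟨0, hn⟩ hfar (hpath K (Nat.lt_succ_self K))
  exact hG.1 hfin

end KTab
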