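import Pool.Agent.KTab.Germs

/-!
One step: non tameness passes to a strong component of a flip over a finite set of germs.

PROOF (compare KBT.one in Pool/Agent/KBT/One.lean).  For n : ℕ let t n a :=
({s : {s // s ∈ T} | R a (rp s n)}, {s | R (rp s n) a}), a pair of subsets of the finite type
{s // s ∈ T}; k := number of such pairs, e the bijection with Fin k, κ n := e ∘ t n, Φ' the
relation on Fin k induced by Φ (through the image under Subtype.val).  E n := EK R (κ n) Φ' and the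
strong components comp n a := {b | b ∈ C n ∧ RC (C n) (E n) a b ∧ RC (C n) (E n) b a}.
Let d be from depthD hG k, hC : NT with number c.
CLAIM: there is c' such that for every N, for almost all n there is a ∈ C n with
¬ Tame R (comp n a) c' N.  Otherwise for every c' there is a number F c' such that for almost all n
all comp n a, a ∈ C n, are Tame with (c', F c') (ultrafilter); let g, B be from glue k F d c; for
almost all n all the finitely many conditions c' ≤ B hold, so Tame R (C n) c g for almost all n,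
which contradicts NT.
With KBT.diag choose K : ℕ → Set V (K n := comp n a, keep also that K n is a component) such that
C' n := K n is not tame; C' n ⊆ C n.  [Use diag with Q n N w := (∃ a ∈ C n, w = comp n a) ∧
¬ Tame R w c' N.]  If x, y ∈ CS C' then for almost all n rp x n reaches rp y n inside C n by a path
of length ≤ bd (plgC hG k; the relation of lying in the same component w = comp n a: both are
reachable from a and reach a).  Choose the paths, let ℓ be the limit of the lengths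
(KBT.ev_pigeon), p i : GV V the germs of the i-th points, p 0 = x, p ℓ = y (rp_eq, rp_mk); each
step is in CS C and satisfies EF2 (RG R) T Φ: for almost all n the image of t n (rp z n) under
Subtype.val is tp2 (RG R) T z (compare KBT.tpn).  If ℓ = 0 then x = y.
-/

set_option autoImplicit false

namespace KTab

open Filter KBT

private theorem tpnD {V : Type} {R : V → V → Prop} (T : Finset (GV V)) (z : GV V) :
    ∀ᶠ n in (hyperfilter ℕ : Filter ℕ),
      ((Subtype.val '' {s : {s // s ∈ T} | R (rp z n) (rp s.1 n)},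
        Subtype.val '' {s : {s // s ∈ T} | R (rp s.1 n) (rp z n)}) : Set (GV V) × Set (GV V)) =
      tp2 (RG R) T z := by
  classical
  have h1 : ∀ᶠ n in (hyperfilter ℕ : Filter ℕ), ∀ s ∈ T,
      (R (rp z n) (rp s n) ↔ RG R z s) := by
    rw [eventually_all_finset]
    exact fun s _ => ev_dec (hyperfilter ℕ) (fun n => R (rp z n) (rp s n))
  have h2 : ∀ᶠ n in (hyperfilter ℕ : Filter ℕ), ∀ s ∈ T,
      (R (rp s n) (rp z n) ↔ RG R s z) := by
    rw [eventually_all_finset]
    exact fun s _ => ev_dec (hyperfilter ℕ) (fun n => R (rp s n) (rp z n))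
  filter_upwards [h1, h2] with n hn hn'
  unfold tp2
  refine Prod.ext ?_ ?_
  · ext s
    constructor
    · rintro ⟨⟨s', hs'⟩, h3, rfl⟩
      exact ⟨hs', (hn s' hs').mp h3⟩
    · rintro ⟨h3, h4⟩
      exact ⟨⟨s, h3⟩, (hn s h3).mpr h4, rfl⟩
  · ext s
    constructor
    · rintro ⟨⟨s', hs'⟩, h3, rfl⟩
      exact ⟨hs', (hn' s' hs').mp h3⟩
    · rintro ⟨h3, h4⟩
      exact ⟨⟨s, h3⟩, (hn' s h3).mpr h4, rfl⟩

theorem oneD {V : Type} {R : V → V → Prop} {m : ℕ} (hG : Good R m) (C : ℕ → Set V)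
    (hC : NT R C) (T : Finset (GV V))
    (Φ : Set (GV V) × Set (GV V) → Set (GV V) × Set (GV V) → Prop) :
    ∃ C' : ℕ → Set V, (∀ n, C' n ⊆ C n) ∧ NT R C' ∧
      ∀ x ∈ CS C', ∀ y ∈ CS C', RC (CS C) (EF2 (RG R) T Φ) x y := by
  classical
  obtain ⟨c, hc⟩ := hC
  let t : ℕ → V → Set {s // s ∈ T} × Set {s // s ∈ T} :=
    fun n a => ({s | R a (rp s.1 n)}, {s | R (rp s.1 n) a})
  let im : Set {s // s ∈ T} × Set {s // s ∈ T} → Set (GV V) × Set (GV V) :=
    fun A => (Subtype.val '' A.1, Subtype.val '' A.2)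
  set k : ℕ := Fintype.card (Set {s // s ∈ T} × Set {s // s ∈ T}) with hk
  let eκ : Set {s // s ∈ T} × Set {s // s ∈ T} ≃ Fin k := Fintype.equivFin _
  let κ : ℕ → V → Fin k := fun n a => eκ (t n a)
  let Φ' : Fin k → Fin k → Prop := fun i j => Φ (im (eκ.symm i)) (im (eκ.symm j))
  let comp : ℕ → V → Set V := fun n a =>
    {b | b ∈ C n ∧ RC (C n) (EK R (κ n) Φ') a b ∧ RC (C n) (EK R (κ n) Φ') b a}
  obtain ⟨d, hd⟩ := depthD hG k
  obtain ⟨bd, hbd⟩ := plgC hG k
  -- non tameness passes to components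
  have hcl : ∃ c' : ℕ, ∀ N : ℕ, ∀ᶠ n in (hyperfilter ℕ : Filter ℕ),
      ∃ a ∈ C n, ¬ Tame R (comp n a) c' N := by
    by_contra hcon
    have h0 : ∀ c' : ℕ, ∃ N : ℕ, ∀ᶠ n in (hyperfilter ℕ : Filter ℕ),
        ¬ ∃ a ∈ C n, ¬ Tame R (comp n a) c' N := by
      intro c'
      by_contra h1
      refine hcon ⟨c', fun N => ?_⟩
      by_contra h2
      exact h1 ⟨N, Ultrafilter.eventually_not.2 h2⟩
    choose F hF using h0
    obtain ⟨g, B, hgB⟩ := glue k F d c
    have h1 : ∀ᶠ n in (hyperfilter ℕ : Filter ℕ), ∀ c' ∈ Finset.range (B + 1),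
        ¬ ∃ a ∈ C n, ¬ Tame R (comp n a) c' (F c') :=
      (eventually_all_finset _).2 fun c' _ => hF c'
    obtain ⟨n, hn1, hn2⟩ := (h1.and (hc g)).exists
    refine hn2 (hgB R (C n) (κ n) Φ' (hd (κ n) Φ' (C n)) ?_)
    intro c' hc' a ha
    by_contra h2
    exact hn1 c' (Finset.mem_range.2 (by omega)) ⟨a, ha, h2⟩
  obtain ⟨c', hc'⟩ := hcl
  obtain ⟨K, hK⟩ := diag (β := Set V)
    (fun n N w => (∃ a ∈ C n, w = comp n a) ∧ ¬ Tame R w c' N)
    (fun n N N' w hNN h1 => ⟨h1.1, fun h2 => h1.2 (tame_mono hNN h2)⟩)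
    (by
      intro N
      filter_upwards [hc' N] with n hn
      obtain ⟨a, ha, h1⟩ := hn
      exact ⟨comp n a, ⟨a, ha, rfl⟩, h1⟩)
  have hsub : ∀ n a, comp n a ⊆ C n := fun n a b hb => hb.1
  refine ⟨fun n => K n ∩ C n, fun n => Set.inter_subset_right, ⟨c', fun N => ?_⟩, ?_⟩
  · filter_upwards [hK N] with n hn
    obtain ⟨⟨a, _, ha⟩, h1⟩ := hn
    have h2 : K n ∩ C n = K n := by
      rw [ha]
      exact Set.inter_eq_left.2 (hsub n a)
    rw [h2]
    exact h1
  intro x hx y hy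
  have hgood : ∀ᶠ n in (hyperfilter ℕ : Filter ℕ),
      RC (C n) (EK R (κ n) Φ') (rp x n) (rp y n) := by
    filter_upwards [hx, hy, hK 0] with n h1 h2 h3
    obtain ⟨⟨a, _, ha⟩, _⟩ := h3
    have h4 : rp x n ∈ comp n a := ha ▸ h1.1
    have h5 : rp y n ∈ comp n a := ha ▸ h2.1
    exact h4.2.2.trans h5.2.1
  have hpath : ∀ n : ℕ, ∃ (l : ℕ) (p : ℕ → V), RC (C n) (EK R (κ n) Φ') (rp x n) (rp y n) →
      l ≤ bd ∧ p 0 = rp x n ∧ p l = rp y n ∧
        ∀ i < l, p i ∈ C n ∧ p (i+1) ∈ C n ∧ EK R (κ n) Φ' (p i) (p (i+1)) := by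
    intro n
    by_cases hn : RC (C n) (EK R (κ n) Φ') (rp x n) (rp y n)
    · obtain ⟨l, hl, p, h1, h2, h3⟩ := hbd (κ n) Φ' (C n) _ _ hn
      exact ⟨l, p, fun _ => ⟨hl, h1, h2, h3⟩⟩
    · exact ⟨0, fun _ => rp x n, fun h => absurd h hn⟩
  choose l p hp using hpath
  obtain ⟨ℓ, _, hℓ⟩ := ev_pigeon (hyperfilter ℕ) (Set.finite_Iic bd) l
    (by
      filter_upwards [hgood] with n hn
      exact (hp n hn).1)
  have hgd : ∀ᶠ n in (hyperfilter ℕ : Filter ℕ),
      RC (C n) (EK R (κ n) Φ') (rp x n) (rp y n) ∧ l n = ℓ := hgood.and hℓ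
  let P : ℕ → GV V := fun i => ((fun n => p n i : ℕ → V) : GV V)
  have hPr : ∀ i, ∀ᶠ n in (hyperfilter ℕ : Filter ℕ), rp (P i) n = p n i := fun i =>
    rp_mk (fun n => p n i)
  have hP0 : P 0 = x := by
    rw [rp_eq]
    filter_upwards [hPr 0, hgd] with n h1 h2
    rw [h1]
    exact (hp n h2.1).2.1
  have hPl : P ℓ = y := by
    rw [rp_eq]
    filter_upwards [hPr ℓ, hgd] with n h1 h2
    rw [h1, ← h2.2]
    exact (hp n h2.1).2.2.1
  have hstep : ∀ i < ℓ, P i ∈ CS C ∧ P (i+1) ∈ CS C ∧ EF2 (RG R) T Φ (P i) (P (i+1)) := by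
    intro i hi
    refine ⟨?_, ?_, ?_⟩
    · show ∀ᶠ n in (hyperfilter ℕ : Filter ℕ), rp (P i) n ∈ C n
      filter_upwards [hPr i, hgd] with n h1 h2
      rw [h1]
      exact ((hp n h2.1).2.2.2 i (by rw [h2.2]; exact hi)).1
    · show ∀ᶠ n in (hyperfilter ℕ : Filter ℕ), rp (P (i+1)) n ∈ C n
      filter_upwards [hPr (i+1), hgd] with n h1 h2
      rw [h1]
      exact ((hp n h2.1).2.2.2 i (by rw [h2.2]; exact hi)).2.1
    · obtain ⟨n, ⟨⟨⟨⟨⟨h1, h2⟩, h3⟩, h4⟩, h5⟩, h6⟩⟩ :=
        (((((hgd.and (hPr i)).and (hPr (i+1))).and (tpnD (R := R) T (P i))).and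
          (tpnD (R := R) T (P (i+1)))).and
          (ev_dec (hyperfilter ℕ) (fun n => R (rp (P i) n) (rp (P (i+1)) n)))).exists
      have h7 := ((hp n h1.1).2.2.2 i (by rw [h1.2]; exact hi)).2.2
      unfold EF2
      have e3 : RG R (P i) (P (i+1)) ↔ R (rp (P i) n) (rp (P (i+1)) n) := h6.symm
      rw [e3, ← h4, ← h5, h2, h3]
      unfold EK at h7
      simp only [κ, Φ', im, t, Equiv.symm_apply_apply] at h7
      exact h7
  have hreach : ∀ i ≤ ℓ, RC (CS C) (EF2 (RG R) T Φ) (P 0) (P i) := by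
    intro i
    induction i with
    | zero => intro _; exact Relation.ReflTransGen.refl
    | succ i ih => intro hi; exact Relation.ReflTransGen.tail (ih (by omega)) (hstep i (by omega))
  have := hreach ℓ le_rfl
  rw [hP0, hPl] at this
  exact this

end KTab
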