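import Pool.Agent.KTab.NoChain
import Pool.Agent.KTab.InvLim

/-!
Existence of a terminal deep function.  PROOF.  There is a deep function: I := M, f := id and an
ultrafilter below the filter generated by the C i (NeBot since they are nonempty and decreasing).
Suppose that there is no terminal function.  Then for every index set with a deep function f there
is an extension φ : J → I and g with RT 𝒥 R (Dp C 𝒥) (f ∘ φ) g and ¬ RX C 𝒥 R g (f ∘ φ); g is
deep: RT with ¬ RX means that the path is not trivial (else g = f ∘ φ and RX holds by reflexivity),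
so g has Dp as end point of a step.  Iterate (dependent choice; put the data I, 𝒲, f, deep in a
structure) to get J n, 𝒥 n, π n : J (n+1) → J n, f n with RT (𝒥 (n+1)) (f n ∘ π n) (f (n+1)) and
¬ RX C (𝒥 (n+1)) R (f (n+1)) (f n ∘ π n).  Take 𝒦 from invLim and F n x := f n (x n).
RT 𝒦 (F n) (F (n+1)): pull back along the evaluation at n+1 (RT_pull) and RT_congr, since
f n (π n (x (n+1))) = f n (x n) almost everywhere.  ¬ RT 𝒦 (F l) (F k) for k < l: otherwise
F (k+1) reaches F l reaches F k, so by RX_down (with the extension evaluation at k+1 of 𝒥 (k+1),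
and congruence) RX C (𝒥 (k+1)) R (f (k+1)) (f k ∘ π k).  noChain.
-/

set_option autoImplicit false

namespace KTab

open Filter KBT

/-- A deep function on some index set. -/
private structure TE {M : Type} (C : ℕ → Set M) where
  I : Type
  U : Ultrafilter I
  f : I → M
  deep : Dp C U f

theorem exists_term {M : Type} {R : M → M → Prop} {m : ℕ} (hG : Good R m) (C : ℕ → Set M)
    (hmono : ∀ i, C (i+1) ⊆ C i) (hne : ∀ i, (C i).Nonempty) :
    ∃ (I : Type) (𝒲 : Ultrafilter I) (f : I → M), Term C 𝒲 R f := by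
  classical
  by_contra hcon
  have hcon' : ∀ (I : Type) (𝒲 : Ultrafilter I) (f : I → M), ¬ Term C 𝒲 R f := by
    intro I 𝒲 f h
    exact hcon ⟨I, 𝒲, f, h⟩
  have hle : ∀ i j, i ≤ j → C j ⊆ C i := by
    intro i j hij
    induction j, hij using Nat.le_induction with
    | base => exact Set.Subset.refl _
    | succ j _ ih => exact (hmono j).trans ih
  have hdeep : ∀ (I : Type) (𝒲 : Ultrafilter I) (f g : I → M), Dp C 𝒲 f →
      RT 𝒲 R (Dp C 𝒲) f g → Dp C 𝒲 g := by
    intro I 𝒲 f g hf h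
    unfold RT at h
    induction h with
    | refl => exact hf
    | tail _ h2 _ => exact h2.2.1
  have step : ∀ s : TE C, ∃ (s' : TE C) (φ : s'.I → s.I), MP s'.U s.U φ ∧
      RT s'.U R (Dp C s'.U) (s.f ∘ φ) s'.f ∧ ¬ RX C s'.U R s'.f (s.f ∘ φ) := by
    intro s
    have h1 := hcon' s.I s.U s.f
    have h2 : ¬ ∀ (J : Type) (𝒥 : Ultrafilter J) (φ : J → s.I) (g : J → M), MP 𝒥 s.U φ →
        RT 𝒥 R (Dp C 𝒥) (s.f ∘ φ) g → RX C 𝒥 R g (s.f ∘ φ) := fun h => h1 ⟨s.deep, h⟩
    simp only [not_forall] at h2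
    obtain ⟨J, 𝒥, φ, g, h3, h4, h5⟩ := h2
    exact ⟨⟨J, 𝒥, g, hdeep J 𝒥 _ _ ((Dp_pull h3 C _).mpr s.deep) h4⟩, φ, h3, h4, h5⟩
  choose nx φ h1 h2 h3 using step
  choose c hc using hne
  let s0 : TE C := ⟨ℕ, hyperfilter ℕ, c, by
    intro i
    have h : ∀ᶠ N in Filter.cofinite, i ≤ N := by
      rw [Nat.cofinite_eq_atTop]
      exact Filter.eventually_ge_atTop i
    have h' : ∀ᶠ N in (hyperfilter ℕ : Filter ℕ), i ≤ N := Filter.hyperfilter_le_cofinite h
    exact h'.mono fun a ha => hle i a ha (hc a)⟩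
  let s : ℕ → TE C := fun n => Nat.rec s0 (fun _ t => nx t) n
  obtain ⟨𝒦, hK, hKc⟩ := invLim (fun n => (s n).I) (fun n => (s n).U) (fun n => φ (s n))
    (fun n => h1 (s n))
  let F : ℕ → (∀ n, (s n).I) → M := fun n x => (s n).f (x n)
  have hFD : ∀ n, Dp C 𝒦 (F n) := fun n => (Dp_pull (hK n) C (s n).f).mpr (s n).deep
  have hstepF : ∀ n, RT 𝒦 R (Dp C 𝒦) (F n) (F (n+1)) := by
    intro n
    have h4 : RT 𝒦 R (Dp C 𝒦) (((s n).f ∘ φ (s n)) ∘ (fun x : (∀ n, (s n).I) => x (n+1)))
        ((s (n+1)).f ∘ (fun x : (∀ n, (s n).I) => x (n+1))) :=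
      RT_pull (hK (n+1)) (D' := Dp C 𝒦) (fun u hu => (Dp_pull (hK (n+1)) C u).mpr hu) (h2 (s n))
    refine RT_congr (C := C) ?_ (EventuallyEq.refl _ _) ?_ ?_ h4
    · filter_upwards [hKc n] with x hx
      change (s n).f (φ (s n) (x (n+1))) = (s n).f (x n)
      rw [hx]
    · exact (Dp_pull (hK (n+1)) C _).mpr ((Dp_pull (h1 (s n)) C _).mpr (s n).deep)
    · exact hFD (n+1)
  have hF : ∀ k l, k < l → RT 𝒦 R (Dp C 𝒦) (F k) (F l) := by
    intro k l hkl
    induction l, hkl using Nat.le_induction with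
    | base => exact hstepF k
    | succ l _ ih => exact Relation.ReflTransGen.trans ih (hstepF l)
  refine noChain 𝒦 hG (Dp C 𝒦) F hFD hF ?_
  intro k l hkl hback
  have h5 : RT 𝒦 R (Dp C 𝒦) (F (k+1)) (F k) := by
    rcases Nat.lt_or_ge (k+1) l with h | h
    · exact Relation.ReflTransGen.trans (hF (k+1) l h) hback
    · have h6 : l = k+1 := by omega
      rw [h6] at hback
      exact hback
  have h7 : RT 𝒦 R (Dp C 𝒦) ((s (k+1)).f ∘ (fun x : (∀ n, (s n).I) => x (k+1)))
      (((s k).f ∘ φ (s k)) ∘ (fun x : (∀ n, (s n).I) => x (k+1))) := by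
    refine RT_congr (C := C) (EventuallyEq.refl _ _) ?_ (hFD (k+1)) (hFD k) h5
    filter_upwards [hKc k] with x hx
    change (s k).f (x k) = (s k).f (φ (s k) (x (k+1)))
    rw [hx]
  exact h3 (s k) (RX_down (hK (k+1)) (RX_of_RT h7))

end KTab
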