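import Pool.Agent.KTab.PlgD
import Pool.Agent.KBT.Dec

/-!
Elementary facts on types over finite sets.

ef2_ek: the types tp2 R S x are pairs of subsets of S, a finite set; let k be the number of pairs of
subsets of S, κ x the code of tp2 R S x, Φ' a b := Φ (decode a) (decode b).
tp2_lim: KBT.ev_dec for each of the finitely many s in S.
plgS: plgC and ef2_ek.
EF2_congr, EF2_larger: copies of KBT.EF_congr, KBT.EF_larger (Pool/Agent/KBT/Flips.lean).
cloD: copy of KBT.clo (Pool/Agent/KBT/Flips.lean): for each of the finitely many i ≤ j, codes G of a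
relation on pairs of subsets of T, and x, y ∈ T choose a finite set containing a path if there is
one.  (A subset S of T and Φ are coded by a relation over T: EF2_larger, EF2_congr.)
-/

set_option autoImplicit false

namespace KTab

open Filter KBT

private theorem prs_finite {V : Type*} (S : Finset V) :
    {A : Set V × Set V | A.1 ⊆ (S : Set V) ∧ A.2 ⊆ (S : Set V)}.Finite := by
  have h1 : {A : Set V | A ⊆ (S : Set V)}.Finite := S.finite_toSet.finite_subsets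
  exact h1.prod h1

private theorem tp2_sub {V : Type*} (R : V → V → Prop) (S : Finset V) (x : V) :
    (tp2 R S x).1 ⊆ (S : Set V) ∧ (tp2 R S x).2 ⊆ (S : Set V) :=
  ⟨fun _ hs => hs.1, fun _ hs => hs.1⟩

theorem ef2_ek {V : Type*} (R : V → V → Prop) (S : Finset V) :
    ∃ (k : ℕ) (κ : V → Fin k), ∀ Φ : Set V × Set V → Set V × Set V → Prop,
      ∃ Φ' : Fin k → Fin k → Prop, EF2 R S Φ = EK R κ Φ' := by
  classical
  have hfin : (Set.range (tp2 R S)).Finite := by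
    refine (prs_finite S).subset ?_
    rintro _ ⟨x, rfl⟩
    exact tp2_sub R S x
  have := hfin.fintype
  refine ⟨Fintype.card (Set.range (tp2 R S)),
    fun x => Fintype.equivFin _ ⟨tp2 R S x, Set.mem_range_self x⟩, fun Φ => ?_⟩
  refine ⟨fun a b => Φ ((Fintype.equivFin (Set.range (tp2 R S))).symm a).1
    ((Fintype.equivFin (Set.range (tp2 R S))).symm b).1, ?_⟩
  funext x y
  unfold EF2 EK
  simp only [Equiv.symm_apply_apply]

theorem tp2_lim {I M : Type*} (𝒲 : Ultrafilter I) (R : M → M → Prop) (S : Finset M)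
    (y : I → M) : ∀ᶠ i in (𝒲 : Filter I), tp2 R S (y i) = ltp 𝒲 R S y := by
  have h1 : ∀ᶠ i in (𝒲 : Filter I), ∀ s ∈ S,
      (R (y i) s ↔ ∀ᶠ j in (𝒲 : Filter I), R (y j) s) :=
    (eventually_all_finset _).2 fun s _ => ev_dec 𝒲 (fun i => R (y i) s)
  have h2 : ∀ᶠ i in (𝒲 : Filter I), ∀ s ∈ S,
      (R s (y i) ↔ ∀ᶠ j in (𝒲 : Filter I), R s (y j)) :=
    (eventually_all_finset _).2 fun s _ => ev_dec 𝒲 (fun i => R s (y i))
  filter_upwards [h1, h2] with i h3 h4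
  unfold tp2 ltp
  refine Prod.ext ?_ ?_
  · ext s
    exact and_congr_right fun hs => h3 s hs
  · ext s
    exact and_congr_right fun hs => h4 s hs

theorem plgS {W : Type*} {R : W → W → Prop} {m : ℕ} (hG : Good R m) (S : Finset W) :
    ∃ bd : ℕ, ∀ (Φ : Set W × Set W → Set W × Set W → Prop) (C : Set W) (x y : W),
      RC C (EF2 R S Φ) x y → ∃ n ≤ bd, ∃ q : ℕ → W, q 0 = x ∧ q n = y ∧
        ∀ i < n, q i ∈ C ∧ q (i+1) ∈ C ∧ EF2 R S Φ (q i) (q (i+1)) := by
  obtain ⟨k, κ, hκ⟩ := ef2_ek R S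
  obtain ⟨bd, hbd⟩ := plgC hG k
  refine ⟨bd, fun Φ C x y h => ?_⟩
  obtain ⟨Φ', hΦ⟩ := hκ Φ
  rw [hΦ] at h ⊢
  exact hbd κ Φ' C x y h

/-- Only the restriction of Φ to pairs of subsets of T matters. -/
theorem EF2_congr {X : Type*} {R : X → X → Prop} (T : Finset X)
    {Φ Φ' : Set X × Set X → Set X × Set X → Prop}
    (h : ∀ A B : Set X × Set X, A.1 ⊆ T → A.2 ⊆ T → B.1 ⊆ T → B.2 ⊆ T → (Φ A B ↔ Φ' A B)) :
    EF2 R T Φ = EF2 R T Φ' := by
  funext x y
  unfold EF2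
  rw [h _ _ (tp2_sub R T x).1 (tp2_sub R T x).2 (tp2_sub R T y).1 (tp2_sub R T y).2]

/-- A flip over T is a flip over every larger finite set. -/
theorem EF2_larger {X : Type*} {R : X → X → Prop} {T S : Finset X} (hTS : T ⊆ S)
    (Φ : Set X × Set X → Set X × Set X → Prop) :
    EF2 R S (fun A B => Φ (A.1 ∩ T, A.2 ∩ T) (B.1 ∩ T, B.2 ∩ T)) = EF2 R T Φ := by
  have h1 : ∀ x, ((tp2 R S x).1 ∩ (T : Set X), (tp2 R S x).2 ∩ (T : Set X)) = tp2 R T x := by
    intro x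
    refine Prod.ext ?_ ?_
    · ext s
      constructor
      · rintro ⟨⟨_, h2⟩, h3⟩
        exact ⟨h3, h2⟩
      · rintro ⟨h2, h3⟩
        exact ⟨⟨hTS h2, h3⟩, h2⟩
    · ext s
      constructor
      · rintro ⟨⟨_, h2⟩, h3⟩
        exact ⟨h3, h2⟩
      · rintro ⟨h2, h3⟩
        exact ⟨⟨hTS h2, h3⟩, h2⟩
  funext x y
  unfold EF2
  dsimp only
  rw [h1, h1]

private theorem rtg_fin {X : Type*} {E : X → X → Prop} {x y : X}
    (h : Relation.ReflTransGen E x y) :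
    ∃ F : Finset X, Relation.ReflTransGen (fun a b => E a b ∧ a ∈ F ∧ b ∈ F) x y := by
  classical
  induction h with
  | refl => exact ⟨∅, Relation.ReflTransGen.refl⟩
  | @tail b c _ hbc ih =>
    obtain ⟨F, hF⟩ := ih
    refine ⟨F ∪ {b, c}, ?_⟩
    refine Relation.ReflTransGen.tail (b := b) ?_ ⟨hbc, by simp, by simp⟩
    exact Relation.ReflTransGen.mono (fun a d had => ⟨had.1, Finset.mem_union_left _ had.2.1,
      Finset.mem_union_left _ had.2.2⟩) _ _ hF

/-- Closure of a finite set under paths for its flips inside the sets D i, i ≤ j. -/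
theorem cloD {X : Type*} (R : X → X → Prop) (D : ℕ → Set X) (j : ℕ) (T : Finset X) :
    ∃ T' : Finset X, T ⊆ T' ∧ ∀ i ≤ j, ∀ S ⊆ T,
      ∀ (Φ : Set X × Set X → Set X × Set X → Prop), ∀ x ∈ T, ∀ y ∈ T,
        RC (D i) (EF2 R S Φ) x y → RC (D i ∩ (T' : Set X)) (EF2 R S Φ) x y := by
  classical
  have hcod : {G : Set ((Set X × Set X) × (Set X × Set X)) |
      G ⊆ {q | (q.1.1 ⊆ (T : Set X) ∧ q.1.2 ⊆ (T : Set X)) ∧
        (q.2.1 ⊆ (T : Set X) ∧ q.2.2 ⊆ (T : Set X))}}.Finite :=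
    ((prs_finite T).prod (prs_finite T)).finite_subsets
  let ΦG : Set ((Set X × Set X) × (Set X × Set X)) → Set X × Set X → Set X × Set X → Prop :=
    fun G A B => (A, B) ∈ G
  have hch : ∀ (i : ℕ) (G : Set ((Set X × Set X) × (Set X × Set X))) (x y : X),
      ∃ F : Finset X, RC (D i) (EF2 R T (ΦG G)) x y →
      Relation.ReflTransGen (fun a b => (a ∈ D i ∧ b ∈ D i ∧ EF2 R T (ΦG G) a b) ∧
        a ∈ F ∧ b ∈ F) x y := by
    intro i G x y
    by_cases h : RC (D i) (EF2 R T (ΦG G)) x y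
    · obtain ⟨F, hF⟩ := rtg_fin h
      exact ⟨F, fun _ => hF⟩
    · exact ⟨∅, fun h' => absurd h' h⟩
  choose F hF using hch
  refine ⟨T ∪ (Finset.range (j + 1)).biUnion (fun i => hcod.toFinset.biUnion
    (fun G => T.biUnion fun x => T.biUnion fun y => F i G x y)), Finset.subset_union_left, ?_⟩
  intro i hi S hS Φ x hx y hy hxy
  let G : Set ((Set X × Set X) × (Set X × Set X)) :=
    {q | ((q.1.1 ⊆ (T : Set X) ∧ q.1.2 ⊆ (T : Set X)) ∧
        (q.2.1 ⊆ (T : Set X) ∧ q.2.2 ⊆ (T : Set X))) ∧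
      Φ (q.1.1 ∩ S, q.1.2 ∩ S) (q.2.1 ∩ S, q.2.2 ∩ S)}
  have hG : G ∈ hcod.toFinset := by
    rw [Set.Finite.mem_toFinset]
    intro q hq
    exact hq.1
  have h5 : EF2 R T (ΦG G) = EF2 R S Φ := by
    rw [← EF2_larger hS Φ]
    apply EF2_congr
    intro A B hA1 hA2 hB1 hB2
    exact ⟨fun h6 => h6.2, fun h6 => ⟨⟨⟨hA1, hA2⟩, ⟨hB1, hB2⟩⟩, h6⟩⟩
  rw [← h5] at hxy ⊢
  refine Relation.ReflTransGen.mono ?_ _ _ (hF i G x y hxy)
  rintro a b ⟨⟨h1, h2, h3⟩, h4, h6⟩
  have hsub : ∀ c ∈ F i G x y, c ∈ ((T ∪ (Finset.range (j + 1)).biUnion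
      (fun i => hcod.toFinset.biUnion
        (fun G => T.biUnion fun x => T.biUnion fun y => F i G x y)) : Finset X) : Set X) := by
    intro c hc
    rw [Finset.mem_coe]
    refine Finset.mem_union_right _ ?_
    rw [Finset.mem_biUnion]
    refine ⟨i, Finset.mem_range.2 (by omega), ?_⟩
    rw [Finset.mem_biUnion]
    refine ⟨G, hG, ?_⟩
    rw [Finset.mem_biUnion]
    refine ⟨x, hx, ?_⟩
    rw [Finset.mem_biUnion]
    exact ⟨y, hy, hc⟩
  exact ⟨⟨h1, hsub a h4⟩, ⟨h2, hsub b h6⟩, h3⟩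

end KTab
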