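import Pool.Agent.KTab.Lift2

/-!
A long pair of parallel runs XP among the points of a modal algebra gives many elements in an
8-generated subalgebra (only 4 generators are used; fill up with ⊥).  Look at
Pool/Agent/KBT/PPkill.lean, the proof has the same form (here it is simpler, since we have more
generators).  PROOF.  If m = 0 trivial.  Apply lift2 to the list p (2*a) = x false a,
p (2*a+1) = x true a, n = 2*m+2, and put X e a := P (2*a + (if e then 1 else 0)).  UNIFORM: for
a < b ≤ m and F in X e b: dia f (X e' a) ∈ F.s ↔ Rel f (x e b) (x e' a).  Put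
D a := symmetric difference of dia f (X false a) and dia f (X true a).  So X e (a+1) ≤ D a for
a < m and X e b ⊓ D a = ⊥ for a + 2 ≤ b ≤ m.  Generators: X false 0, X true 0,
Q e := sup over 1 ≤ b ≤ m of X e b.  By induction on a (1 ≤ a ≤ m) X e a and
Qa e a := sup over a < b ≤ m of X e b are generated: X e (a+1) = Qa e a ⊓ D a and
Qa e (a+1) = Qa e a ⊓ (D a)ᶜ.  U i := X false (i+1), i < m.  They are different: a point F of
X false (j+1) is not in D i for i < j but a point of X false (i+1) is in D i, and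
x false (j+1) ∈ X false (j+1).
-/

set_option autoImplicit false

namespace KTab

open KBT

variable {A : Type} [BooleanAlgebra A]

theorem xpkill {f : A → A} (htop : f ⊤ = ⊤) (hinf : ∀ a b : A, f (a ⊓ b) = f a ⊓ f b) {m : ℕ}
    (h : XP (Rel f) m) :
    ∃ (g : Fin 8 → A) (U : ℕ → A), (∀ i < m, Gen f g (U i)) ∧
      ∀ i j, i < j → j < m → U i ≠ U j := by
  classical
  rcases Nat.eq_zero_or_pos m with h0 | hm
  · subst h0
    exact ⟨fun _ => ⊥, fun _ => ⊥, fun i hi => absurd hi (Nat.not_lt_zero i),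
      fun i j _ hj => absurd hj (Nat.not_lt_zero j)⟩
  obtain ⟨x, h1, h2⟩ := h
  let p : ℕ → Pt A := fun n => if n % 2 = 0 then x false (n / 2) else x true (n / 2)
  obtain ⟨P, hP1, hP2, -⟩ := lift2 htop hinf p (2 * m + 2)
  let k : Bool → ℕ → ℕ := fun e a => 2 * a + (if e then 1 else 0)
  have hk : ∀ e a, p (k e a) = x e a := by
    intro e a
    cases e
    · have e1 : 2 * a % 2 = 0 := by omega
      have e2 : 2 * a / 2 = a := by omega
      simp [p, k]
    · have e1 : ¬ ((2 * a + 1) % 2 = 0) := by omega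
      have e2 : (2 * a + 1) / 2 = a := by omega
      simp only [p, k, if_true, e1, e2, if_false]
  have hklt : ∀ e e' a b, a < b → k e' a < k e b := by
    intro e e' a b hab
    cases e <;> cases e' <;> simp only [k] <;> simp <;> omega
  have hkn : ∀ e b, b ≤ m → k e b < 2 * m + 2 := by
    intro e b hb
    cases e <;> simp only [k] <;> simp <;> omega
  let X : Bool → ℕ → A := fun e a => P (k e a)
  have hU : ∀ e e' a b, a < b → b ≤ m → ∀ F : Pt A, X e b ∈ F.s →
      (dia f (X e' a) ∈ F.s ↔ Rel f (x e b) (x e' a)) := by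
    intro e e' a b hab hb F hF
    obtain ⟨h3, h4⟩ := hP2 (k e' a) (k e b) (hklt e e' a b hab) (hkn e b hb)
    rw [hk, hk] at h3 h4
    by_cases h : Rel f (x e b) (x e' a)
    · exact ⟨fun _ => h, fun _ => F.mono (h3 h) hF⟩
    · refine ⟨fun h5 => ?_, fun h5 => absurd h5 h⟩
      exact absurd ((F.inf _ _).mpr ⟨hF, h5⟩) ((eq_bot_iff_pts _).mp (h4 h) F)
  let D : ℕ → A := fun a =>
    (dia f (X false a) ⊓ (dia f (X true a))ᶜ) ⊔ ((dia f (X false a))ᶜ ⊓ dia f (X true a))
  have hD : ∀ a (F : Pt A), D a ∈ F.s ↔ ¬ (dia f (X false a) ∈ F.s ↔ dia f (X true a) ∈ F.s) := by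
    intro a F
    simp only [D, F.sup, F.inf, F.compl]
    tauto
  have c1 : ∀ a < m, ∀ e (F : Pt A), X e (a+1) ∈ F.s → D a ∈ F.s := by
    intro a ha e F hF
    have e1 := h1 a ha e
    have e4 := hU e false a (a+1) (by omega) (by omega) F hF
    have e5 := hU e true a (a+1) (by omega) (by omega) F hF
    rw [hD, e4, e5]
    exact e1
  have c3 : ∀ a b, a + 2 ≤ b → b ≤ m → ∀ e (F : Pt A), X e b ∈ F.s → D a ∉ F.s := by
    intro a b hab hb e F hF
    have e1 := h2 a b hab hb e
    have e4 := hU e false a b (by omega) hb F hF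
    have e5 := hU e true a b (by omega) hb F hF
    rw [hD, e4, e5]
    exact fun h => h e1
  let Q : Bool → ℕ → A := fun e a => (Finset.Ioc a m).sup (fun b => X e b)
  have hQ : ∀ e a (F : Pt A), Q e a ∈ F.s ↔ ∃ b, (a < b ∧ b ≤ m) ∧ X e b ∈ F.s := by
    intro e a F
    simp only [Q, finset_sup_mem, Finset.mem_Ioc]
  have c5 : ∀ a < m, ∀ e (F : Pt A), Q e (a+1) ∈ F.s → D a ∉ F.s := by
    intro a ha e F hF
    rw [hQ] at hF
    obtain ⟨b, ⟨h3, h4⟩, h5⟩ := hF
    exact c3 a b (by omega) h4 e F h5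
  have c6 : ∀ a < m, ∀ e (F : Pt A), Q e a ∈ F.s ↔ X e (a+1) ∈ F.s ∨ Q e (a+1) ∈ F.s := by
    intro a ha e F
    rw [hQ, hQ]
    constructor
    · rintro ⟨b, ⟨h3, h4⟩, h5⟩
      by_cases hb : b = a + 1
      · subst hb
        exact Or.inl h5
      · exact Or.inr ⟨b, ⟨by omega, h4⟩, h5⟩
    · rintro (h3 | ⟨b, ⟨h3, h4⟩, h5⟩)
      · exact ⟨a+1, ⟨by omega, by omega⟩, h3⟩
      · exact ⟨b, ⟨by omega, h4⟩, h5⟩
  let g : Fin 8 → A := ![X false 0, X true 0, Q false 0, Q true 0, ⊥, ⊥, ⊥, ⊥]
  have g0 : Gen f g (X false 0) := Gen.gen (f := f) (g := g) 0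
  have g1 : Gen f g (X true 0) := Gen.gen (f := f) (g := g) 1
  have g2 : Gen f g (Q false 0) := Gen.gen (f := f) (g := g) 2
  have g3 : Gen f g (Q true 0) := Gen.gen (f := f) (g := g) 3
  have main : ∀ a, a ≤ m → ∀ e, Gen f g (X e a) ∧ Gen f g (Q e a) := by
    intro a
    induction a with
    | zero =>
      intro _ e
      cases e
      · exact ⟨g0, g2⟩
      · exact ⟨g1, g3⟩
    | succ a ih =>
      intro ha e
      have ih' := ih (by omega)
      have i1 := (ih' false).1
      have i2 := (ih' true).1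
      have i3 := (ih' e).2
      have gD : Gen f g (D a) :=
        Gen.sup' (Gen.inf _ _ (Gen.dia' i1) (Gen.compl _ (Gen.dia' i2)))
          (Gen.inf _ _ (Gen.compl _ (Gen.dia' i1)) (Gen.dia' i2))
      have d1 := c1 a (by omega) e
      have d5 := c5 a (by omega) e
      have d6 := c6 a (by omega) e
      refine ⟨?_, ?_⟩
      · have : X e (a+1) = Q e a ⊓ D a := by
          apply ext_pts
          intro F
          rw [F.inf, d6]
          have e1 := d1 F
          have e5 := d5 F
          tauto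
        rw [this]
        exact Gen.inf _ _ i3 gD
      · have : Q e (a+1) = Q e a ⊓ (D a)ᶜ := by
          apply ext_pts
          intro F
          rw [F.inf, F.compl, d6]
          have e1 := d1 F
          have e5 := d5 F
          tauto
        rw [this]
        exact Gen.inf _ _ i3 (Gen.compl _ gD)
  refine ⟨g, fun i => X false (i+1), fun i hi => (main (i+1) (by omega) false).1, ?_⟩
  intro i j hij hj heq
  have e1 : X false (j+1) ∈ (p (k false (j+1))).s := hP1 _ (hkn false (j+1) (by omega))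
  have e2 : X false (i+1) ∈ (p (k false (j+1))).s := by
    dsimp only at heq
    rw [heq]; exact e1
  exact c3 i (j+1) (by omega) (by omega) false _ e1 (c1 i (by omega) false _ e2)

end KTab
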